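import Mathlib

/-!
# MP_f2dc7b: convex 4-polytopes and icosahedra, definitions

A convex 4-polytope is `convexHull ℝ (S : Set E4)` for a finite set `S` of points of Euclidean
4-space, with nonempty interior.
-/

set_option autoImplicit false

open Set Module

namespace Pool.Agent.H77.IC

/-- Euclidean 4-space. -/
abbrev E4 := EuclideanSpace ℝ (Fin 4)

/-- `F` is a facet of the convex set `P`: an exposed face of dimension three. -/
def IsFacet (P F : Set E4) : Prop :=
  IsExposed ℝ P F ∧ finrank ℝ (affineSpan ℝ F).direction = 3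

/-- The regular icosahedron in 3-space. -/
def Ico : Set (Fin 3 → ℝ) :=
  convexHull ℝ {v : Fin 3 → ℝ | ∃ s t : ℝ, (s = 1 ∨ s = -1) ∧ (t = 1 ∨ t = -1) ∧
    (v = ![0, s, t * Real.goldenRatio] ∨ v = ![s, t * Real.goldenRatio, 0] ∨
      v = ![t * Real.goldenRatio, 0, s])}

/-- `F` is combinatorially an icosahedron: a bijection between the vertices of `F` and those of
the icosahedron matches the vertex sets of the faces. -/
def IsIco (F : Set E4) : Prop :=
  ∃ g : E4 → (Fin 3 → ℝ), BijOn g (F.extremePoints ℝ) (Ico.extremePoints ℝ) ∧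
    ∀ T : Set E4, T ⊆ F.extremePoints ℝ →
      ((∃ G : Set E4, IsExposed ℝ F G ∧ G ∩ F.extremePoints ℝ = T) ↔
        (∃ H : Set (Fin 3 → ℝ), IsExposed ℝ Ico H ∧ H ∩ Ico.extremePoints ℝ = g '' T))

/-- `F` is affinely a regular icosahedron. -/
def IsRegIco (F : Set E4) : Prop :=
  ∃ A : (Fin 3 → ℝ) →ᵃ[ℝ] E4, Function.Injective A ∧ A '' Ico = F

/-- The vertices of `F` which a linear map `π` to the plane sends into the interior of the
image of `F` (the vertices inside the shadow of `F`). -/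
def inner (π : E4 →ₗ[ℝ] (Fin 2 → ℝ)) (F : Set E4) : Set E4 :=
  {x | x ∈ F.extremePoints ℝ ∧ π x ∈ interior (π '' F)}

/-- Algebraic relative interior. -/
def Core (F : Set E4) (z : E4) : Prop :=
  z ∈ F ∧ ∀ w ∈ F, ∃ ε : ℝ, 0 < ε ∧ z + ε • (z - w) ∈ F

/-- `y` is joined to `x` by an edge of `F`. -/
def nb (F : Set E4) (x : E4) : Set E4 :=
  {y | y ≠ x ∧ x ∈ F.extremePoints ℝ ∧ y ∈ F.extremePoints ℝ ∧
    ∃ G : Set E4, IsExposed ℝ F G ∧ G ∩ F.extremePoints ℝ = {x, y}}

end Pool.Agent.H77.IC
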