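import Mathlib
import Pool.Agent.H77.IC.Defs

/-!
# Algebraic relative interior (module CoreA, about 90 lines, elementary)

* `core_exists`: for a finite nonempty `T` the barycentre `z` of `T` is a core point of the hull.
  If `w = sum c_s s` and `n = #T` then `z + ε (z - w) = sum ((1+ε)/n - ε c_s) s` and `ε = 1/n`
  works, since `c_s <= 1`.
* `core_combo`: `c` core, `w ∈ F`, `0 <= t < 1`: the point `z = (1-t) c + t w` is core.
  Given `u ∈ F` let `c' = (1+δ) c - δ u ∈ F`. For `ε = (1-t)/(1/δ+1)` the point `(1+ε) z - ε u`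
  is the convex combination `(ε/δ) c' + (1+ε) t w + γ c` with
  `γ = (1+ε)(1-t) - ε (1+δ)/δ >= 0`.
* `core_max`: if the linear functional `a` is at most `M` on `F` and equals `M` at a core point
  then it equals `M` on `F`.
-/

set_option autoImplicit false

open Set Module

namespace Pool.Agent.H77.IC

theorem core_exists (T : Finset E4) (hT : T.Nonempty) :
    ∃ z, Core (convexHull ℝ (T : Set E4)) z := by
  have hn : 0 < (T.card : ℝ) := by exact_mod_cast hT.card_pos
  have hn1 : 0 < 1 / (T.card : ℝ) := by positivity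
  have hsum : ∑ _y ∈ T, (1 / (T.card : ℝ)) = 1 := by
    rw [Finset.sum_const, nsmul_eq_mul]
    field_simp
  refine ⟨∑ y ∈ T, (1 / (T.card : ℝ)) • y, ?_, ?_⟩
  · rw [Finset.mem_convexHull']
    exact ⟨fun _ => 1 / (T.card : ℝ), fun _ _ => hn1.le, hsum, rfl⟩
  · intro w hw
    rw [Finset.mem_convexHull'] at hw
    obtain ⟨c, hc0, hc1, rfl⟩ := hw
    refine ⟨1 / (T.card : ℝ), hn1, ?_⟩
    rw [Finset.mem_convexHull']
    refine ⟨fun y => 1 / (T.card : ℝ) + 1 / (T.card : ℝ) * (1 / (T.card : ℝ) - c y), ?_, ?_, ?_⟩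
    · intro y hy
      have h1 : c y ≤ 1 := by
        rw [← hc1]
        exact Finset.single_le_sum hc0 hy
      have h2 : 0 ≤ 1 / (T.card : ℝ) * (1 / (T.card : ℝ)) := by positivity
      have h3 : 1 / (T.card : ℝ) * c y ≤ 1 / (T.card : ℝ) * 1 :=
        mul_le_mul_of_nonneg_left h1 hn1.le
      have h4 : 1 / (T.card : ℝ) + 1 / (T.card : ℝ) * (1 / (T.card : ℝ) - c y) =
          1 / (T.card : ℝ) * 1 - 1 / (T.card : ℝ) * c y +
            1 / (T.card : ℝ) * (1 / (T.card : ℝ)) := by ring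
      change 0 ≤ 1 / (T.card : ℝ) + 1 / (T.card : ℝ) * (1 / (T.card : ℝ) - c y)
      rw [h4]
      linarith
    · rw [Finset.sum_add_distrib, hsum, ← Finset.mul_sum, Finset.sum_sub_distrib, hsum, hc1]
      ring
    · rw [smul_sub, Finset.smul_sum, Finset.smul_sum, ← Finset.sum_sub_distrib,
        ← Finset.sum_add_distrib]
      refine Finset.sum_congr rfl fun y _ => ?_
      rw [add_smul, smul_smul, smul_smul, mul_sub, sub_smul]

theorem core_combo {F : Set E4} (hF : Convex ℝ F) {c w : E4} (hc : Core F c) (hw : w ∈ F)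
    {t : ℝ} (ht0 : 0 ≤ t) (ht1 : t < 1) : Core F ((1 - t) • c + t • w) := by
  refine ⟨hF hc.1 hw (by linarith) ht0 (by ring), fun u hu => ?_⟩
  obtain ⟨δ, hδ, hc'⟩ := hc.2 u hu
  set ε : ℝ := δ * (1 - t) / (1 + δ) with hε
  have h1δ : 0 < 1 + δ := by linarith
  have ht : 0 < 1 - t := by linarith
  have hε0 : 0 < ε := by positivity
  have hεδ : ε * (1 + δ) = δ * (1 - t) := div_mul_cancel₀ _ h1δ.ne'
  have hkey : ε ≤ δ * (1 - (1 + ε) * t) := by
    nlinarith [mul_nonneg (mul_nonneg hε0.le hδ.le) ht.le]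
  have hs : 0 < 1 - (1 + ε) * t := by
    by_contra hcon
    have : δ * (1 - (1 + ε) * t) ≤ 0 := mul_nonpos_of_nonneg_of_nonpos hδ.le (not_lt.1 hcon)
    linarith
  set s : ℝ := (1 + ε) * t with hsdef
  set η : ℝ := ε / (1 - s) with hη
  have hη0 : 0 ≤ η := by positivity
  have hηs : η * (1 - s) = ε := div_mul_cancel₀ _ hs.ne'
  have hηδ : η ≤ δ := by
    rw [hη, div_le_iff₀ hs]
    exact hkey
  have hp : (1 - η / δ) • c + (η / δ) • (c + δ • (c - u)) ∈ F :=
    hF hc.1 hc' (by rw [sub_nonneg, div_le_one hδ]; exact hηδ) (by positivity) (by ring)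
  refine ⟨ε, hε0, ?_⟩
  have hfin := hF hp hw hs.le (by positivity : (0 : ℝ) ≤ s) (by ring)
  have hηδ' : η / δ * δ = η := div_mul_cancel₀ _ hδ.ne'
  have hvec : ((1 - t) • c + t • w) + ε • (((1 - t) • c + t • w) - u) =
      (1 - s) • ((1 - η / δ) • c + (η / δ) • (c + δ • (c - u))) + s • w := by
    have h1 : (1 - η / δ) • c + (η / δ) • (c + δ • (c - u)) = (1 + η) • c - η • u := by
      rw [smul_add, smul_smul, hηδ', smul_sub, sub_smul, one_smul, add_smul, one_smul]
      abel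
    have h5 : (1 - s) • ((1 + η) • c - η • u) = ((1 - s) * (1 + η)) • c - ((1 - s) * η) • u := by
      rw [smul_sub, smul_smul, smul_smul]
    rw [h1, h5]
    have h2 : (1 - s) * (1 + η) = (1 + ε) * (1 - t) := by
      have : (1 - s) * (1 + η) = 1 - s + η * (1 - s) := by ring
      rw [this, hηs, hsdef]
      ring
    have h3 : (1 - s) * η = ε := by rw [mul_comm]; exact hηs
    rw [h2, h3, hsdef]
    module
  rw [hvec]
  exact hfin

theorem core_max {F : Set E4} {z : E4} (hz : Core F z) (a : E4 →ₗ[ℝ] ℝ) (M : ℝ)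
    (ha : ∀ y ∈ F, a y ≤ M) (hzM : a z = M) : ∀ y ∈ F, a y = M := by
  intro y hy
  obtain ⟨ε, hε, h⟩ := hz.2 y hy
  have h1 := ha _ h
  rw [map_add, map_smul, map_sub, hzM, smul_eq_mul] at h1
  have h2 := ha y hy
  have h3 : ε * (M - a y) ≤ 0 := by linarith
  nlinarith

end Pool.Agent.H77.IC
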