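import Mathlib
import Pool.Agent.H77.IC.Defs
import Pool.Agent.H77.IC.CoreA
import Pool.Agent.H27.Content.Faces

/-!
# Facets of a polytope (module Facet, about 130 lines)

`P = convexHull S`, `S` finite. Everything from `Pool.Agent.H27.Content.Faces` (helper27):
`exposed_eq`, `exposed_of_max`, `face_eq_hull`, `finite_faces`, `face_eq_inter_span`,
`face_eq_of_dir_le`, `face_eq_of_dir_eq`, `dir_lt`, `face_trans`.

* `facet_eq`: `exposed_eq` (a facet is nonempty since its direction has rank 3).
* `facet_unique`: `dir_lt`.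
* `ext_face`: vertices of a face: `IsExtreme.extremePoints_subset_extremePoints` and
  `IsExtreme.extremePoints_eq`.
* `facet_core`: `face_eq_hull` and `core_exists`.
* `face_sub`: if `G` is an exposed face of `P` and `G ⊆ F ⊆ P` then `G` is exposed in `F`
  (same functional).
* `eq_of_core`: core point `z` of the facet `F'` lying in the facet `F` forces `F' = F`
  (`core_max` for the functional of `F`, then `facet_unique`).
* `face_hull_ext`: a face is the convex hull of its extreme points
  (`face_eq_hull`-style: Krein-Milman plus finiteness).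
* `facet_four`: a facet has at least four vertices (it is the hull of its vertices and `n` points
  have vector span of rank at most `n - 1`: `finrank_vectorSpan_range_le` or
  `finrank_vectorSpan_image_finset_le`, with `direction_affineSpan`, `affineSpan_convexHull`).
-/

set_option autoImplicit false

open Set Module

namespace Pool.Agent.H77.IC

variable (S : Finset E4)

open Pool.Agent.H27.Content

theorem facet_finite : {F : Set E4 | IsFacet (convexHull ℝ (S : Set E4)) F}.Finite :=
  (finite_faces S).subset fun _ h => h.1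

private theorem facet_nonempty {P F : Set E4} (h : IsFacet P F) : F.Nonempty := by
  by_contra hne
  rw [not_nonempty_iff_eq_empty] at hne
  have h3 := h.2
  rw [hne, AffineSubspace.span_empty, AffineSubspace.direction_bot, finrank_bot] at h3
  omega

theorem facet_eq {P F : Set E4} (h : IsFacet P F) :
    F.Nonempty ∧ ∃ (a : E4 →L[ℝ] ℝ) (M : ℝ), (∀ y ∈ P, a y ≤ M) ∧ F = {x ∈ P | a x = M} :=
  ⟨facet_nonempty h, exposed_eq h.1 (facet_nonempty h)⟩

theorem facet_unique {P F F' : Set E4} (h : IsFacet P F) (h' : IsFacet P F') (hs : F ⊆ F') :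
    F = F' := by
  by_contra hne
  have := dir_lt h.1 h'.1 (facet_nonempty h) hs hne
  have h1 := h.2
  have h2 := h'.2
  change finrank ℝ (affineSpan ℝ F).direction < finrank ℝ (affineSpan ℝ F').direction at this
  omega

theorem ext_face {P F : Set E4} (h : IsExposed ℝ P F) :
    F.extremePoints ℝ = F ∩ P.extremePoints ℝ :=
  h.isExtreme.extremePoints_eq

theorem ext_finite : ((convexHull ℝ (S : Set E4)).extremePoints ℝ).Finite :=
  S.finite_toSet.subset extremePoints_convexHull_subset

theorem face_sub {P F G : Set E4} (hG : IsExposed ℝ P G) (hF : F ⊆ P) (hGF : G ⊆ F) :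
    IsExposed ℝ F G := by
  intro hne
  obtain ⟨l, hl⟩ := hG hne
  refine ⟨l, ?_⟩
  apply Subset.antisymm
  · intro x hx
    have h1 : x ∈ {x ∈ P | ∀ y ∈ P, l y ≤ l x} := hl ▸ hx
    exact ⟨hGF hx, fun y hy => h1.2 y (hF hy)⟩
  · rintro x ⟨hxF, hx⟩
    rw [hl]
    refine ⟨hF hxF, fun y hy => ?_⟩
    obtain ⟨g, hg⟩ := hne
    have h1 : g ∈ {x ∈ P | ∀ y ∈ P, l y ≤ l x} := hl ▸ hg
    exact (h1.2 y hy).trans (hx g (hGF hg))

theorem face_hull_ext {F : Set E4} (hF : IsExposed ℝ (convexHull ℝ (S : Set E4)) F) :
    F = convexHull ℝ (F.extremePoints ℝ) := by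
  have hPc : IsCompact (convexHull ℝ (S : Set E4)) := S.finite_toSet.isCompact_convexHull ℝ
  have hFc : IsCompact F := hF.isCompact hPc
  have hFconv : Convex ℝ F := hF.convex (convex_convexHull ℝ _)
  have hfin : (F.extremePoints ℝ).Finite := by
    rw [ext_face hF]
    exact (ext_finite S).inter_of_right _
  have h1 : closure (convexHull ℝ (F.extremePoints ℝ)) = F :=
    closure_convexHull_extremePoints hFc hFconv
  rw [(hfin.isClosed_convexHull ℝ).closure_eq] at h1
  exact h1.symm

theorem facet_core {F : Set E4} (h : IsFacet (convexHull ℝ (S : Set E4)) F) : ∃ z, Core F z := by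
  have hfin : (F.extremePoints ℝ).Finite := by
    rw [ext_face h.1]
    exact (ext_finite S).inter_of_right _
  have hF := face_hull_ext S h.1
  have hne : (F.extremePoints ℝ).Nonempty := by
    rw [← convexHull_nonempty_iff (𝕜 := ℝ), ← hF]
    exact facet_nonempty h
  obtain ⟨z, hz⟩ := core_exists hfin.toFinset (by simpa using hne)
  refine ⟨z, ?_⟩
  rw [hfin.coe_toFinset, ← hF] at hz
  exact hz

theorem eq_of_core {P F F' : Set E4} (h : IsFacet P F) (h' : IsFacet P F') {z : E4}
    (hz : Core F' z) (hzF : z ∈ F) : F' = F := by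
  obtain ⟨-, a, M, hM, hF⟩ := facet_eq h
  apply facet_unique h' h
  have hz' : z ∈ {x ∈ P | a x = M} := hF ▸ hzF
  intro y hy
  rw [hF]
  refine ⟨h'.1.subset hy, ?_⟩
  exact core_max hz a.toLinearMap M (fun y hy => hM y (h'.1.subset hy)) hz'.2 y hy

theorem facet_four {F : Set E4} (hF : IsFacet (convexHull ℝ (S : Set E4)) F) :
    4 ≤ (F.extremePoints ℝ).ncard := by
  have hfin : (F.extremePoints ℝ).Finite := by
    rw [ext_face hF.1]
    exact (ext_finite S).inter_of_right _
  have hH := face_hull_ext S hF.1
  have hne : (F.extremePoints ℝ).Nonempty := by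
    rw [← convexHull_nonempty_iff (𝕜 := ℝ), ← hH]
    exact facet_nonempty hF
  have h3 := hF.2
  rw [hH, affineSpan_convexHull, direction_affineSpan] at h3
  classical
  have hpos : 0 < hfin.toFinset.card := Finset.card_pos.2 (by simpa using hne)
  obtain ⟨n, hn⟩ : ∃ n, hfin.toFinset.card = n + 1 := ⟨_, (Nat.succ_pred_eq_of_pos hpos).symm⟩
  have h4 := finrank_vectorSpan_image_finset_le ℝ (id : E4 → E4) hfin.toFinset hn
  rw [Finset.image_id, hfin.coe_toFinset, h3] at h4
  rw [Set.ncard_eq_toFinset_card _ hfin, hn]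
  omega

end Pool.Agent.H77.IC
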