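import Mathlib
import Pool.Agent.H77.IC.Defs
import Pool.Agent.H77.IC.Facet
import Pool.Agent.H27.Content.Faces

/-!
# Vertices of polytopes are exposed (module Expose, about 90 lines)

* `vertex_exposed`: for `x` an extreme point of the polytope `P = convexHull S` there is a linear
  functional `l` with `l y < l x` for all `y ∈ P`, `y ≠ x`. Proof: `x ∈ S`
  (`extremePoints_convexHull_subset`) and `x` is not in the hull of `S \ {x}` (otherwise, `x`
  being extreme, it would be one of the points of `S \ {x}`: extreme points of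
  `convexHull (S \ {x})` lie in `S \ {x}`, and `x` extreme in `P` is extreme in the smaller hull).
  Separate strictly (`geometric_hahn_banach_point_closed` or `..._compact_closed`):
  `l y < l x` on the hull of `S \ {x}`; every `y ∈ P` is `t x + (1-t) y'` (`convexHull_insert`,
  `mem_segment`).
* `edge_trans`: if `F, F'` are facets of `P`, `y ∈ nb F x`, and `x, y ∈ F'` then `y ∈ nb F' x`.
  Proof: `G` exposed in `F` with vertices `x, y`: `G = segment x y` (`face_hull_ext`), exposed in
  `P` (`face_trans`), contained in `F'` (convex), exposed in `F'` (`face_sub`); the extreme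
  points of `F'` are those of `P` in `F'` (`ext_face`), so `G ∩ ext F' = G ∩ ext P = {x, y}`
  as `G ∩ ext P = G.extremePoints = G ∩ ext F`.
-/

set_option autoImplicit false

open Set Module

namespace Pool.Agent.H77.IC

theorem vertex_exposed (S : Finset E4) {x : E4}
    (hx : x ∈ (convexHull ℝ (S : Set E4)).extremePoints ℝ) :
    ∃ l : E4 →L[ℝ] ℝ, ∀ y ∈ convexHull ℝ (S : Set E4), y ≠ x → l y < l x := by
  have hxS : x ∈ (S : Set E4) := extremePoints_convexHull_subset hx
  set T : Set E4 := (S : Set E4) \ {x} with hT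
  have hTf : T.Finite := S.finite_toSet.subset sdiff_subset
  have hxC : x ∉ convexHull ℝ T := by
    intro hxC
    have h1 : x ∈ (convexHull ℝ T).extremePoints ℝ :=
      inter_extremePoints_subset_extremePoints_of_subset (convexHull_mono sdiff_subset) ⟨hxC, hx⟩
    have h2 : x ∈ T := extremePoints_convexHull_subset h1
    exact h2.2 rfl
  obtain ⟨l, u, hl, hu⟩ := geometric_hahn_banach_closed_point (convex_convexHull ℝ T)
    (hTf.isClosed_convexHull ℝ) hxC
  refine ⟨l, fun y hy hyx => ?_⟩
  have hins : (S : Set E4) = insert x T := by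
    rw [hT, insert_sdiff_self_of_mem hxS]
  rcases T.eq_empty_or_nonempty with hTe | hTne
  · rw [hins, hTe] at hy
    simp at hy
    exact absurd hy hyx
  · rw [hins, convexHull_insert hTne, mem_convexJoin] at hy
    obtain ⟨a, ha, b, hb, hy⟩ := hy
    rw [mem_singleton_iff] at ha
    subst ha
    obtain ⟨α, β, hα, hβ, hαβ, rfl⟩ := hy
    have hβ0 : β ≠ 0 := by
      rintro rfl
      apply hyx
      have : α = 1 := by linarith
      simp [this]
    have hβp : 0 < β := lt_of_le_of_ne hβ (Ne.symm hβ0)
    have h3 := hl b hb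
    rw [map_add, map_smul, map_smul, smul_eq_mul, smul_eq_mul]
    have h4 : β * l b < β * l a := mul_lt_mul_of_pos_left (h3.trans hu) hβp
    have h5 : α * l a + β * l a = l a := by rw [← add_mul, hαβ, one_mul]
    linarith

theorem edge_trans (S : Finset E4) {F F' : Set E4} {x y : E4}
    (hF : IsFacet (convexHull ℝ (S : Set E4)) F) (hF' : IsFacet (convexHull ℝ (S : Set E4)) F')
    (hy : y ∈ nb F x) (hx' : x ∈ F') (hy' : y ∈ F') : y ∈ nb F' x := by
  obtain ⟨hne, hxe, hye, G, hG, hGe⟩ := hy
  have hGP : IsExposed ℝ (convexHull ℝ (S : Set E4)) G :=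
    Pool.Agent.H27.Content.face_trans S hF.1 hG
  have hF'conv : Convex ℝ F' := hF'.1.convex (convex_convexHull ℝ _)
  -- extreme points of `G`
  have hGext : G.extremePoints ℝ = {x, y} := by
    rw [ext_face hG, hGe]
  have hGF' : G ⊆ F' := by
    rw [face_hull_ext S hGP, hGext]
    refine convexHull_min ?_ hF'conv
    rintro z hz
    simp only [mem_insert_iff, mem_singleton_iff] at hz
    rcases hz with rfl | rfl
    · exact hx'
    · exact hy'
  have hGF : IsExposed ℝ F' G := face_sub hGP hF'.1.subset hGF'
  have hxP : x ∈ (convexHull ℝ (S : Set E4)).extremePoints ℝ :=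
    hF.1.isExtreme.extremePoints_subset_extremePoints hxe
  have hyP : y ∈ (convexHull ℝ (S : Set E4)).extremePoints ℝ :=
    hF.1.isExtreme.extremePoints_subset_extremePoints hye
  refine ⟨hne, ?_, ?_, G, hGF, ?_⟩
  · rw [ext_face hF'.1]
    exact ⟨hx', hxP⟩
  · rw [ext_face hF'.1]
    exact ⟨hy', hyP⟩
  · rw [← ext_face hGF, hGext]

end Pool.Agent.H77.IC
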