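import Mathlib
import Pool.Agent.H77.IC.Defs

/-!
# A functional separating finitely many directions (module Sep, about 90 lines)

`Y` finite set of points, `ℓ` a linear functional with `ℓ (y - x) > 0` for `y ∈ Y`, and for
distinct `y, y' ∈ Y` the vectors `y - x`, `y' - x` are not proportional. Then there is a linear
functional `h` such that the ratios `h (y - x) / ℓ (y - x)`, `y ∈ Y`, are pairwise distinct.

Proof. The condition for the pair `y ≠ y'` is `h w ≠ 0` for
`w = ℓ (y' - x) (y - x) - ℓ (y - x) (y' - x) ≠ 0`. A finite set of nonzero vectors admits a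
functional which is nonzero on all of them: the inner product with a vector outside the finite
union of the hyperplanes `w^⊥` (for instance `Module.Dual.exists_forall_mem_ne_zero_of_forall_exists`,
or `Submodule.iUnion_ssubset_of_forall_ne_top_of_card_lt`, or the moment curve
`(1, t, t^2, t^3)` and the finiteness of roots of nonzero polynomials).
-/

set_option autoImplicit false

open Set Module

namespace Pool.Agent.H77.IC

theorem exists_nonzero (W : Finset E4) (hW : ∀ w ∈ W, w ≠ 0) :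
    ∃ h : E4 →ₗ[ℝ] ℝ, ∀ w ∈ W, h w ≠ 0 := by
  obtain ⟨h, hh⟩ := Module.exists_dual_forall_apply_ne_zero (K := ℝ) (fun w : W => (w : E4))
    (fun w => hW w w.2)
  exact ⟨h, fun w hw => hh ⟨w, hw⟩⟩

theorem exists_sep (Y : Finset E4) (x : E4) (l : E4 →ₗ[ℝ] ℝ) (hl : ∀ y ∈ Y, 0 < l (y - x))
    (hY : ∀ y ∈ Y, ∀ y' ∈ Y, y ≠ y' → ∀ c : ℝ, y - x ≠ c • (y' - x)) :
    ∃ h : E4 →ₗ[ℝ] ℝ, ∀ y ∈ Y, ∀ y' ∈ Y,
      h (y - x) / l (y - x) = h (y' - x) / l (y' - x) → y = y' := by
  classical
  let wv : E4 × E4 → E4 := fun p => l (p.2 - x) • (p.1 - x) - l (p.1 - x) • (p.2 - x)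
  let W : Finset E4 := ((Y ×ˢ Y).filter (fun p => p.1 ≠ p.2)).image wv
  have hW : ∀ w ∈ W, w ≠ 0 := by
    intro w hw
    obtain ⟨p, hp, rfl⟩ := Finset.mem_image.1 hw
    obtain ⟨hp1, hne⟩ := Finset.mem_filter.1 hp
    obtain ⟨h1, h2⟩ := Finset.mem_product.1 hp1
    intro h0
    have h3 : l (p.2 - x) • (p.1 - x) = l (p.1 - x) • (p.2 - x) := sub_eq_zero.1 h0
    have h4 : l (p.2 - x) ≠ 0 := (hl _ h2).ne'
    refine hY p.1 h1 p.2 h2 hne ((l (p.2 - x))⁻¹ * l (p.1 - x)) ?_
    rw [mul_smul, ← h3, smul_smul, inv_mul_cancel₀ h4, one_smul]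
  obtain ⟨h, hh⟩ := exists_nonzero W hW
  refine ⟨h, fun y hy y' hy' heq => ?_⟩
  by_contra hne
  have h1 : wv (y, y') ∈ W :=
    Finset.mem_image.2 ⟨(y, y'), Finset.mem_filter.2 ⟨Finset.mem_product.2 ⟨hy, hy'⟩, hne⟩, rfl⟩
  refine hh _ h1 ?_
  have h2 : h (wv (y, y')) = l (y' - x) * h (y - x) - l (y - x) * h (y' - x) := by
    show h (l (y' - x) • (y - x) - l (y - x) • (y' - x)) = _
    rw [map_sub, map_smul, map_smul, smul_eq_mul, smul_eq_mul]
  rw [h2]
  rw [div_eq_div_iff (hl y hy).ne' (hl y' hy').ne'] at heq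
  linear_combination heq

/-- Two different vertices of a convex set are not on one line with a third. -/
theorem not_proportional {P : Set E4} (hP : Convex ℝ P) {x y y' : E4}
    (hx : x ∈ P.extremePoints ℝ) (hy : y ∈ P.extremePoints ℝ) (hy' : y' ∈ P.extremePoints ℝ)
    (hyx : y ≠ x) (hyx' : y' ≠ x) (h : y ≠ y') (c : ℝ) : y - x ≠ c • (y' - x) := by
  intro hc
  have _ := hP
  rw [mem_extremePoints_iff_left] at hx hy hy'
  have hyc : y = x + c • (y' - x) := by
    rw [← hc]
    abel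
  have hc0 : c ≠ 0 := by
    rintro rfl
    apply hyx
    rw [hyc, zero_smul, add_zero]
  have hc1 : c ≠ 1 := by
    rintro rfl
    apply h
    rw [hyc, one_smul]
    abel
  rcases lt_or_gt_of_ne hc0 with h0 | h0
  · -- `x` is between `y` and `y'`
    have h1 : (0 : ℝ) < 1 - c := by linarith
    apply hyx
    refine hx.2 y hy.1 y' hy'.1 ⟨1 / (1 - c), -c / (1 - c), by positivity,
      div_pos (by linarith) h1, ?_, ?_⟩
    · field_simp
      ring
    · have h2 : (1 - c) ≠ 0 := h1.ne'
      have h3 : (1 - c) • ((1 / (1 - c)) • y + (-c / (1 - c)) • y') = (1 - c) • x := by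
        rw [smul_add, smul_smul, smul_smul, mul_div_cancel₀ _ h2, mul_div_cancel₀ _ h2, hyc]
        module
      exact smul_right_injective _ h2 h3
  · rcases lt_or_gt_of_ne hc1 with h1 | h1
    · -- `y` is between `x` and `y'`
      apply hyx
      refine (hy.2 x hx.1 y' hy'.1 ⟨1 - c, c, by linarith, h0, by ring, ?_⟩).symm
      rw [hyc]
      module
    · -- `y'` is between `x` and `y`
      apply hyx'
      have h2 : c ≠ 0 := hc0
      refine (hy'.2 x hx.1 y hy.1 ⟨1 - c⁻¹, c⁻¹, ?_, by positivity, by ring, ?_⟩).symm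
      · have h3 : c⁻¹ < 1 := inv_lt_one_of_one_lt₀ h1
        linarith
      · have h3 : c • ((1 - c⁻¹) • x + c⁻¹ • y) = c • y' := by
          rw [smul_add, smul_smul, smul_smul, mul_inv_cancel₀ h2, mul_sub, mul_inv_cancel₀ h2,
            mul_one, one_smul, hyc]
          module
        exact smul_right_injective _ h2 h3

end Pool.Agent.H77.IC
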