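import Mathlib
import Pool.Agent.H77.IC.Defs

/-!
# Three functionals on a plane (module Det, about 70 lines, linear algebra)

* `no_three`: elementary sign argument. From `sum_i c_i a_i (d_j) = 0` for `j = 0, 1, 2`, where
  `a_j (d_j) = 0` and the six other numbers `a_i (d_j)` are negative, any two of the `c_i` have
  opposite signs or both vanish; with three of them all vanish.
* `dep_two`: three linear functionals on a 2-dimensional subspace are dependent.
* `dep_three`: three linear functionals on a 3-dimensional subspace `D` which vanish at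
  `u ∈ D`, `u ≠ 0`, are dependent on `D` (they factor through `D / u`; or: the map
  `c ↦ sum c_i a_i | D` from `R^3` to the dual of `D` has image in the 2-dimensional space of
  functionals vanishing at `u`).
-/

set_option autoImplicit false

open Set Module

namespace Pool.Agent.H77.IC

theorem pair_sign {p q x y : ℝ} (hx : x < 0) (hy : y < 0) (h : p * x + q * y = 0) :
    (0 < p → q < 0) ∧ (p < 0 → 0 < q) ∧ (p = 0 → q = 0) := by
  refine ⟨fun hp => ?_, fun hp => ?_, fun hp => ?_⟩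
  · by_contra hq
    push Not at hq
    have h1 : p * x < 0 := mul_neg_of_pos_of_neg hp hx
    have h2 : q * y ≤ 0 := mul_nonpos_of_nonneg_of_nonpos hq hy.le
    linarith
  · by_contra hq
    push Not at hq
    have h1 : 0 < p * x := mul_pos_of_neg_of_neg hp hx
    have h2 : 0 ≤ q * y := mul_nonneg_of_nonpos_of_nonpos hq hy.le
    linarith
  · rw [hp, zero_mul, zero_add] at h
    exact (mul_eq_zero.mp h).resolve_right hy.ne

theorem no_three (a : Fin 3 → (E4 →ₗ[ℝ] ℝ)) (d : Fin 3 → E4) (c : Fin 3 → ℝ) (hc : c ≠ 0)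
    (hdep : ∀ j, ∑ i, c i * a i (d j) = 0) (hdiag : ∀ i, a i (d i) = 0)
    (hneg : ∀ i j, i ≠ j → a i (d j) < 0) : False := by
  have h0 := hdep 0
  have h1 := hdep 1
  have h2 := hdep 2
  rw [Fin.sum_univ_three] at h0 h1 h2
  rw [hdiag 0, mul_zero, zero_add] at h0
  rw [hdiag 1, mul_zero, add_zero] at h1
  rw [hdiag 2, mul_zero, add_zero] at h2
  have p0 := pair_sign (hneg 1 0 (by decide)) (hneg 2 0 (by decide)) h0
  have p1 := pair_sign (hneg 0 1 (by decide)) (hneg 2 1 (by decide)) h1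
  have p2 := pair_sign (hneg 0 2 (by decide)) (hneg 1 2 (by decide)) h2
  rcases lt_trichotomy (c 0) 0 with h | h | h
  · have e1 := p1.2.1 h
    have e2 := p2.2.1 h
    have e3 := p0.1 e2
    linarith
  · have e1 := p1.2.2 h
    have e2 := p2.2.2 h
    apply hc
    funext i
    fin_cases i
    · exact h
    · exact e2
    · exact e1
  · have e1 := p1.1 h
    have e2 := p2.1 h
    have e3 := p0.2.1 e2
    linarith

theorem dep_two (D : Submodule ℝ E4) (hD : finrank ℝ D = 2) (a : Fin 3 → (E4 →ₗ[ℝ] ℝ)) :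
    ∃ c : Fin 3 → ℝ, c ≠ 0 ∧ ∀ d ∈ D, ∑ i, c i * a i d = 0 := by
  let φ : (Fin 3 → ℝ) →ₗ[ℝ] (Module.Dual ℝ D) :=
    Fintype.linearCombination ℝ (fun i => (a i).domRestrict D)
  have h1 : finrank ℝ (Module.Dual ℝ D) < finrank ℝ (Fin 3 → ℝ) := by
    rw [Subspace.dual_finrank_eq, hD, finrank_fin_fun]
    norm_num
  obtain ⟨c, hc, hc0⟩ := Submodule.exists_mem_ne_zero_of_ne_bot
    (LinearMap.ker_ne_bot_of_finrank_lt (f := φ) h1)
  refine ⟨c, hc0, fun d hd => ?_⟩
  have h2 : φ c ⟨d, hd⟩ = 0 := by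
    rw [LinearMap.mem_ker.mp hc]
    rfl
  rw [Fintype.linearCombination_apply] at h2
  simpa using h2

theorem dep_three (D : Submodule ℝ E4) (hD : finrank ℝ D = 3) (u : E4) (hu : u ∈ D)
    (hu0 : u ≠ 0) (a : Fin 3 → (E4 →ₗ[ℝ] ℝ)) (ha : ∀ i, a i u = 0) :
    ∃ c : Fin 3 → ℝ, c ≠ 0 ∧ ∀ d ∈ D, ∑ i, c i * a i d = 0 := by
  have hle : Submodule.span ℝ {u} ≤ D := by
    rw [Submodule.span_le, Set.singleton_subset_iff]
    exact hu
  let u' : D := ⟨u, hu⟩
  have hu' : u' ≠ 0 := fun h => hu0 (congrArg Subtype.val h)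
  obtain ⟨D', hD'⟩ := Submodule.exists_isCompl (Submodule.span ℝ {u'})
  have hf : finrank ℝ D' = 2 := by
    have h1 := Submodule.finrank_add_eq_of_isCompl hD'
    rw [finrank_span_singleton hu', hD] at h1
    omega
  have hf2 : finrank ℝ (D'.map D.subtype) = 2 := by
    rw [← hf]
    exact (Submodule.equivMapOfInjective D.subtype D.injective_subtype D').finrank_eq.symm
  obtain ⟨c, hc0, hc⟩ := dep_two (D'.map D.subtype) hf2 a
  refine ⟨c, hc0, fun d hd => ?_⟩
  have h1 : (⟨d, hd⟩ : D) ∈ Submodule.span ℝ {u'} ⊔ D' := by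
    rw [hD'.sup_eq_top]
    exact Submodule.mem_top
  obtain ⟨y, hy, z, hz, hyz⟩ := Submodule.mem_sup.mp h1
  obtain ⟨t, rfl⟩ := Submodule.mem_span_singleton.mp hy
  have h2 : d = t • u + (z : E4) := (congrArg Subtype.val hyz).symm
  have h3 := hc (z : E4) ⟨z, hz, rfl⟩
  have h4 : ∀ i, a i d = a i (z : E4) := by
    intro i
    rw [h2, map_add, map_smul, ha i, smul_zero, zero_add]
  simp only [h4]
  exact h3

end Pool.Agent.H77.IC
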