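import Mathlib
import Pool.Agent.H77.IC.Defs
import Pool.Agent.H77.IC.CoreA
import Pool.Agent.H77.IC.Det
import Pool.Agent.H77.IC.Facet

/-!
# At most two facets through an edge are crossed (module TwoSweep, about 110 lines)

Let `x ≠ y` and let `g` be a linear functional with `g (y - x) = 0`. At most two facets contain
`x` and `y` and have points on both sides of the hyperplane `g (· - x) = 0`.

Proof. As in `TwoShadow`: each such facet `F_j` (three distinct ones) has a core point `c_j` and,
moving from `c_j` to the point `p` or `q` on the other side of the hyperplane, `core_combo` gives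
a core point `z_j` with `g (z_j - x) = 0` (if `g (c_j - x) = 0` take `z_j = c_j`; if it is
positive take `t = g(c_j - x) / (g(c_j - x) - g(p - x)) < 1`; if negative use `q`). With
`a_j, M_j` from `facet_eq`: `a_j (z_j - x) = 0`, `a_j (z_k - x) < 0` for `j ≠ k`
(`eq_of_core`), `a_j (y - x) = 0`. `D = ker g` has rank 3 (`g ≠ 0` because of `p`). Apply
`dep_three` with `u = y - x`, then `no_three`.
-/

set_option autoImplicit false

open Set Module

namespace Pool.Agent.H77.IC

private theorem core_on {F : Set E4} (hF : Convex ℝ F) {c x p q : E4} (hc : Core F c)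
    (g : E4 →ₗ[ℝ] ℝ) (hp : p ∈ F) (hgp : g (p - x) < 0) (hq : q ∈ F) (hgq : 0 < g (q - x)) :
    ∃ z, Core F z ∧ g (z - x) = 0 := by
  have key : ∀ w ∈ F, g (c - x) * g (w - x) < 0 → ∃ z, Core F z ∧ g (z - x) = 0 := by
    intro w hw hlt
    have hne : g (c - x) - g (w - x) ≠ 0 := by
      intro h0
      have h1 : g (c - x) = g (w - x) := by linarith
      rw [h1] at hlt
      nlinarith [mul_self_nonneg (g (w - x))]
    set t : ℝ := g (c - x) / (g (c - x) - g (w - x)) with ht
    have ht0 : 0 ≤ t := by
      rcases lt_trichotomy (g (c - x)) 0 with h | h | h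
      · have hw0 : 0 < g (w - x) := by
          by_contra hcon
          push Not at hcon
          nlinarith [mul_nonneg_of_nonpos_of_nonpos h.le hcon]
        rw [ht]
        apply div_nonneg_of_nonpos h.le
        linarith
      · rw [h] at hlt
        simp at hlt
      · have hw0 : g (w - x) < 0 := by
          by_contra hcon
          push Not at hcon
          nlinarith [mul_nonneg h.le hcon]
        rw [ht]
        apply div_nonneg h.le
        linarith
    have ht1 : t < 1 := by
      rcases lt_trichotomy (g (c - x)) 0 with h | h | h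
      · have hw0 : 0 < g (w - x) := by
          by_contra hcon
          push Not at hcon
          nlinarith [mul_nonneg_of_nonpos_of_nonpos h.le hcon]
        rw [ht, div_lt_one_of_neg (by linarith)]
        linarith
      · rw [h] at hlt
        simp at hlt
      · have hw0 : g (w - x) < 0 := by
          by_contra hcon
          push Not at hcon
          nlinarith [mul_nonneg h.le hcon]
        rw [ht, div_lt_one (by linarith)]
        linarith
    refine ⟨(1 - t) • c + t • w, core_combo hF hc hw ht0 ht1, ?_⟩
    have e : (1 - t) • c + t • w - x = (1 - t) • (c - x) + t • (w - x) := by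
      module
    rw [e, map_add, map_smul, map_smul, smul_eq_mul, smul_eq_mul, ht]
    field_simp
    ring
  rcases lt_trichotomy (g (c - x)) 0 with h | h | h
  · exact key q hq (mul_neg_of_neg_of_pos h hgq)
  · exact ⟨c, hc, h⟩
  · exact key p hp (mul_neg_of_pos_of_neg h hgp)

theorem two_sweep (S : Finset E4) {x y : E4} (hxy : x ≠ y) (g : E4 →ₗ[ℝ] ℝ)
    (hg : g (y - x) = 0) :
    {F : Set E4 | IsFacet (convexHull ℝ (S : Set E4)) F ∧ x ∈ F ∧ y ∈ F ∧
      (∃ p ∈ F, g (p - x) < 0) ∧ (∃ q ∈ F, 0 < g (q - x))}.ncard ≤ 2 := by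
  by_contra hcon
  push Not at hcon
  have hfin : {F : Set E4 | IsFacet (convexHull ℝ (S : Set E4)) F ∧ x ∈ F ∧ y ∈ F ∧
      (∃ p ∈ F, g (p - x) < 0) ∧ (∃ q ∈ F, 0 < g (q - x))}.Finite :=
    (facet_finite S).subset (fun F hF => hF.1)
  obtain ⟨F₀, F₁, F₂, h0, h1, h2, h01, h02, h12⟩ := (Set.two_lt_ncard_iff hfin).1 hcon
  let F : Fin 3 → Set E4 := ![F₀, F₁, F₂]
  have hF : ∀ i, F i ∈ {F : Set E4 | IsFacet (convexHull ℝ (S : Set E4)) F ∧ x ∈ F ∧ y ∈ F ∧
      (∃ p ∈ F, g (p - x) < 0) ∧ (∃ q ∈ F, 0 < g (q - x))} := by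
    intro i
    fin_cases i
    · exact h0
    · exact h1
    · exact h2
  have hinj : ∀ i j, i ≠ j → F i ≠ F j := by
    intro i j hij
    fin_cases i <;> fin_cases j
    · exact absurd rfl hij
    · exact h01
    · exact h02
    · exact h01.symm
    · exact absurd rfl hij
    · exact h12
    · exact h02.symm
    · exact h12.symm
    · exact absurd rfl hij
  have hcore : ∀ i, ∃ z, Core (F i) z ∧ g (z - x) = 0 := by
    intro i
    obtain ⟨hfac, hx, hy, ⟨p, hp, hgp⟩, ⟨q, hq, hgq⟩⟩ := hF i
    obtain ⟨c, hc⟩ := facet_core S hfac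
    exact core_on (hfac.1.convex (convex_convexHull ℝ _)) hc g hp hgp hq hgq
  choose z hz hgz using hcore
  choose hne a M haM hFa using fun i => facet_eq (hF i).1
  have hsub : ∀ i, F i ⊆ convexHull ℝ (S : Set E4) := fun i => (hF i).1.1.subset
  have hzF : ∀ i, z i ∈ F i := fun i => (hz i).1
  have haz : ∀ i, a i (z i) = M i := by
    intro i
    have h := hzF i
    rw [hFa i] at h
    exact h.2
  have hax : ∀ i, a i x = M i := by
    intro i
    have h := (hF i).2.1
    rw [hFa i] at h
    exact h.2
  have hay : ∀ i, a i y = M i := by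
    intro i
    have h := (hF i).2.2.1
    rw [hFa i] at h
    exact h.2
  have hneg : ∀ i j, i ≠ j → a i (z j) < M i := by
    intro i j hij
    refine lt_of_le_of_ne (haM i _ (hsub j (hzF j))) ?_
    intro he
    have hmem : z j ∈ F i := by
      rw [hFa i]
      exact ⟨hsub j (hzF j), he⟩
    exact hinj j i (Ne.symm hij) (eq_of_core (hF i).1 (hF j).1 (hz j) hmem)
  -- the hyperplane
  have hgne : g ≠ 0 := by
    rintro rfl
    obtain ⟨p, hp, hgp⟩ := (hF 0).2.2.2.1
    simp at hgp
  have hrank : finrank ℝ (LinearMap.ker g) = 3 := by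
    have hsurj : Function.Surjective g := LinearMap.surjective hgne
    have h := LinearMap.finrank_range_add_finrank_ker g
    rw [LinearMap.range_eq_top.2 hsurj, finrank_top, finrank_self, finrank_euclideanSpace,
      Fintype.card_fin] at h
    omega
  obtain ⟨c, hc0, hdep⟩ := dep_three (LinearMap.ker g) hrank (y - x) (by simpa using hg)
    (sub_ne_zero.2 (Ne.symm hxy)) (fun i => (a i : E4 →ₗ[ℝ] ℝ)) (by
      intro i
      simp only [ContinuousLinearMap.coe_coe, map_sub, hay i, hax i, sub_self])
  refine no_three (fun i => (a i : E4 →ₗ[ℝ] ℝ)) (fun j => z j - x) c hc0 ?_ ?_ ?_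
  · intro j
    exact hdep (z j - x) (by simpa using hgz j)
  · intro i
    simp only [ContinuousLinearMap.coe_coe, map_sub, haz i, hax i, sub_self]
  · intro i j hij
    simp only [ContinuousLinearMap.coe_coe, map_sub, hax i]
    linarith [hneg i j hij]

end Pool.Agent.H77.IC
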