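import Mathlib
import Pool.Agent.H77.IC.Defs
import Pool.Agent.H77.IC.Facet
import Pool.Agent.H77.IC.TwoSweep
import Pool.Agent.H77.IC.Expose
import Pool.Agent.H77.IC.Sep

/-!
# Sweeping the vertex figure (module Sweep, about 200 lines, counting)

`P = convexHull S`, `x` a vertex of `P`, `𝓕` the set of facets containing `x` (finite),
`Y = ⋃_{F ∈ 𝓕} nb F x` (finite, `ext_finite`). Assume each `nb F x` has at least 2 elements and
`𝓕` is nonempty. Then `sum_{F ∈ 𝓕} #(nb F x) + 4 <= 2 #Y + 2 #𝓕`.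

Proof. `l` from `vertex_exposed`; `ℓ = -l` satisfies `ℓ (y - x) > 0` for `y ∈ Y`. `h` from
`exists_sep` (`not_proportional`, `ext_face`); `r y = h (y - x) / ℓ (y - x)` is injective on `Y`.
For `F ∈ 𝓕` let `mid F` be the set of `y ∈ nb F x` with `r y' < r y < r y''` for some
`y', y'' ∈ nb F x`. All elements except the one with least and the one with greatest `r` are in
`mid F`, so `#(nb F x) <= #(mid F) + 2`. For fixed `y ∈ Y` at most two `F` have `y ∈ mid F`: apply
`two_sweep` to `g = h - (r y) ℓ`: `g (y - x) = 0`, `g (y' - x) = ℓ (y' - x) (r y' - r y) < 0`,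
`g (y'' - x) > 0`. For `y` with least or greatest `r` on `Y` (two different elements because
`#Y >= 2`) there is no such `F`. Hence
`sum (#(nb F x) - 2) <= sum #(mid F) = sum_y #{F : y ∈ mid F} <= 2 (#Y - 2)`.
-/

set_option autoImplicit false

open Set Module

namespace Pool.Agent.H77.IC

theorem sweep (S : Finset E4) {x : E4} (hx : x ∈ (convexHull ℝ (S : Set E4)).extremePoints ℝ)
    (FF : Finset (Set E4))
    (hFF : ∀ F, F ∈ FF ↔ IsFacet (convexHull ℝ (S : Set E4)) F ∧ x ∈ F) (hne : FF.Nonempty)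
    (h2 : ∀ F ∈ FF, 2 ≤ (nb F x).ncard) (Y : Finset E4)
    (hY : ∀ y, y ∈ Y ↔ ∃ F ∈ FF, y ∈ nb F x) :
    (∑ F ∈ FF, (nb F x).ncard) + 4 ≤ 2 * Y.card + 2 * FF.card := by
  classical
  set P : Set E4 := convexHull ℝ (S : Set E4) with hPdef
  obtain ⟨l, hl⟩ := vertex_exposed S hx
  let ell : E4 →ₗ[ℝ] ℝ := -(l : E4 →ₗ[ℝ] ℝ)
  have hell : ∀ y ∈ P, y ≠ x → 0 < ell (y - x) := by
    intro y hy hyx
    have h1 := hl y hy hyx
    change 0 < -(l (y - x))
    rw [map_sub]
    linarith
  have hYe : ∀ y ∈ Y, y ≠ x ∧ y ∈ P.extremePoints ℝ := by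
    intro y hy
    obtain ⟨F, hF, hyF⟩ := (hY y).1 hy
    have hF1 := ((hFF F).1 hF).1
    refine ⟨hyF.1, ?_⟩
    have h1 := hyF.2.2.1
    rw [ext_face hF1.1] at h1
    exact h1.2
  have hYpos : ∀ y ∈ Y, 0 < ell (y - x) := fun y hy =>
    hell y (extremePoints_subset (hYe y hy).2) (hYe y hy).1
  obtain ⟨h, hh⟩ := exists_sep Y x ell hYpos (fun y hy y' hy' hne c =>
    not_proportional (convex_convexHull ℝ _) hx (hYe y hy).2 (hYe y' hy').2 (hYe y hy).1
      (hYe y' hy').1 hne c)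
  let r : E4 → ℝ := fun y => h (y - x) / ell (y - x)
  have hr : ∀ y ∈ Y, ∀ y' ∈ Y, r y = r y' → y = y' := hh
  let N : Set E4 → Finset E4 := fun F => Y.filter (fun y => y ∈ nb F x)
  have hNmem : ∀ F y, y ∈ N F ↔ y ∈ Y ∧ y ∈ nb F x := fun F y => Finset.mem_filter
  have hN : ∀ F ∈ FF, (nb F x).ncard = (N F).card := by
    intro F hF
    rw [← Set.ncard_coe_finset]
    congr 1
    ext y
    rw [Finset.mem_coe, hNmem]
    exact ⟨fun h1 => ⟨(hY y).2 ⟨F, hF, h1⟩, h1⟩, fun h1 => h1.2⟩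
  let mid : Set E4 → Finset E4 := fun F =>
    (N F).filter (fun y => (∃ y' ∈ N F, r y' < r y) ∧ ∃ y'' ∈ N F, r y < r y'')
  have hmid : ∀ F y, y ∈ mid F ↔ y ∈ N F ∧ (∃ y' ∈ N F, r y' < r y) ∧ ∃ y'' ∈ N F, r y < r y'' :=
    fun F y => Finset.mem_filter
  have hNY : ∀ F y, y ∈ N F → y ∈ Y := fun F y hy => ((hNmem F y).1 hy).1
  have h3 : ∀ F ∈ FF, (N F).card ≤ (mid F).card + 2 := by
    intro F hF
    have hc : 2 ≤ (N F).card := by
      rw [← hN F hF]
      exact h2 F hF
    have hne' : (N F).Nonempty := Finset.card_pos.1 (by omega)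
    obtain ⟨a, ha, ha'⟩ := Finset.exists_min_image (N F) r hne'
    obtain ⟨b, hb, hb'⟩ := Finset.exists_max_image (N F) r hne'
    have hsub : N F ⊆ mid F ∪ {a, b} := by
      intro y hy
      rw [Finset.mem_union, Finset.mem_insert, Finset.mem_singleton]
      by_cases hya : y = a
      · exact Or.inr (Or.inl hya)
      by_cases hyb : y = b
      · exact Or.inr (Or.inr hyb)
      left
      refine (hmid F y).2 ⟨hy, ⟨a, ha, ?_⟩, b, hb, ?_⟩
      · refine lt_of_le_of_ne (ha' y hy) fun h4 => hya ?_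
        exact (hr a (hNY F a ha) y (hNY F y hy) h4).symm
      · refine lt_of_le_of_ne (hb' y hy) fun h4 => hyb ?_
        exact hr y (hNY F y hy) b (hNY F b hb) h4
    have h4 := Finset.card_le_card hsub
    have h5 := Finset.card_union_le (mid F) {a, b}
    have h6 := Finset.card_le_two (a := a) (b := b)
    omega
  -- double counting
  let c : E4 → ℕ := fun y => (FF.filter (fun F => y ∈ mid F)).card
  have h4 : ∑ F ∈ FF, (mid F).card = ∑ y ∈ Y, c y := by
    have h5 : ∀ F ∈ FF, (mid F).card = ∑ y ∈ Y, if y ∈ mid F then 1 else 0 := by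
      intro F _
      rw [← Finset.card_filter]
      have h7 : mid F = Y.filter (fun y => y ∈ mid F) := by
        apply Finset.Subset.antisymm
        · intro y h6
          exact Finset.mem_filter.2 ⟨hNY F y ((hmid F y).1 h6).1, h6⟩
        · intro y h6
          exact (Finset.mem_filter.1 h6).2
      exact congrArg Finset.card h7
    have h6 : ∀ y ∈ Y, c y = ∑ F ∈ FF, if y ∈ mid F then 1 else 0 := by
      intro y _
      exact Finset.card_filter _ _
    rw [Finset.sum_congr rfl h5, Finset.sum_congr rfl h6, Finset.sum_comm]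
  have hc2 : ∀ y ∈ Y, c y ≤ 2 := by
    intro y hy
    let g : E4 →ₗ[ℝ] ℝ := h - r y • ell
    have hg : ∀ z, g (z - x) = h (z - x) - r y * ell (z - x) := fun z => rfl
    have hrz : ∀ z ∈ Y, h (z - x) = r z * ell (z - x) := by
      intro z hz
      have h5 := (hYpos z hz).ne'
      change h (z - x) = h (z - x) / ell (z - x) * ell (z - x)
      rw [div_mul_cancel₀ _ h5]
    have h5 := two_sweep S (hYe y hy).1.symm g (by
      rw [hg, hrz y hy, sub_self])
    refine le_trans ?_ h5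
    change (FF.filter (fun F => y ∈ mid F)).card ≤ _
    rw [← Set.ncard_coe_finset]
    refine Set.ncard_le_ncard ?_ ((facet_finite S).subset (fun F hF => hF.1))
    intro F hF
    rw [Finset.mem_coe, Finset.mem_filter] at hF
    obtain ⟨hF1, hF2⟩ := hF
    obtain ⟨hyN, ⟨y', hy', hlt'⟩, y'', hy'', hlt''⟩ := (hmid F y).1 hF2
    have hnbF : ∀ z, z ∈ N F → z ∈ F := fun z hz =>
      extremePoints_subset ((hNmem F z).1 hz).2.2.2.1
    refine ⟨((hFF F).1 hF1).1, ((hFF F).1 hF1).2, hnbF y hyN, ⟨y', hnbF y' hy', ?_⟩,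
      y'', hnbF y'' hy'', ?_⟩
    · rw [hg, hrz y' (hNY F y' hy')]
      have h6 := hYpos y' (hNY F y' hy')
      nlinarith
    · rw [hg, hrz y'' (hNY F y'' hy'')]
      have h6 := hYpos y'' (hNY F y'' hy'')
      nlinarith
  obtain ⟨F₀, hF₀⟩ := hne
  have hcY : 2 ≤ Y.card := by
    have h5 := h2 F₀ hF₀
    rw [hN F₀ hF₀] at h5
    exact h5.trans (Finset.card_le_card (Finset.filter_subset _ _))
  have hYne : Y.Nonempty := Finset.card_pos.1 (by omega)
  obtain ⟨a, ha, ha'⟩ := Finset.exists_min_image Y r hYne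
  obtain ⟨b, hb, hb'⟩ := Finset.exists_max_image Y r hYne
  have hab : a ≠ b := by
    rintro rfl
    have h5 : ∀ y ∈ Y, y = a := fun y hy =>
      hr y hy a ha (le_antisymm (hb' y hy) (ha' y hy))
    have h6 : Y ⊆ {a} := fun y hy => Finset.mem_singleton.2 (h5 y hy)
    have h7 := Finset.card_le_card h6
    rw [Finset.card_singleton] at h7
    omega
  have hca : c a = 0 := by
    rw [Finset.card_eq_zero, Finset.filter_eq_empty_iff]
    intro F _ hF
    obtain ⟨-, ⟨y', hy', hlt'⟩, -⟩ := (hmid F a).1 hF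
    exact absurd (ha' y' (hNY F y' hy')) (not_le.2 hlt')
  have hcb : c b = 0 := by
    rw [Finset.card_eq_zero, Finset.filter_eq_empty_iff]
    intro F _ hF
    obtain ⟨-, -, y'', hy'', hlt''⟩ := (hmid F b).1 hF
    exact absurd (hb' y'' (hNY F y'' hy'')) (not_le.2 hlt'')
  have h5 : ∑ y ∈ Y, c y ≤ 2 * (Y.card - 2) := by
    rw [← Finset.sum_erase Y hca, ← Finset.sum_erase (Y.erase a) hcb]
    have h6 : ∑ y ∈ (Y.erase a).erase b, c y ≤ ((Y.erase a).erase b).card • 2 := by
      apply Finset.sum_le_card_nsmul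
      intro y hy
      exact hc2 y (Finset.mem_of_mem_erase (Finset.mem_of_mem_erase hy))
    have h7 : ((Y.erase a).erase b).card = Y.card - 2 := by
      rw [Finset.card_erase_of_mem (Finset.mem_erase.2 ⟨hab.symm, hb⟩), Finset.card_erase_of_mem ha]
      omega
    rw [h7, smul_eq_mul] at h6
    omega
  have h6 : ∑ F ∈ FF, (nb F x).ncard ≤ ∑ F ∈ FF, ((mid F).card + 2) := by
    apply Finset.sum_le_sum
    intro F hF
    rw [hN F hF]
    exact h3 F hF
  rw [Finset.sum_add_distrib, h4, Finset.sum_const, smul_eq_mul] at h6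
  omega

end Pool.Agent.H77.IC
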