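import Mathlib
import Pool.Agent.H77.IC.Defs
import Pool.Agent.H77.IC.Facet
import Pool.Agent.H77.IC.Expose
import Pool.Agent.H27.Content.Faces

/-!
# Tilting a supporting hyperplane (module Tilt, about 170 lines)

`P = convexHull S` with nonempty interior.

* `tilt`: Let `b, β` and `a, α` be linear functionals and numbers, `G ⊆ P` with
  `b <= β` on `P`, `G = {x ∈ P | b x = β}`, `a = α` on `G`, and `a s < α` for some `s ∈ S`. Put
  `λ = min { (β - b s)/(α - a s) : s ∈ S, a s < α } > 0` (positive since such an `s` is not in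
  `G`) and `p = b - λ a`, `ρ = β - λ α`. Then `p <= ρ` on `S`, hence on `P`, with equality on `G`
  and at some `s0 ∈ S` with `a s0 < α`.
* `bigger`: an exposed face `G`, nonempty, with `finrank (direction) < 3` is contained in a
  strictly bigger exposed face `G' ≠ P`, `G' ≠ G`. (The functionals vanishing on the direction
  of `G` form a space of dimension at least 2, so there is such an `a` which is not a multiple of
  the exposing functional `b` of `G`, `b ≠ 0`; `α` = its value on `G`. Since `P` has nonempty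
  interior and `a ≠ 0`, `a` is not constant on `S`, so replacing `a` by `-a` we have
  `a s < α` for some `s ∈ S`. Apply `tilt`; `p ≠ 0`, so `{p = ρ}` is not all of `P`.)
* `vertex_in_facet`: by induction (on `3 - finrank`, or take a proper exposed face containing
  `x` of maximal direction rank, `finite_faces`) each vertex (exposed by `vertex_exposed`) lies in a facet. A proper
  exposed face has rank at most 3 (it lies in a hyperplane).
* `ridge`: `F` a facet, `G` exposed in `F` with direction rank 2 (so exposed in `P` by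
  `face_trans`). `tilt` with `b` the functional of `G` in `P` and `a` the functional of `F`
  gives the face `F' = {p = ρ}`; it contains `G` and a point `s0` not in `F`, so not in the affine
  span of `G`; its rank is at least 3 and it is proper, so it is a facet, `F' ≠ F`.
-/

set_option autoImplicit false

open Set Module

namespace Pool.Agent.H77.IC

open Pool.Agent.H27.Content

theorem tilt (S : Finset E4) {G : Set E4} (b a : E4 →L[ℝ] ℝ) (β α : ℝ)
    (hb : ∀ y ∈ convexHull ℝ (S : Set E4), b y ≤ β)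
    (hG : G = {x ∈ convexHull ℝ (S : Set E4) | b x = β}) (haG : ∀ y ∈ G, a y = α)
    (hs : ∃ s ∈ S, a s < α) :
    ∃ (p : E4 →L[ℝ] ℝ) (ρ l : ℝ), 0 < l ∧ p = b - l • a ∧ ρ = β - l * α ∧
      (∀ y ∈ convexHull ℝ (S : Set E4), p y ≤ ρ) ∧ (∀ y ∈ G, p y = ρ) ∧
      ∃ s0 ∈ S, a s0 < α ∧ p s0 = ρ := by
  classical
  have hSP : ∀ s ∈ S, s ∈ convexHull ℝ (S : Set E4) := fun s hs => subset_convexHull ℝ _ hs
  set T := S.filter (fun s => a s < α) with hT
  have hTne : T.Nonempty := by
    obtain ⟨s, hs, h⟩ := hs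
    exact ⟨s, Finset.mem_filter.2 ⟨hs, h⟩⟩
  obtain ⟨s0, hs0, hmin⟩ := T.exists_min_image (fun s => (β - b s) / (α - a s)) hTne
  have hs0' := Finset.mem_filter.1 hs0
  have hpos0 : 0 < α - a s0 := by linarith [hs0'.2]
  have hb0 : 0 < β - b s0 := by
    rcases (hb s0 (hSP s0 hs0'.1)).lt_or_eq with h | h
    · linarith
    · have : s0 ∈ G := by rw [hG]; exact ⟨hSP s0 hs0'.1, h⟩
      have := haG s0 this
      linarith [hs0'.2]
  set l : ℝ := (β - b s0) / (α - a s0) with hl
  have hlpos : 0 < l := div_pos hb0 hpos0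
  have hle : ∀ s ∈ S, (b - l • a) s ≤ β - l * α := by
    intro s hs
    have h1 := hb s (hSP s hs)
    simp only [sub_apply, smul_apply, smul_eq_mul]
    by_cases h : a s < α
    · have h2 := hmin s (Finset.mem_filter.2 ⟨hs, h⟩)
      have h3 : 0 < α - a s := by linarith
      have h4 : l * (α - a s) ≤ β - b s := (le_div_iff₀ h3).1 h2
      linarith
    · push Not at h
      nlinarith
  refine ⟨b - l • a, β - l * α, l, hlpos, rfl, rfl, ?_, ?_, s0, hs0'.1, hs0'.2, ?_⟩
  · intro y hy
    exact convexHull_min (s := (S : Set E4)) (t := {x | (b - l • a) x ≤ β - l * α})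
      (fun s hs => hle s hs)
      (convex_halfSpace_le (b - l • a).toLinearMap.isLinear _) hy
  · intro y hy
    have h1 := haG y hy
    rw [hG] at hy
    simp only [sub_apply, smul_apply, smul_eq_mul]
    rw [h1, hy.2]
  · simp only [sub_apply, smul_apply, smul_eq_mul]
    have : l * (α - a s0) = β - b s0 := div_mul_cancel₀ _ hpos0.ne'
    linarith

private theorem dir_le_ker {G : Set E4} {a : E4 →L[ℝ] ℝ} {α : ℝ}
    (h : ∀ y ∈ G, a y = α) : (affineSpan ℝ G).direction ≤ LinearMap.ker a.toLinearMap := by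
  rw [direction_affineSpan, vectorSpan_def, Submodule.span_le]
  rintro v ⟨x, hx, y, hy, rfl⟩
  simp [h x hx, h y hy]

private theorem functional_const {P : Set E4} (hP : (interior P).Nonempty) {a : E4 →L[ℝ] ℝ}
    {α : ℝ} (h : ∀ y ∈ P, a y = α) : a = 0 := by
  obtain ⟨x, hx⟩ := hP
  ext v
  have hc : Continuous (fun r : ℝ => x + r • v) := by fun_prop
  have hmem : {r : ℝ | x + r • v ∈ interior P} ∈ nhds (0 : ℝ) := by
    apply (isOpen_interior.preimage hc).mem_nhds
    simpa using hx
  obtain ⟨ε, hε, hball⟩ := Metric.mem_nhds_iff.1 hmem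
  have h1 : ε / 2 ∈ Metric.ball (0 : ℝ) ε := by
    simp [abs_of_pos hε]; linarith
  have h2 := h _ (interior_subset (hball h1))
  have h3 := h _ (interior_subset hx)
  rw [map_add, map_smul, smul_eq_mul, h3] at h2
  have h4 : ε / 2 * a v = 0 := by linarith
  rcases mul_eq_zero.1 h4 with h | h
  · linarith
  · simpa using h

private theorem finrank_ker {a : E4 →L[ℝ] ℝ} (ha : a ≠ 0) :
    finrank ℝ (LinearMap.ker a.toLinearMap) = 3 := by
  have h3 := LinearMap.finrank_range_add_finrank_ker a.toLinearMap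
  have h4 : LinearMap.range a.toLinearMap = ⊤ := by
    apply LinearMap.range_eq_top.2
    apply LinearMap.surjective_of_ne_zero
    intro h0
    apply ha
    ext v
    exact LinearMap.congr_fun h0 v
  rw [h4, finrank_top, finrank_self] at h3
  have h5 : finrank ℝ E4 = 4 := by simp
  omega

/-- a proper exposed face has rank at most three -/
private theorem rank_le {a : E4 →L[ℝ] ℝ} {α : ℝ} {G : Set E4} (h : ∀ y ∈ G, a y = α)
    (ha : a ≠ 0) : finrank ℝ (affineSpan ℝ G).direction ≤ 3 := by
  have h1 := dir_le_ker h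
  rw [← finrank_ker ha]
  exact Submodule.finrank_mono h1

private theorem rank_P {P : Set E4} (hP : (interior P).Nonempty) :
    finrank ℝ (affineSpan ℝ P).direction = 4 := by
  have h : affineSpan ℝ P = ⊤ := by
    have h1 := isOpen_interior.affineSpan_eq_top hP
    exact top_le_iff.1 (h1 ▸ affineSpan_mono ℝ interior_subset)
  rw [h, AffineSubspace.direction_top, finrank_top]
  simp

theorem bigger (S : Finset E4) (hS : (interior (convexHull ℝ (S : Set E4))).Nonempty)
    {G : Set E4} (hG : IsExposed ℝ (convexHull ℝ (S : Set E4)) G) (hne : G.Nonempty)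
    (hr : finrank ℝ (affineSpan ℝ G).direction < 3) :
    ∃ G' : Set E4, IsExposed ℝ (convexHull ℝ (S : Set E4)) G' ∧ G ⊆ G' ∧ G' ≠ G ∧
      G' ≠ convexHull ℝ (S : Set E4) := by
  obtain ⟨b, β, hb, hGe⟩ := exposed_eq hG hne
  have hbG : ∀ y ∈ G, b y = β := fun y hy => by rw [hGe] at hy; exact hy.2
  have hb0 : b ≠ 0 := by
    intro h0
    have hβ : β = 0 := by
      obtain ⟨g, hg⟩ := hne
      have := hbG g hg
      rw [h0] at this
      simpa using this.symm
    have hGP : G = convexHull ℝ (S : Set E4) := by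
      rw [hGe, h0, hβ]; simp
    rw [hGP, rank_P hS] at hr
    omega
  -- a vector in the kernel of `b` outside the direction of `G`
  obtain ⟨v, hv, hvG⟩ : ∃ v, b v = 0 ∧ v ∉ (affineSpan ℝ G).direction := by
    by_contra hcon
    push Not at hcon
    have h1 : LinearMap.ker b.toLinearMap ≤ (affineSpan ℝ G).direction := by
      intro v hv
      exact hcon v (by simpa using hv)
    have h2 := Submodule.finrank_mono h1
    rw [finrank_ker hb0] at h2
    omega
  obtain ⟨f, hf1, hf2⟩ := Submodule.exists_le_ker_of_notMem hvG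
  -- the version with a prescribed sign
  have key : ∀ (a : E4 →L[ℝ] ℝ) (α : ℝ), a v ≠ 0 → (∀ y ∈ G, a y = α) → (∃ s ∈ S, a s < α) →
      ∃ G' : Set E4, IsExposed ℝ (convexHull ℝ (S : Set E4)) G' ∧ G ⊆ G' ∧ G' ≠ G ∧
        G' ≠ convexHull ℝ (S : Set E4) := by
    intro a α hav haG hs
    obtain ⟨p, ρ, l, hl, hp, -, hpP, hpG, s0, hs0, has0, hps0⟩ := tilt S b a β α hb hGe haG hs
    refine ⟨{x ∈ convexHull ℝ (S : Set E4) | p x = ρ}, exposed_of_max p ρ hpP,
      fun y hy => ⟨hG.subset hy, hpG y hy⟩, ?_, ?_⟩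
    · intro heq
      have h1 : s0 ∈ G := by rw [← heq]; exact ⟨subset_convexHull ℝ _ hs0, hps0⟩
      have := haG s0 h1
      linarith
    · intro heq
      have h1 : ∀ y ∈ convexHull ℝ (S : Set E4), p y = ρ := fun y hy => by
        rw [← heq] at hy; exact hy.2
      have h2 := functional_const hS h1
      have h3 : p v = 0 := by rw [h2]; simp
      rw [hp, sub_apply, smul_apply, hv, smul_eq_mul, zero_sub, neg_eq_zero] at h3
      rcases mul_eq_zero.1 h3 with h | h
      · linarith
      · exact hav h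
  obtain ⟨g, hg⟩ := hne
  set a : E4 →L[ℝ] ℝ := LinearMap.toContinuousLinearMap f with ha
  have hav : a v ≠ 0 := hf1
  have haG : ∀ y ∈ G, a y = a g := by
    intro y hy
    have h1 : y -ᵥ g ∈ (affineSpan ℝ G).direction :=
      AffineSubspace.vsub_mem_direction (subset_affineSpan ℝ G hy) (subset_affineSpan ℝ G hg)
    have h2 : f (y - g) = 0 := hf2 h1
    rw [map_sub, sub_eq_zero] at h2
    exact h2
  by_cases h1 : ∃ s ∈ S, a s < a g
  · exact key a (a g) hav haG h1
  by_cases h2 : ∃ s ∈ S, a g < a s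
  · refine key (-a) (-a g) (by simpa using hav) (fun y hy => by simp [haG y hy]) ?_
    obtain ⟨s, hs, h⟩ := h2
    exact ⟨s, hs, by simpa using h⟩
  exfalso
  push Not at h1 h2
  have h3 : ∀ y ∈ convexHull ℝ (S : Set E4), a y = a g := by
    intro y hy
    have hc : Convex ℝ {x | a x = a g} := (convex_singleton (a g)).is_linear_preimage
      a.toLinearMap.isLinear
    exact convexHull_min (s := (S : Set E4)) (t := {x | a x = a g})
      (fun s hs => le_antisymm (h2 s hs) (h1 s hs)) hc hy
  have h4 := functional_const hS h3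
  apply hav
  rw [h4]
  simp

theorem vertex_in_facet (S : Finset E4) (hS : (interior (convexHull ℝ (S : Set E4))).Nonempty)
    {x : E4} (hx : x ∈ (convexHull ℝ (S : Set E4)).extremePoints ℝ) :
    ∃ F, IsFacet (convexHull ℝ (S : Set E4)) F ∧ x ∈ F := by
  set P := convexHull ℝ (S : Set E4) with hP
  have hxP : x ∈ P := extremePoints_subset hx
  obtain ⟨l, hl⟩ := vertex_exposed S hx
  have hxe : IsExposed ℝ P {x} := by
    intro _
    refine ⟨l, ?_⟩
    ext y
    constructor
    · rintro rfl
      refine ⟨hxP, fun z hz => ?_⟩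
      by_cases h : z = y
      · rw [h]
      · exact (hl z hz h).le
    · rintro ⟨hy, hy'⟩
      by_contra h
      have h1 := hl y hy h
      have h2 := hy' x hxP
      linarith
  have hxP' : ({x} : Set E4) ≠ P := by
    intro h
    have h1 := rank_P hS
    rw [← h, direction_affineSpan, vectorSpan_singleton, finrank_bot] at h1
    omega
  have hfin : {G : Set E4 | IsExposed ℝ P G ∧ x ∈ G ∧ G ≠ P}.Finite :=
    (finite_faces S).subset fun G hG => hG.1
  obtain ⟨G, ⟨hG, hxG, hGP⟩, hmax⟩ := hfin.exists_maximalFor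
    (fun G => finrank ℝ (affineSpan ℝ G).direction) _ ⟨{x}, hxe, rfl, hxP'⟩
  refine ⟨G, ⟨hG, ?_⟩, hxG⟩
  obtain ⟨a, α, ha, hGe⟩ := exposed_eq hG ⟨x, hxG⟩
  have haG : ∀ y ∈ G, a y = α := fun y hy => by rw [hGe] at hy; exact hy.2
  have ha0 : a ≠ 0 := by
    intro h0
    apply hGP
    have h1 := haG x hxG
    rw [h0] at h1
    rw [hGe, h0, ← h1]
    simp
  have h3 := rank_le haG ha0
  rcases h3.lt_or_eq with h | h
  · obtain ⟨G', hG', hs, hne, hP'⟩ := bigger S hS hG ⟨x, hxG⟩ h
    have h4 := dir_lt hG hG' ⟨x, hxG⟩ hs (Ne.symm hne)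
    have h5 := hmax (j := G') ⟨hG', hs hxG, hP'⟩ h4.le
    exact absurd h5 (not_le.2 h4)
  · exact h

theorem ridge (S : Finset E4) (hS : (interior (convexHull ℝ (S : Set E4))).Nonempty)
    {F G : Set E4} (hF : IsFacet (convexHull ℝ (S : Set E4)) F) (hG : IsExposed ℝ F G)
    (hne : G.Nonempty) (hr : finrank ℝ (affineSpan ℝ G).direction = 2) :
    ∃ F' : Set E4, IsFacet (convexHull ℝ (S : Set E4)) F' ∧ F' ≠ F ∧ G ⊆ F' := by
  obtain ⟨hFne, a, α, ha, hFe⟩ := facet_eq hF
  have hGP := face_trans S hF.1 hG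
  obtain ⟨b, β, hb, hGe⟩ := exposed_eq hGP hne
  have haG : ∀ y ∈ G, a y = α := fun y hy => by
    have := hG.subset hy
    rw [hFe] at this
    exact this.2
  have hs : ∃ s ∈ S, a s < α := by
    by_contra hcon
    push Not at hcon
    have h3 : ∀ y ∈ convexHull ℝ (S : Set E4), a y = α := by
      intro y hy
      have hc : Convex ℝ {x | a x = α} := (convex_singleton α).is_linear_preimage
        a.toLinearMap.isLinear
      exact convexHull_min (s := (S : Set E4)) (t := {x | a x = α})
        (fun s hs => le_antisymm (ha s (subset_convexHull ℝ _ hs)) (hcon s hs)) hc hy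
    have h4 : F = convexHull ℝ (S : Set E4) := by
      rw [hFe]
      ext y
      exact ⟨fun h => h.1, fun h => ⟨h, h3 y h⟩⟩
    have h5 := hF.2
    rw [h4, rank_P hS] at h5
    omega
  obtain ⟨p, ρ, l, hl, hp, hρ, hpP, hpG, s0, hs0, has0, hps0⟩ := tilt S b a β α hb hGe haG hs
  have hF' : IsExposed ℝ (convexHull ℝ (S : Set E4)) {x ∈ convexHull ℝ (S : Set E4) | p x = ρ} :=
    exposed_of_max p ρ hpP
  have hs0F : s0 ∉ F := by
    rw [hFe]
    rintro ⟨-, h⟩
    linarith
  have hs0F' : s0 ∈ {x ∈ convexHull ℝ (S : Set E4) | p x = ρ} :=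
    ⟨subset_convexHull ℝ _ hs0, hps0⟩
  have hGF' : G ⊆ {x ∈ convexHull ℝ (S : Set E4) | p x = ρ} :=
    fun y hy => ⟨hGP.subset hy, hpG y hy⟩
  have hp0 : p ≠ 0 := by
    intro h0
    have hρ0 : ρ = 0 := by
      obtain ⟨g, hg⟩ := hne
      have := hpG g hg
      rw [h0] at this
      simpa using this.symm
    have hFG : F ⊆ G := by
      intro y hy
      rw [hFe] at hy
      rw [hGe]
      refine ⟨hy.1, ?_⟩
      have h1 : p y = 0 := by rw [h0]; simp
      rw [hp, sub_apply, smul_apply, smul_eq_mul, hy.2] at h1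
      linarith
    have h2 := Submodule.finrank_mono (dir_mono hFG)
    have h3 := hF.2
    change finrank ℝ (affineSpan ℝ F).direction ≤ finrank ℝ (affineSpan ℝ G).direction at h2
    omega
  refine ⟨{x ∈ convexHull ℝ (S : Set E4) | p x = ρ}, ⟨hF', ?_⟩, ?_, hGF'⟩
  · have h1 := rank_le (G := {x ∈ convexHull ℝ (S : Set E4) | p x = ρ}) (fun y hy => hy.2) hp0
    have h2 := dir_lt hGP hF' hne hGF' (by
      intro heq
      apply hs0F
      apply hG.subset
      rw [heq]
      exact hs0F')
    change finrank ℝ (affineSpan ℝ G).direction <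
      finrank ℝ (affineSpan ℝ {x ∈ convexHull ℝ (S : Set E4) | p x = ρ}).direction at h2
    omega
  · intro heq
    apply hs0F
    rw [← heq]
    exact hs0F'

end Pool.Agent.H77.IC
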