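import Mathlib
import Pool.Agent.H77.IC.Defs

/-!
# The icosahedron (module IcoVert, about 220 lines, finite check)

The twelve points `(0, ±1, ±φ)` and cyclic permutations; inner products: `φ+2` (same), `φ`
(adjacent), `-φ` (distance two), `-φ-2` (antipodal), where `φ^2 = φ+1`. Each point has exactly
five adjacent ones and two adjacent points have exactly two common adjacent points. It may be
convenient to index the points by `Fin 12` and to `decide` statements about integer matrices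
(entries `a + b φ` as pairs of integers), or to argue with `fin_cases` and `norm_num`.

* a functional `m · z` with `m = v` (resp. `v + w`, `v + w + z` for adjacent points) attains its
  maximum over the twelve points exactly at `v` (resp. `v, w`; `v, w, z`): inner products of
  different points are at most `φ`. So these are vertex sets of exposed faces of the hull; in
  particular the extreme points of `Ico` are exactly the twelve points (`IsExposed` faces are
  extreme; `extremePoints_convexHull_subset`).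
* `ico_edge_adj`: if an exposed face `H` has exactly the two vertices `v ≠ w` then `v, w` are
  adjacent. Let `H` be the maximum set of the functional `l`, maximum `M`. If `w = -v` then
  `M = 0` and `l = 0` on all vertices by symmetry, so `H` would contain all vertices. If
  `v · w = -φ` there are two adjacent points `p, q`, both adjacent to `v` and `w`, with
  `v + w = (p + q)/φ` (equivalently `p + q = φ (v + w)`), so `2 φ M = l p + l q <= 2 M`,
  `M <= 0`, and `M >= 0` by symmetry, again `M = 0`, `l = 0`.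
* `ico_edge_tri`: for adjacent `v, w` with common neighbours `z1 ≠ z2` the triangles are faces,
  and a face containing all four contains all vertices, since `z1 + z2 = (v + w)/φ` gives
  `2 M = 2 M / φ`, `M = 0`, `l = 0`.
-/

set_option autoImplicit false

open Set Module

namespace Pool.Agent.H77.IC

/-! ### Auxiliary: integer coordinates -/

private def zt : Fin 12 → Fin 3 → ℤ × ℤ :=
  ![![(0, 0), (1, 0), (0, 1)], ![(1, 0), (0, 1), (0, 0)], ![(0, 1), (0, 0), (1, 0)],
    ![(0, 0), (1, 0), (0, -1)], ![(1, 0), (0, -1), (0, 0)], ![(0, -1), (0, 0), (1, 0)],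
    ![(0, 0), (-1, 0), (0, 1)], ![(-1, 0), (0, 1), (0, 0)], ![(0, 1), (0, 0), (-1, 0)],
    ![(0, 0), (-1, 0), (0, -1)], ![(-1, 0), (0, -1), (0, 0)], ![(0, -1), (0, 0), (-1, 0)]]

private def zm (z w : ℤ × ℤ) : ℤ × ℤ :=
  (z.1 * w.1 + z.2 * w.2, z.1 * w.2 + z.2 * w.1 + z.2 * w.2)

private def dp (i j : Fin 12) : ℤ × ℤ :=
  zm (zt i 0) (zt j 0) + zm (zt i 1) (zt j 1) + zm (zt i 2) (zt j 2)

private def zpos (z : ℤ × ℤ) : Bool := decide (0 < 5 * z.1 + 8 * z.2) && decide (0 < 10 * z.1 + 17 * z.2)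

private noncomputable def ev (z : ℤ × ℤ) : ℝ := z.1 + z.2 * Real.goldenRatio

private noncomputable def pt (i : Fin 12) : Fin 3 → ℝ := fun k => ev (zt i k)

private theorem phi_lo : (8 : ℝ) / 5 < Real.goldenRatio := by
  have h1 := Real.goldenRatio_sq
  have h2 := Real.goldenRatio_pos
  nlinarith

private theorem phi_hi : Real.goldenRatio < (17 : ℝ) / 10 := by
  have h1 := Real.goldenRatio_sq
  have h2 := Real.goldenRatio_pos
  nlinarith

private theorem ev_add (z w : ℤ × ℤ) : ev (z + w) = ev z + ev w := by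
  unfold ev; push_cast [Prod.fst_add, Prod.snd_add]; ring

private theorem ev_sub (z w : ℤ × ℤ) : ev (z - w) = ev z - ev w := by
  unfold ev; push_cast [Prod.fst_sub, Prod.snd_sub]; ring

private theorem ev_zm (z w : ℤ × ℤ) : ev (zm z w) = ev z * ev w := by
  have h1 := Real.goldenRatio_sq
  unfold ev zm
  push_cast
  linear_combination (-(z.2 : ℝ) * w.2) * h1

private theorem ev_pos {z : ℤ × ℤ} (h : zpos z = true) : 0 < ev z := by
  unfold zpos at h
  simp only [Bool.and_eq_true, decide_eq_true_eq] at h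
  have h1 : (0 : ℝ) < 5 * z.1 + 8 * z.2 := by exact_mod_cast h.1
  have h2 : (0 : ℝ) < 10 * z.1 + 17 * z.2 := by exact_mod_cast h.2
  have h3 := phi_lo
  have h4 := phi_hi
  unfold ev
  rcases le_total 0 (z.2 : ℝ) with h5 | h5
  · nlinarith
  · nlinarith

private theorem pt_dot (i j : Fin 12) : pt i ⬝ᵥ pt j = ev (dp i j) := by
  unfold dp
  rw [ev_add, ev_add, ev_zm, ev_zm, ev_zm]
  simp only [dotProduct, Fin.sum_univ_three, pt]

private noncomputable def fn (m : Fin 3 → ℝ) : StrongDual ℝ (Fin 3 → ℝ) :=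
  ∑ k, m k • (ContinuousLinearMap.proj k : (Fin 3 → ℝ) →L[ℝ] ℝ)

private theorem fn_apply (m x : Fin 3 → ℝ) : fn m x = m ⬝ᵥ x := by
  unfold fn
  simp [dotProduct, Fin.sum_univ_three]

private theorem ico_eq : Ico = convexHull ℝ (Set.range pt) := by
  unfold Ico
  congr 1
  ext v
  simp only [Set.mem_ofPred_eq, Set.mem_range]
  constructor
  · rintro ⟨s, t, hs, ht, h⟩
    rcases hs with rfl | rfl <;> rcases ht with rfl | rfl <;> rcases h with rfl | rfl | rfl
    · exact ⟨0, by ext k; fin_cases k <;> simp [pt, ev, zt]⟩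
    · exact ⟨1, by ext k; fin_cases k <;> simp [pt, ev, zt]⟩
    · exact ⟨2, by ext k; fin_cases k <;> simp [pt, ev, zt]⟩
    · exact ⟨3, by ext k; fin_cases k <;> simp [pt, ev, zt]⟩
    · exact ⟨4, by ext k; fin_cases k <;> simp [pt, ev, zt]⟩
    · exact ⟨5, by ext k; fin_cases k <;> simp [pt, ev, zt]⟩
    · exact ⟨6, by ext k; fin_cases k <;> simp [pt, ev, zt]⟩
    · exact ⟨7, by ext k; fin_cases k <;> simp [pt, ev, zt]⟩
    · exact ⟨8, by ext k; fin_cases k <;> simp [pt, ev, zt]⟩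
    · exact ⟨9, by ext k; fin_cases k <;> simp [pt, ev, zt]⟩
    · exact ⟨10, by ext k; fin_cases k <;> simp [pt, ev, zt]⟩
    · exact ⟨11, by ext k; fin_cases k <;> simp [pt, ev, zt]⟩
  · rintro ⟨i, rfl⟩
    fin_cases i
    · exact ⟨1, 1, Or.inl rfl, Or.inl rfl, Or.inl (by ext k; fin_cases k <;> simp [pt, ev, zt])⟩
    · exact ⟨1, 1, Or.inl rfl, Or.inl rfl, Or.inr (Or.inl (by ext k; fin_cases k <;> simp [pt, ev, zt]))⟩
    · exact ⟨1, 1, Or.inl rfl, Or.inl rfl, Or.inr (Or.inr (by ext k; fin_cases k <;> simp [pt, ev, zt]))⟩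
    · exact ⟨1, -1, Or.inl rfl, Or.inr rfl, Or.inl (by ext k; fin_cases k <;> simp [pt, ev, zt])⟩
    · exact ⟨1, -1, Or.inl rfl, Or.inr rfl, Or.inr (Or.inl (by ext k; fin_cases k <;> simp [pt, ev, zt]))⟩
    · exact ⟨1, -1, Or.inl rfl, Or.inr rfl, Or.inr (Or.inr (by ext k; fin_cases k <;> simp [pt, ev, zt]))⟩
    · exact ⟨-1, 1, Or.inr rfl, Or.inl rfl, Or.inl (by ext k; fin_cases k <;> simp [pt, ev, zt])⟩
    · exact ⟨-1, 1, Or.inr rfl, Or.inl rfl, Or.inr (Or.inl (by ext k; fin_cases k <;> simp [pt, ev, zt]))⟩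
    · exact ⟨-1, 1, Or.inr rfl, Or.inl rfl, Or.inr (Or.inr (by ext k; fin_cases k <;> simp [pt, ev, zt]))⟩
    · exact ⟨-1, -1, Or.inr rfl, Or.inr rfl, Or.inl (by ext k; fin_cases k <;> simp [pt, ev, zt])⟩
    · exact ⟨-1, -1, Or.inr rfl, Or.inr rfl, Or.inr (Or.inl (by ext k; fin_cases k <;> simp [pt, ev, zt]))⟩
    · exact ⟨-1, -1, Or.inr rfl, Or.inr rfl, Or.inr (Or.inr (by ext k; fin_cases k <;> simp [pt, ev, zt]))⟩

private theorem pt_mem (i : Fin 12) : pt i ∈ Ico := by
  rw [ico_eq]; exact subset_convexHull ℝ _ ⟨i, rfl⟩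

/-- A bound at the twelve points is a bound on the hull. -/
private theorem ico_le (m : Fin 3 → ℝ) (c : ℝ) (h : ∀ k, m ⬝ᵥ pt k ≤ c) {x : Fin 3 → ℝ}
    (hx : x ∈ Ico) : m ⬝ᵥ x ≤ c := by
  rw [ico_eq] at hx
  have hc : Convex ℝ {y : Fin 3 → ℝ | fn m y ≤ c} :=
    convex_halfSpace_le (LinearMap.isLinear (fn m).toLinearMap) c
  have := convexHull_min (s := Set.range pt) (t := {y : Fin 3 → ℝ | fn m y ≤ c}) (by
    rintro _ ⟨k, rfl⟩
    show fn m (pt k) ≤ c
    rw [fn_apply]; exact h k) hc hx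
  have h2 : fn m x ≤ c := this
  rwa [fn_apply] at h2

private theorem dp_self (i : Fin 12) : dp i i = (2, 1) := by
  revert i; decide

private theorem dp_ne {i j : Fin 12} (h : i ≠ j) : zpos ((2, 1) - dp i j) = true := by
  revert i j; decide

private theorem ev_dp_le (i j : Fin 12) : ev (dp i j) ≤ ev (2, 1) := by
  rcases eq_or_ne i j with rfl | h
  · rw [dp_self]
  · have := ev_pos (dp_ne h)
    rw [ev_sub] at this
    linarith

private theorem pt_inj : Function.Injective pt := by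
  intro i j h
  by_contra hne
  have h1 := ev_pos (dp_ne hne)
  rw [ev_sub, ← pt_dot, ← h, pt_dot, dp_self] at h1
  linarith

private theorem pt_extreme (i : Fin 12) : pt i ∈ Ico.extremePoints ℝ := by
  have key : ∀ x ∈ Ico, pt i ⬝ᵥ x = ev (2, 1) → x = pt i := by
    intro x hx h
    have h1 : x ⬝ᵥ x ≤ ev (2, 1) := by
      apply ico_le x _ _ hx
      intro k
      rw [dotProduct_comm]
      apply ico_le (pt k) _ _ hx
      intro j
      rw [pt_dot]
      exact ev_dp_le k j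
    have h2 : pt i ⬝ᵥ pt i = ev (2, 1) := by rw [pt_dot, dp_self]
    have h3 : (x 0 - pt i 0) ^ 2 + (x 1 - pt i 1) ^ 2 + (x 2 - pt i 2) ^ 2 ≤ 0 := by
      simp only [dotProduct, Fin.sum_univ_three] at h h1 h2
      nlinarith
    have h4 : (x 0 - pt i 0) = 0 := by
      nlinarith [sq_nonneg (x 0 - pt i 0), sq_nonneg (x 1 - pt i 1), sq_nonneg (x 2 - pt i 2)]
    have h5 : (x 1 - pt i 1) = 0 := by
      nlinarith [sq_nonneg (x 0 - pt i 0), sq_nonneg (x 1 - pt i 1), sq_nonneg (x 2 - pt i 2)]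
    have h6 : (x 2 - pt i 2) = 0 := by
      nlinarith [sq_nonneg (x 0 - pt i 0), sq_nonneg (x 1 - pt i 1), sq_nonneg (x 2 - pt i 2)]
    ext k
    fin_cases k
    · exact sub_eq_zero.mp h4
    · exact sub_eq_zero.mp h5
    · exact sub_eq_zero.mp h6
  have hle : ∀ x ∈ Ico, pt i ⬝ᵥ x ≤ ev (2, 1) := by
    intro x hx
    apply ico_le (pt i) _ _ hx
    intro j
    rw [pt_dot]
    exact ev_dp_le i j
  rw [mem_extremePoints]
  refine ⟨pt_mem i, ?_⟩
  rintro x hx y hy ⟨a, b, ha, hb, hab, hxy⟩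
  have h0 : pt i ⬝ᵥ pt i = ev (2, 1) := by rw [pt_dot, dp_self]
  have h1 : a * (pt i ⬝ᵥ x) + b * (pt i ⬝ᵥ y) = ev (2, 1) := by
    rw [← h0]
    nth_rewrite 4 [← hxy]
    rw [dotProduct_add, dotProduct_smul, dotProduct_smul, smul_eq_mul, smul_eq_mul]
  have h2 := hle x hx
  have h3 := hle y hy
  constructor
  · apply key x hx
    have hb' : b = 1 - a := by linarith
    subst hb'
    nlinarith
  · apply key y hy
    have ha' : a = 1 - b := by linarith
    subst ha'
    nlinarith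

private theorem ext_eq : Ico.extremePoints ℝ = Set.range pt := by
  apply Set.Subset.antisymm
  · rw [ico_eq]
    exact extremePoints_convexHull_subset
  · rintro _ ⟨i, rfl⟩
    exact pt_extreme i

/-- An exposed face from a functional. -/
private theorem face_of (m : Fin 3 → ℝ) (c : ℝ) (T : Set (Fin 12)) (hT : T.Nonempty)
    (h1 : ∀ k ∈ T, m ⬝ᵥ pt k = c) (h2 : ∀ k, k ∉ T → m ⬝ᵥ pt k < c) :
    ∃ H : Set (Fin 3 → ℝ), IsExposed ℝ Ico H ∧ H ∩ Ico.extremePoints ℝ = pt '' T := by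
  classical
  have hle : ∀ k, m ⬝ᵥ pt k ≤ c := by
    intro k
    by_cases hk : k ∈ T
    · exact (h1 k hk).le
    · exact (h2 k hk).le
  have hmax : ∀ x ∈ Ico, m ⬝ᵥ x ≤ c := fun x hx => ico_le m c hle hx
  refine ⟨{x | x ∈ Ico ∧ ∀ y ∈ Ico, fn m y ≤ fn m x}, fun _ => ⟨fn m, rfl⟩, ?_⟩
  obtain ⟨k0, hk0⟩ := hT
  rw [ext_eq]
  ext x
  constructor
  · rintro ⟨⟨hx, hy⟩, ⟨k, rfl⟩⟩
    refine ⟨k, ?_, rfl⟩
    by_contra hk
    have h3 := hy (pt k0) (pt_mem k0)
    rw [fn_apply, fn_apply, h1 k0 hk0] at h3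
    exact absurd (h2 k hk) (not_lt.mpr h3)
  · rintro ⟨k, hk, rfl⟩
    refine ⟨⟨pt_mem k, fun y hy => ?_⟩, ⟨k, rfl⟩⟩
    rw [fn_apply, fn_apply, h1 k hk]
    exact hmax y hy

/-- What an exposed face says at the twelve points. -/
private theorem of_face {H : Set (Fin 3 → ℝ)} (hH : IsExposed ℝ Ico H) {i : Fin 12}
    (hi : pt i ∈ H) : ∃ l : StrongDual ℝ (Fin 3 → ℝ), (∀ k, l (pt k) ≤ l (pt i)) ∧
      ∀ k, pt k ∈ H ↔ l (pt k) = l (pt i) := by
  obtain ⟨l, hl⟩ := hH ⟨_, hi⟩
  refine ⟨l, ?_, ?_⟩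
  · intro k
    rw [hl] at hi
    exact hi.2 _ (pt_mem k)
  · intro k
    rw [hl] at hi ⊢
    constructor
    · rintro ⟨-, h⟩
      exact le_antisymm (hi.2 _ (pt_mem k)) (h _ (pt_mem i))
    · intro h
      refine ⟨pt_mem k, fun y hy => ?_⟩
      rw [h]
      exact hi.2 y hy

private theorem exists_anti : ∀ i : Fin 12, ∃ j : Fin 12, ∀ k : Fin 3, zt i k + zt j k = 0 := by
  decide

private theorem pt_anti (i : Fin 12) : ∃ j, pt j = - pt i := by
  obtain ⟨j, hj⟩ := exists_anti i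
  refine ⟨j, ?_⟩
  ext k
  have h := hj k
  have h2 : ev (zt i k + zt j k) = 0 := by rw [h]; simp [ev]
  rw [ev_add] at h2
  show ev (zt j k) = - ev (zt i k)
  linarith

/-- If the maximum of `l` is zero then `l` vanishes at all points. -/
private theorem zero_all (l : StrongDual ℝ (Fin 3 → ℝ)) (h : ∀ k, l (pt k) ≤ 0) (k : Fin 12) :
    l (pt k) = 0 := by
  obtain ⟨j, hj⟩ := pt_anti k
  have h1 := h j
  rw [hj, map_neg] at h1
  have h2 := h k
  linarith

private theorem nonneg_max (l : StrongDual ℝ (Fin 3 → ℝ)) (i : Fin 12)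
    (h : ∀ k, l (pt k) ≤ l (pt i)) : 0 ≤ l (pt i) := by
  obtain ⟨j, hj⟩ := pt_anti i
  have h1 := h j
  rw [hj, map_neg] at h1
  linarith

private theorem far_pair : ∀ i j : Fin 12, i ≠ j → dp i j ≠ (0, 1) →
    (∀ k : Fin 3, zt i k + zt j k = 0) ∨
    ∃ p q : Fin 12, ∀ k : Fin 3, zt p k + zt q k = zm (0, 1) (zt i k + zt j k) := by
  decide +kernel

private theorem near_pair : ∀ i j : Fin 12, dp i j = (0, 1) →
    ∃ p q : Fin 12, p ≠ q ∧ p ≠ i ∧ p ≠ j ∧ q ≠ i ∧ q ≠ j ∧ dp i p = (0, 1) ∧ dp j p = (0, 1) ∧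
      dp i q = (0, 1) ∧ dp j q = (0, 1) ∧
      ∀ k : Fin 3, zm (0, 1) (zt p k + zt q k) = zt i k + zt j k := by
  decide +kernel

private theorem five_nb : ∀ i : Fin 12, (Finset.univ.filter (fun j => dp i j = (0, 1))).card = 5 := by
  decide +kernel

private theorem edge_check : ∀ i j : Fin 12, dp i j = (0, 1) →
    ∀ k : Fin 12, k ≠ i → k ≠ j → zpos ((2, 2) - (dp i k + dp j k)) = true := by
  decide +kernel

private theorem tri_check : ∀ i j : Fin 12, dp i j = (0, 1) → ∀ p : Fin 12, dp i p = (0, 1) →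
    dp j p = (0, 1) → ∀ k : Fin 12, k ≠ i → k ≠ j → k ≠ p →
    zpos ((2, 3) - (dp i k + dp j k + dp p k)) = true := by
  decide +kernel

private theorem dp_symm : ∀ i j : Fin 12, dp i j = dp j i := by
  decide

private theorem edge_face {i j : Fin 12} (h : dp i j = (0, 1)) :
    ∃ H : Set (Fin 3 → ℝ), IsExposed ℝ Ico H ∧ H ∩ Ico.extremePoints ℝ = {pt i, pt j} := by
  have := face_of (pt i + pt j) (ev (2, 2)) {i, j} ⟨i, by simp⟩ (by
    intro k hk
    rw [add_dotProduct, pt_dot, pt_dot, ← ev_add]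
    congr 1
    rcases hk with rfl | hk
    · rw [dp_self, dp_symm j k, h]; rfl
    · have hk : k = j := hk
      subst hk
      rw [dp_self, h]; rfl) (by
    intro k hk
    rw [add_dotProduct, pt_dot, pt_dot, ← ev_add]
    have h1 : k ≠ i := fun e => hk (by simp [e])
    have h2 : k ≠ j := fun e => hk (by simp [e])
    have h3 := ev_pos (edge_check i j h k h1 h2)
    rw [ev_sub] at h3
    linarith)
  rwa [Set.image_pair] at this

private theorem tri_face {i j p : Fin 12} (h : dp i j = (0, 1)) (hp : dp i p = (0, 1))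
    (hq : dp j p = (0, 1)) :
    ∃ H : Set (Fin 3 → ℝ), IsExposed ℝ Ico H ∧
      H ∩ Ico.extremePoints ℝ = {pt i, pt j, pt p} := by
  have := face_of (pt i + pt j + pt p) (ev (2, 3)) {i, j, p} ⟨i, by simp⟩ (by
    intro k hk
    rw [add_dotProduct, add_dotProduct, pt_dot, pt_dot, pt_dot, ← ev_add, ← ev_add]
    congr 1
    rcases hk with rfl | hk | hk
    · rw [dp_self, dp_symm j k, h, dp_symm p k, hp]; rfl
    · subst hk
      rw [dp_self, h, dp_symm p k, hq]; rfl
    · have hk : k = p := hk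
      subst hk
      rw [dp_self, hp, hq]; rfl) (by
    intro k hk
    rw [add_dotProduct, add_dotProduct, pt_dot, pt_dot, pt_dot, ← ev_add, ← ev_add]
    have h1 : k ≠ i := fun e => hk (by simp [e])
    have h2 : k ≠ j := fun e => hk (by simp [e])
    have h3 : k ≠ p := fun e => hk (by simp [e])
    have h4 := ev_pos (tri_check i j h p hp hq k h1 h2 h3)
    rw [ev_sub] at h4
    linarith)
  rwa [Set.image_insert_eq, Set.image_pair] at this

/-- A face with exactly two vertices: they are adjacent. -/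
private theorem adj_of_face {i j : Fin 12} (hij : i ≠ j) {H : Set (Fin 3 → ℝ)}
    (hH : IsExposed ℝ Ico H) (hHij : H ∩ Ico.extremePoints ℝ = {pt i, pt j}) :
    dp i j = (0, 1) := by
  by_contra hne
  have hi : pt i ∈ H := by
    have : pt i ∈ H ∩ Ico.extremePoints ℝ := by rw [hHij]; simp
    exact this.1
  have hj : pt j ∈ H := by
    have : pt j ∈ H ∩ Ico.extremePoints ℝ := by rw [hHij]; simp
    exact this.1
  obtain ⟨l, hl1, hl2⟩ := of_face hH hi
  have hlj : l (pt j) = l (pt i) := (hl2 j).mp hj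
  have h0 := nonneg_max l i hl1
  have hM : l (pt i) = 0 := by
    rcases far_pair i j hij hne with h | ⟨p, q, h⟩
    · have h1 : pt i + pt j = 0 := by
        ext k
        show ev (zt i k) + ev (zt j k) = 0
        rw [← ev_add, h k]
        simp [ev]
      have h2 : l (pt i) + l (pt j) = 0 := by rw [← map_add, h1, map_zero]
      linarith
    · have h1 : pt p + pt q = Real.goldenRatio • (pt i + pt j) := by
        ext k
        show ev (zt p k) + ev (zt q k) = Real.goldenRatio * (ev (zt i k) + ev (zt j k))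
        rw [← ev_add, h k, ev_zm, ev_add]
        simp [ev]
      have h2 : l (pt p) + l (pt q) = Real.goldenRatio * (l (pt i) + l (pt j)) := by
        rw [← map_add, h1, map_smul, map_add, smul_eq_mul]
      have h3 := hl1 p
      have h4 := hl1 q
      have h5 := phi_lo
      nlinarith
  have hall : ∀ k, pt k ∈ H := by
    intro k
    rw [hl2 k, hM]
    exact zero_all l (fun k => by rw [← hM]; exact hl1 k) k
  have h12 : ∀ k, k = i ∨ k = j := by
    intro k
    have : pt k ∈ H ∩ Ico.extremePoints ℝ := ⟨hall k, pt_extreme k⟩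
    rw [hHij] at this
    rcases this with h | h
    · exact Or.inl (pt_inj h)
    · exact Or.inr (pt_inj h)
  have : (Finset.univ : Finset (Fin 12)) ⊆ {i, j} := by
    intro k _
    rcases h12 k with h | h <;> simp [h]
  have h13 := Finset.card_le_card this
  have h14 := Finset.card_le_two (a := i) (b := j)
  simp at h13
  omega

theorem ico_card : (Ico.extremePoints ℝ).ncard = 12 := by
  rw [ext_eq, ← Set.image_univ, Set.ncard_image_of_injective _ pt_inj, Set.ncard_univ]
  simp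

theorem ico_vertex {v : Fin 3 → ℝ} (hv : v ∈ Ico.extremePoints ℝ) :
    ∃ H : Set (Fin 3 → ℝ), IsExposed ℝ Ico H ∧ H ∩ Ico.extremePoints ℝ = {v} := by
  rw [ext_eq] at hv
  obtain ⟨i, rfl⟩ := hv
  have := face_of (pt i) (ev (2, 1)) {i} ⟨i, rfl⟩ (by
    intro k hk
    have hk : k = i := hk
    rw [hk, pt_dot, dp_self]) (by
    intro k hk
    have hk : k ≠ i := hk
    rw [pt_dot]
    have h1 := ev_pos (dp_ne hk.symm)
    rw [ev_sub] at h1
    linarith)
  rwa [Set.image_singleton] at this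

theorem ico_five {v : Fin 3 → ℝ} (hv : v ∈ Ico.extremePoints ℝ) :
    ∃ W : Finset (Fin 3 → ℝ), W.card = 5 ∧ ∀ w ∈ W, w ≠ v ∧ w ∈ Ico.extremePoints ℝ ∧
      ∃ H : Set (Fin 3 → ℝ), IsExposed ℝ Ico H ∧ H ∩ Ico.extremePoints ℝ = {v, w} := by
  classical
  rw [ext_eq] at hv
  obtain ⟨i, rfl⟩ := hv
  refine ⟨(Finset.univ.filter (fun j => dp i j = (0, 1))).image pt, ?_, ?_⟩
  · rw [Finset.card_image_of_injective _ pt_inj]
    exact five_nb i
  · intro w hw
    rw [Finset.mem_image] at hw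
    obtain ⟨j, hj, rfl⟩ := hw
    rw [Finset.mem_filter] at hj
    refine ⟨?_, pt_extreme j, edge_face hj.2⟩
    intro h
    have h1 := pt_inj h
    have h2 := hj.2
    rw [h1, dp_self] at h2
    simp at h2

theorem ico_edge_tri {v w : Fin 3 → ℝ} (hv : v ∈ Ico.extremePoints ℝ)
    (hw : w ∈ Ico.extremePoints ℝ) (hvw : v ≠ w) {H : Set (Fin 3 → ℝ)} (hH : IsExposed ℝ Ico H)
    (hHvw : H ∩ Ico.extremePoints ℝ = {v, w}) :
    ∃ z1 ∈ Ico.extremePoints ℝ, ∃ z2 ∈ Ico.extremePoints ℝ,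
      z1 ≠ z2 ∧ z1 ≠ v ∧ z1 ≠ w ∧ z2 ≠ v ∧ z2 ≠ w ∧
      (∃ H1 : Set (Fin 3 → ℝ), IsExposed ℝ Ico H1 ∧ H1 ∩ Ico.extremePoints ℝ = {v, w, z1}) ∧
      (∃ H2 : Set (Fin 3 → ℝ), IsExposed ℝ Ico H2 ∧ H2 ∩ Ico.extremePoints ℝ = {v, w, z2}) ∧
      ∀ H' : Set (Fin 3 → ℝ), IsExposed ℝ Ico H' → v ∈ H' → w ∈ H' → z1 ∈ H' → z2 ∈ H' →
        Ico.extremePoints ℝ ⊆ H' := by
  rw [ext_eq] at hv hw
  obtain ⟨i, rfl⟩ := hv
  obtain ⟨j, rfl⟩ := hw
  have hij : i ≠ j := fun e => hvw (by rw [e])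
  have hadj := adj_of_face hij hH hHvw
  obtain ⟨p, q, hpq, hpi, hpj, hqi, hqj, h1, h2, h3, h4, h5⟩ := near_pair i j hadj
  refine ⟨pt p, pt_extreme p, pt q, pt_extreme q, pt_inj.ne hpq, pt_inj.ne hpi, pt_inj.ne hpj,
    pt_inj.ne hqi, pt_inj.ne hqj, tri_face hadj h1 h2, tri_face hadj h3 h4, ?_⟩
  intro H' hH' hi hj hp hq
  obtain ⟨l, hl1, hl2⟩ := of_face hH' hi
  have hlj : l (pt j) = l (pt i) := (hl2 j).mp hj
  have hlp : l (pt p) = l (pt i) := (hl2 p).mp hp
  have hlq : l (pt q) = l (pt i) := (hl2 q).mp hq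
  have h6 : Real.goldenRatio • (pt p + pt q) = pt i + pt j := by
    ext k
    show Real.goldenRatio * (ev (zt p k) + ev (zt q k)) = ev (zt i k) + ev (zt j k)
    rw [← ev_add, ← ev_add, ← h5 k, ev_zm]
    simp [ev]
  have h7 : Real.goldenRatio * (l (pt p) + l (pt q)) = l (pt i) + l (pt j) := by
    rw [← map_add l (pt i), ← h6, map_smul, map_add, smul_eq_mul]
  rw [hlj, hlp, hlq] at h7
  have h8 := phi_lo
  have h0 := nonneg_max l i hl1
  have hM : l (pt i) = 0 := by nlinarith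
  rw [ext_eq]
  rintro _ ⟨k, rfl⟩
  rw [hl2 k, hM]
  exact zero_all l (fun k => by rw [← hM]; exact hl1 k) k

end Pool.Agent.H77.IC
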