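import Mathlib
import Pool.Agent.H77.IC.Defs
import Pool.Agent.H77.IC.Facet
import Pool.Agent.H77.IC.IcoVert

/-!
# What a combinatorial icosahedron provides (module Transfer, about 130 lines)

Transport of the statements of `IcoVert` along the bijection `g` of `IsIco F`
(for a vertex `x` of `F` put `v = g x`; for `w` a vertex of `Ico` take the preimage `y`; the
statement `∃ H, H ∩ ext Ico = g '' {x, y}` gives `∃ G, G ∩ ext F = {x, y}`). For the last item of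
`ico_edge`: if `G'` is exposed in `F` and contains the four points then
`T = G' ∩ ext F` corresponds to `H' ∩ ext Ico = g '' T`, `H'` contains the four images, hence all
vertices, so `T` is everything.
-/

set_option autoImplicit false

open Set Module

namespace Pool.Agent.H77.IC

theorem IsIco.card {F : Set E4} (h : IsIco F) : (F.extremePoints ℝ).ncard = 12 := by
  obtain ⟨g, hg, -⟩ := h
  rw [← ico_card, ← hg.image_eq, hg.injOn.ncard_image]

theorem IsIco.five {F : Set E4} (h : IsIco F) {x : E4} (hx : x ∈ F.extremePoints ℝ) :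
    5 ≤ (nb F x).ncard := by
  have hfin : (F.extremePoints ℝ).Finite := Set.finite_of_ncard_ne_zero (by
    rw [h.card]; norm_num)
  have hnb : (nb F x).Finite := hfin.subset fun y hy => hy.2.2.1
  obtain ⟨g, hg, hT⟩ := h
  obtain ⟨W, hW5, hW⟩ := ico_five (hg.mapsTo hx)
  have hsub : (W : Set (Fin 3 → ℝ)) ⊆ g '' (nb F x) := by
    intro w hw
    obtain ⟨hwv, hwE, H, hH, hHe⟩ := hW w (by simpa using hw)
    obtain ⟨y, hy, rfl⟩ := hg.surjOn hwE
    refine ⟨y, ⟨?_, hx, hy, ?_⟩, rfl⟩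
    · rintro rfl
      exact hwv rfl
    · refine (hT {x, y} ?_).2 ⟨H, hH, ?_⟩
      · rintro z (rfl | rfl)
        · exact hx
        · exact hy
      · rw [hHe, Set.image_pair]
  calc 5 = (W : Set (Fin 3 → ℝ)).ncard := by rw [Set.ncard_coe_finset, hW5]
    _ ≤ (g '' (nb F x)).ncard := Set.ncard_le_ncard hsub (hnb.image g)
    _ ≤ (nb F x).ncard := Set.ncard_image_le hnb

theorem IsIco.edge {F : Set E4} (h : IsIco F) {x y : E4} (hy : y ∈ nb F x) :
    ∃ z1 ∈ F.extremePoints ℝ, ∃ z2 ∈ F.extremePoints ℝ,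
      z1 ≠ z2 ∧ z1 ≠ x ∧ z1 ≠ y ∧ z2 ≠ x ∧ z2 ≠ y ∧
      (∃ G1 : Set E4, IsExposed ℝ F G1 ∧ G1 ∩ F.extremePoints ℝ = {x, y, z1}) ∧
      (∃ G2 : Set E4, IsExposed ℝ F G2 ∧ G2 ∩ F.extremePoints ℝ = {x, y, z2}) ∧
      ∀ G' : Set E4, IsExposed ℝ F G' → x ∈ G' → y ∈ G' → z1 ∈ G' → z2 ∈ G' →
        F.extremePoints ℝ ⊆ G' := by
  obtain ⟨hyx, hx, hyE, hG⟩ := hy
  obtain ⟨g, hg, hT⟩ := h
  obtain ⟨H, hH, hHe⟩ := (hT {x, y} (by
    rintro z (rfl | rfl)
    · exact hx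
    · exact hyE)).1 hG
  rw [Set.image_pair] at hHe
  have hne : g x ≠ g y := fun hc => hyx (hg.injOn hx hyE hc).symm
  obtain ⟨w1, hw1, w2, hw2, h12, h1x, h1y, h2x, h2y, ⟨H1, hH1, hH1e⟩, ⟨H2, hH2, hH2e⟩, hlast⟩ :=
    ico_edge_tri (hg.mapsTo hx) (hg.mapsTo hyE) hne hH hHe
  obtain ⟨z1, hz1, rfl⟩ := hg.surjOn hw1
  obtain ⟨z2, hz2, rfl⟩ := hg.surjOn hw2
  refine ⟨z1, hz1, z2, hz2, fun hc => h12 (by rw [hc]), fun hc => h1x (by rw [hc]),
    fun hc => h1y (by rw [hc]), fun hc => h2x (by rw [hc]), fun hc => h2y (by rw [hc]),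
    (hT {x, y, z1} ?_).2 ⟨H1, hH1, ?_⟩, (hT {x, y, z2} ?_).2 ⟨H2, hH2, ?_⟩, ?_⟩
  · rintro z (rfl | rfl | rfl)
    · exact hx
    · exact hyE
    · exact hz1
  · rw [hH1e, Set.image_insert_eq, Set.image_pair]
  · rintro z (rfl | rfl | rfl)
    · exact hx
    · exact hyE
    · exact hz2
  · rw [hH2e, Set.image_insert_eq, Set.image_pair]
  · intro G' hG' hxG hyG hz1G hz2G u hu
    obtain ⟨H', hH', hH'e⟩ := (hT (G' ∩ F.extremePoints ℝ) Set.inter_subset_right).1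
      ⟨G', hG', rfl⟩
    have key : ∀ z, z ∈ G' → z ∈ F.extremePoints ℝ → g z ∈ H' := fun z h1 h2 => by
      have h3 : g z ∈ g '' (G' ∩ F.extremePoints ℝ) := ⟨z, ⟨h1, h2⟩, rfl⟩
      rw [← hH'e] at h3
      exact h3.1
    have hall := hlast H' hH' (key x hxG hx) (key y hyG hyE) (key z1 hz1G hz1) (key z2 hz2G hz2)
    have h4 : g u ∈ H' ∩ Ico.extremePoints ℝ := ⟨hall (hg.mapsTo hu), hg.mapsTo hu⟩
    rw [hH'e] at h4
    obtain ⟨t, ht, hte⟩ := h4
    rw [← hg.injOn ht.2 hu hte]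
    exact ht.1

end Pool.Agent.H77.IC
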