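import Mathlib
import Pool.Agent.H77.IC.Defs
import Pool.Agent.H77.IC.Sep

/-!
# A generic projection to the plane (module Generic, about 100 lines)

For finitely many pairs of independent vectors there is a linear map to the plane keeping each
of these pairs independent. Proof: `π = (h1, h2)`; the condition for `(u, w)` is
`h1 u * h2 w - h1 w * h2 u ≠ 0`, i.e. `h2 (h1 u • w - h1 w • u) ≠ 0`. Choose `h1` nonzero on all
the `u` (`exists_nonzero`); then the vectors `h1 u • w - h1 w • u` are nonzero (independence), and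
choose `h2` nonzero on all of them.
-/

set_option autoImplicit false

open Set Module

namespace Pool.Agent.H77.IC

theorem exists_generic (U : Finset (E4 × E4)) (hU : ∀ p ∈ U, LinearIndependent ℝ ![p.1, p.2]) :
    ∃ π : E4 →ₗ[ℝ] (Fin 2 → ℝ), Function.Surjective π ∧
      ∀ p ∈ U, LinearIndependent ℝ ![π p.1, π p.2] := by
  classical
  set a : E4 := EuclideanSpace.single (0 : Fin 4) (1 : ℝ) with ha
  set b : E4 := EuclideanSpace.single (1 : Fin 4) (1 : ℝ) with hb
  have hab : LinearIndependent ℝ ![a, b] := by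
    rw [LinearIndependent.pair_iff]
    intro s t hst
    have h0 := congrArg (fun v : E4 => v 0) hst
    have h1 := congrArg (fun v : E4 => v 1) hst
    simp [ha, hb] at h0 h1
    exact ⟨h0, h1⟩
  have hV : ∀ p ∈ insert (a, b) U, LinearIndependent ℝ ![p.1, p.2] := by
    intro p hp
    rcases Finset.mem_insert.1 hp with rfl | hp
    · exact hab
    · exact hU p hp
  obtain ⟨h1, hh1⟩ := exists_nonzero ((insert (a, b) U).image Prod.fst) (by
    intro w hw
    obtain ⟨p, hp, rfl⟩ := Finset.mem_image.1 hw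
    have := (hV p hp).ne_zero 0
    simpa using this)
  have hn1 : ∀ p ∈ insert (a, b) U, h1 p.1 ≠ 0 := fun p hp =>
    hh1 p.1 (Finset.mem_image_of_mem _ hp)
  obtain ⟨h2, hh2⟩ := exists_nonzero
    ((insert (a, b) U).image (fun p => h1 p.1 • p.2 - h1 p.2 • p.1)) (by
    intro w hw
    obtain ⟨p, hp, rfl⟩ := Finset.mem_image.1 hw
    intro h0
    have hli := LinearIndependent.pair_iff.1 (hV p hp) (-(h1 p.2)) (h1 p.1) (by
      rw [neg_smul]
      rw [← h0]
      abel)
    exact hn1 p hp hli.2)
  have hn2 : ∀ p ∈ insert (a, b) U, h1 p.1 * h2 p.2 - h1 p.2 * h2 p.1 ≠ 0 := by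
    intro p hp
    have := hh2 _ (Finset.mem_image_of_mem (fun p : E4 × E4 => h1 p.1 • p.2 - h1 p.2 • p.1) hp)
    simpa [map_sub, map_smul, smul_eq_mul] using this
  refine ⟨LinearMap.pi ![h1, h2], ?_, ?_⟩
  · intro v
    have hD := hn2 (a, b) (Finset.mem_insert_self _ _)
    simp only at hD
    refine ⟨((v 0 * h2 b - v 1 * h1 b) / (h1 a * h2 b - h1 b * h2 a)) • a +
      ((h1 a * v 1 - h2 a * v 0) / (h1 a * h2 b - h1 b * h2 a)) • b, ?_⟩
    ext i
    fin_cases i
    · simp only [LinearMap.pi_apply, map_add, map_smul, smul_eq_mul, Fin.zero_eta,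
        Matrix.cons_val_zero]
      rw [div_mul_eq_mul_div, div_mul_eq_mul_div, ← add_div, div_eq_iff hD]
      ring
    · simp only [LinearMap.pi_apply, map_add, map_smul, smul_eq_mul, Fin.mk_one,
        Matrix.cons_val_one, Matrix.cons_val_zero]
      rw [div_mul_eq_mul_div, div_mul_eq_mul_div, ← add_div, div_eq_iff hD]
      ring
  · intro p hp
    have hp' : p ∈ insert (a, b) U := Finset.mem_insert_of_mem hp
    have hD := hn2 p hp'
    have hu := hn1 p hp'
    rw [LinearIndependent.pair_iff]
    intro s t hst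
    have e0 := congrFun hst 0
    have e1 := congrFun hst 1
    simp only [Pi.add_apply, Pi.smul_apply, LinearMap.pi_apply, smul_eq_mul, Pi.zero_apply,
      Matrix.cons_val_zero, Matrix.cons_val_one] at e0 e1
    have ht : t * (h1 p.1 * h2 p.2 - h1 p.2 * h2 p.1) = 0 := by
      linear_combination h1 p.1 * e1 - h2 p.1 * e0
    have ht0 : t = 0 := (mul_eq_zero.1 ht).resolve_right hD
    refine ⟨?_, ht0⟩
    rw [ht0] at e0
    simp only [zero_mul, add_zero] at e0
    exact (mul_eq_zero.1 e0).resolve_right hu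

/-- A linear map to the plane, injective enough on the vertices of a polytope: no three of them
are mapped to collinear points. -/
theorem exists_generic_poly (S : Finset E4) :
    ∃ π : E4 →ₗ[ℝ] (Fin 2 → ℝ), Function.Surjective π ∧
      ∀ x ∈ (convexHull ℝ (S : Set E4)).extremePoints ℝ,
      ∀ y ∈ (convexHull ℝ (S : Set E4)).extremePoints ℝ,
      ∀ z ∈ (convexHull ℝ (S : Set E4)).extremePoints ℝ, x ≠ y → x ≠ z → y ≠ z →
        LinearIndependent ℝ ![π (y - x), π (z - x)] := by
  classical
  obtain ⟨π, hs, hπ⟩ := exists_generic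
    (((S ×ˢ (S ×ˢ S)).image (fun t => (t.2.1 - t.1, t.2.2 - t.1))).filter
      (fun p : E4 × E4 => LinearIndependent ℝ ![p.1, p.2]))
    (fun p hp => (Finset.mem_filter.1 hp).2)
  refine ⟨π, hs, ?_⟩
  intro x hx y hy z hz hxy hxz hyz
  have hxS : x ∈ S := extremePoints_convexHull_subset hx
  have hyS : y ∈ S := extremePoints_convexHull_subset hy
  have hzS : z ∈ S := extremePoints_convexHull_subset hz
  refine hπ (y - x, z - x) (Finset.mem_filter.2 ⟨Finset.mem_image.2
    ⟨(x, (y, z)), by simp [hxS, hyS, hzS], rfl⟩, ?_⟩)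
  have hne : y - x ≠ 0 := sub_ne_zero.2 (Ne.symm hxy)
  rw [LinearIndependent.pair_iff' hne]
  intro c hc
  exact not_proportional (convex_convexHull ℝ (S : Set E4)) hx hz hy (Ne.symm hxz)
    (Ne.symm hxy) (Ne.symm hyz) c hc.symm

end Pool.Agent.H77.IC
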