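import Mathlib
import Pool.Agent.H77.IC.Defs
import Pool.Agent.H77.IC.Facet

/-!
# Generic shadows (module Polygon, about 170 lines)

`F` an exposed face of `P = convexHull S` with at least three vertices; `π` maps no three
vertices of `F` to collinear points.

* `shadow_body`: `π '' F` has nonempty interior (it contains a nondegenerate triangle).
* `shadow_ext`: if `x` is a vertex of `F` and `π x` is not interior to `π '' F` then `π x` is an
  extreme point of `π '' F`. Proof: supporting functional `λ ≠ 0` at `π x`: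
  `λ (π z) <= λ (π x)` on `F`. The set `G = {z ∈ F : λ (π z) = λ (π x)}` is exposed in `F`, it is
  the hull of its vertices (`face_hull_ext` after `face_trans`, or the facet version), its
  vertices are mapped into the line `λ = λ (π x)`, so there are at most two of them, `x` and
  possibly `x'`. So `π '' G` is the point `π x` or the segment from `π x` to `π x' ≠ π x`, in
  which `π x` is extreme; `π '' G` is an exposed (extreme) subset of `π '' F`, so `π x` is an
  extreme point of `π '' F`.
* `shadow_ncard`: `π` is injective on the vertices of `F`, so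
  `#(ext F) <= #(inner π F) + #(ext (π '' F))`.
-/

set_option autoImplicit false

open Set Module

namespace Pool.Agent.H77.IC

private theorem span_top {a b : Fin 2 → ℝ} (h : LinearIndependent ℝ ![a, b]) :
    Submodule.span ℝ {a, b} = ⊤ := by
  have h1 := h.span_eq_top_of_card_eq_finrank' (by simp)
  rw [← h1]
  congr 1
  ext x
  simp [eq_comm, or_comm]

theorem shadow_body (S : Finset E4) {F : Set E4}
    (hF : IsExposed ℝ (convexHull ℝ (S : Set E4)) F) (h3 : 3 ≤ (F.extremePoints ℝ).ncard)
    (π : E4 →ₗ[ℝ] (Fin 2 → ℝ))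
    (hπ : ∀ x ∈ F.extremePoints ℝ, ∀ y ∈ F.extremePoints ℝ, ∀ z ∈ F.extremePoints ℝ,
      x ≠ y → x ≠ z → y ≠ z → LinearIndependent ℝ ![π (y - x), π (z - x)]) :
    (interior (π '' F)).Nonempty := by
  have hfin : (F.extremePoints ℝ).Finite := by
    rw [ext_face hF]
    exact (ext_finite S).inter_of_right _
  have hFconv : Convex ℝ F := hF.convex (convex_convexHull ℝ _)
  obtain ⟨x, hx, y, hy, z, hz, hxy, hxz, hyz⟩ := (Set.two_lt_ncard hfin).1 h3
  have hli := hπ x hx y hy z hz hxy hxz hyz
  apply Pool.Agent.H27.Content.interior_nonempty_of_vectorSpan (hFconv.linear_image π)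
    ⟨π x, mem_image_of_mem _ (extremePoints_subset hx)⟩
  rw [← top_le_iff, ← span_top hli, Submodule.span_le]
  have key : ∀ w ∈ F.extremePoints ℝ, π (w - x) ∈ vectorSpan ℝ (π '' F) := by
    intro w hw
    have := vsub_mem_vectorSpan ℝ (mem_image_of_mem π (extremePoints_subset hw))
      (mem_image_of_mem π (extremePoints_subset hx))
    rwa [vsub_eq_sub, ← map_sub] at this
  rintro w (rfl | rfl)
  · exact key y hy
  · exact key z hz

private theorem shadow_ext (S : Finset E4) {F : Set E4}
    (hF : IsExposed ℝ (convexHull ℝ (S : Set E4)) F) (h3 : 3 ≤ (F.extremePoints ℝ).ncard)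
    (π : E4 →ₗ[ℝ] (Fin 2 → ℝ))
    (hπ : ∀ x ∈ F.extremePoints ℝ, ∀ y ∈ F.extremePoints ℝ, ∀ z ∈ F.extremePoints ℝ,
      x ≠ y → x ≠ z → y ≠ z → LinearIndependent ℝ ![π (y - x), π (z - x)])
    {x : E4} (hx : x ∈ F.extremePoints ℝ) (hxi : π x ∉ interior (π '' F)) :
    π x ∈ (π '' F).extremePoints ℝ := by
  classical
  have hfin : (F.extremePoints ℝ).Finite := by
    rw [ext_face hF]
    exact (ext_finite S).inter_of_right _
  have hFconv : Convex ℝ F := hF.convex (convex_convexHull ℝ _)
  have hIconv : Convex ℝ (π '' F) := hFconv.linear_image π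
  obtain ⟨i0, hi0⟩ := shadow_body S hF h3 π hπ
  obtain ⟨f, hf⟩ := geometric_hahn_banach_open_point hIconv.interior isOpen_interior hxi
  have hle : ∀ z ∈ F, f (π z) ≤ f (π x) := by
    intro z hz
    have h1 : π z ∈ closure (interior (π '' F)) := by
      rw [hIconv.closure_interior_eq_closure_of_nonempty_interior ⟨i0, hi0⟩]
      exact subset_closure (mem_image_of_mem _ hz)
    have h2 : closure (interior (π '' F)) ⊆ {w | f w ≤ f (π x)} :=
      closure_minimal (fun w hw => (hf w hw).le) (isClosed_le f.continuous continuous_const)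
    exact h2 h1
  have hf0 : ∀ a b : Fin 2 → ℝ, LinearIndependent ℝ ![a, b] → f a = 0 → f b = 0 → False := by
    intro a b hab ha hb
    have h1 : ∀ w, f w = 0 := by
      intro w
      have hw : w ∈ Submodule.span ℝ {a, b} := span_top hab ▸ Submodule.mem_top
      obtain ⟨s, t, rfl⟩ := Submodule.mem_span_pair.1 hw
      simp [ha, hb]
    have := hf i0 hi0
    rw [h1, h1] at this
    exact lt_irrefl _ this
  -- the functional on `E4`
  set l : E4 →L[ℝ] ℝ := f.comp (LinearMap.toContinuousLinearMap π) with hl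
  have hlz : ∀ z, l z = f (π z) := fun z => rfl
  have hFH : F = convexHull ℝ (((hfin.toFinset : Finset E4)) : Set E4) := by
    rw [hfin.coe_toFinset]
    exact face_hull_ext S hF
  set G : Set E4 := {z ∈ F | l z = l x} with hG
  have hGe : IsExposed ℝ F G := Pool.Agent.H27.Content.exposed_of_max l (l x) (fun y hy => hle y hy)
  have hGe' : IsExposed ℝ (convexHull ℝ ((hfin.toFinset : Finset E4) : Set E4)) G := by
    rw [← hFH]
    exact hGe
  have hGH := face_hull_ext hfin.toFinset hGe'
  have hGext : G.extremePoints ℝ ⊆ F.extremePoints ℝ :=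
    hGe.isExtreme.extremePoints_subset_extremePoints
  have hGl : ∀ v ∈ G.extremePoints ℝ, f (π v) = f (π x) := fun v hv =>
    (extremePoints_subset hv : v ∈ G).2
  obtain ⟨x', hx', hne, hsub⟩ : ∃ x' ∈ F.extremePoints ℝ, x' ≠ x ∧
      G.extremePoints ℝ ⊆ {x, x'} := by
    by_cases h : ∃ v ∈ G.extremePoints ℝ, v ≠ x
    · obtain ⟨v, hv, hvx⟩ := h
      refine ⟨v, hGext hv, hvx, fun v2 hv2 => ?_⟩
      by_contra hcon
      simp only [mem_insert_iff, mem_singleton_iff, not_or] at hcon
      apply hf0 _ _ (hπ x hx v (hGext hv) v2 (hGext hv2) hvx.symm (Ne.symm hcon.1)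
        (Ne.symm hcon.2))
      · rw [map_sub, map_sub, hGl v hv, sub_self]
      · rw [map_sub, map_sub, hGl v2 hv2, sub_self]
    · push Not at h
      obtain ⟨b, hb, hbx⟩ := Set.exists_ne_of_one_lt_ncard (by omega : 1 < (F.extremePoints ℝ).ncard) x
      exact ⟨b, hb, hbx, fun v hv => Or.inl (h v hv)⟩
  have hd : π (x' - x) ≠ 0 := by
    obtain ⟨z, hz, hzne⟩ : ∃ z ∈ F.extremePoints ℝ, z ∉ ({x, x'} : Set E4) := by
      by_contra hcon
      push Not at hcon
      have h1 : (F.extremePoints ℝ).ncard ≤ ({x, x'} : Set E4).ncard :=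
        Set.ncard_le_ncard hcon (by simp)
      have h2 : ({x, x'} : Set E4).ncard ≤ 2 := by
        rw [Set.ncard_pair hne.symm]
      omega
    simp only [mem_insert_iff, mem_singleton_iff, not_or] at hzne
    have hli := hπ x hx x' hx' z hz hne.symm (Ne.symm hzne.1) (Ne.symm hzne.2)
    exact hli.ne_zero 0
  have hseg : G ⊆ segment ℝ x x' := by
    rw [hGH, ← convexHull_pair]
    exact convexHull_mono hsub
  rw [mem_extremePoints]
  refine ⟨mem_image_of_mem _ (extremePoints_subset hx), ?_⟩
  rintro _ ⟨a, ha, rfl⟩ _ ⟨b, hb, rfl⟩ ⟨α, β, hα, hβ, hαβ, hcomb⟩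
  have h1 : α * f (π a) + β * f (π b) = f (π x) := by
    rw [← hcomb]
    simp
  have haG : a ∈ G := by
    refine ⟨ha, le_antisymm (hle a ha) ?_⟩
    rw [hlz, hlz]
    have h2 := hle b hb
    have h3 : f (π x) = α * f (π x) + β * f (π x) := by rw [← add_mul, hαβ, one_mul]
    nlinarith [mul_le_mul_of_nonneg_left h2 hβ.le]
  have hbG : b ∈ G := by
    refine ⟨hb, le_antisymm (hle b hb) ?_⟩
    rw [hlz, hlz]
    have h2 := hle a ha
    have h3 : f (π x) = α * f (π x) + β * f (π x) := by rw [← add_mul, hαβ, one_mul]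
    nlinarith [mul_le_mul_of_nonneg_left h2 hα.le]
  obtain ⟨s1, s2, hs1, hs2, hs, hsa⟩ := hseg haG
  obtain ⟨t1, t2, ht1, ht2, ht, htb⟩ := hseg hbG
  have ea : π a = π x + s2 • π (x' - x) := by
    rw [← hsa, map_add, map_smul, map_smul, map_sub]
    have : s1 = 1 - s2 := by linarith
    rw [this]
    module
  have eb : π b = π x + t2 • π (x' - x) := by
    rw [← htb, map_add, map_smul, map_smul, map_sub]
    have : t1 = 1 - t2 := by linarith
    rw [this]
    module
  have hz : (α * s2 + β * t2) • π (x' - x) = 0 := by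
    rw [ea, eb] at hcomb
    have hα1 : α = 1 - β := by linarith
    have h2 : (α * s2 + β * t2) • π (x' - x) =
        (α • (π x + s2 • π (x' - x)) + β • (π x + t2 • π (x' - x))) - π x := by
      rw [hα1]
      module
    rw [h2, hcomb, sub_self]
  have hz' : α * s2 + β * t2 = 0 := by
    rcases smul_eq_zero.1 hz with h | h
    · exact h
    · exact absurd h hd
  have hp1 : 0 ≤ α * s2 := mul_nonneg hα.le hs2
  have hp2 : 0 ≤ β * t2 := mul_nonneg hβ.le ht2
  have hs20 : s2 = 0 := by
    have : α * s2 = 0 := by linarith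
    rcases mul_eq_zero.1 this with h | h
    · exact absurd h hα.ne'
    · exact h
  have ht20 : t2 = 0 := by
    have : β * t2 = 0 := by linarith
    rcases mul_eq_zero.1 this with h | h
    · exact absurd h hβ.ne'
    · exact h
  constructor
  · rw [ea, hs20, zero_smul, add_zero]
  · rw [eb, ht20, zero_smul, add_zero]

theorem shadow_ncard (S : Finset E4) {F : Set E4}
    (hF : IsExposed ℝ (convexHull ℝ (S : Set E4)) F) (h3 : 3 ≤ (F.extremePoints ℝ).ncard)
    (π : E4 →ₗ[ℝ] (Fin 2 → ℝ))
    (hπ : ∀ x ∈ F.extremePoints ℝ, ∀ y ∈ F.extremePoints ℝ, ∀ z ∈ F.extremePoints ℝ,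
      x ≠ y → x ≠ z → y ≠ z → LinearIndependent ℝ ![π (y - x), π (z - x)]) :
    (F.extremePoints ℝ).ncard ≤ (inner π F).ncard + ((π '' F).extremePoints ℝ).ncard := by
  classical
  have hfin : (F.extremePoints ℝ).Finite := by
    rw [ext_face hF]
    exact (ext_finite S).inter_of_right _
  have hIfin : ((π '' F).extremePoints ℝ).Finite := by
    have h1 : π '' F = convexHull ℝ (π '' (F.extremePoints ℝ)) := by
      rw [← LinearMap.image_convexHull]
      congr 1
      exact face_hull_ext S hF
    rw [h1]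
    exact (hfin.image π).subset extremePoints_convexHull_subset
  have hin : inner π F ⊆ F.extremePoints ℝ := fun x hx => hx.1
  have h1 : ((F.extremePoints ℝ) \ inner π F).ncard ≤ ((π '' F).extremePoints ℝ).ncard := by
    apply Set.ncard_le_ncard_of_injOn π _ _ hIfin
    · rintro x ⟨hx, hxn⟩
      exact shadow_ext S hF h3 π hπ hx (fun h => hxn ⟨hx, h⟩)
    · rintro x ⟨hx, -⟩ y ⟨hy, -⟩ hxy
      by_contra hne
      obtain ⟨z, hz, hzne⟩ : ∃ z ∈ F.extremePoints ℝ, z ∉ ({x, y} : Set E4) := by
        by_contra hcon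
        push Not at hcon
        have h1 : (F.extremePoints ℝ).ncard ≤ ({x, y} : Set E4).ncard :=
          Set.ncard_le_ncard hcon (by simp)
        have h2 : ({x, y} : Set E4).ncard ≤ 2 := by
          rw [Set.ncard_pair hne]
        omega
      simp only [mem_insert_iff, mem_singleton_iff, not_or] at hzne
      have hli := hπ x hx y hy z hz hne (Ne.symm hzne.1) (Ne.symm hzne.2)
      have h0 := hli.ne_zero 0
      apply h0
      simp only [Matrix.cons_val_zero]
      rw [map_sub, hxy, sub_self]
  have h2 := Set.ncard_sdiff_add_ncard_of_subset hin hfin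
  omega

end Pool.Agent.H77.IC
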