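import Mathlib
import Pool.Agent.H77.IC.Defs
import Pool.Agent.H77.IC.IcoVert

/-!
# Shadows of the regular icosahedron (module IcoShadow, about 200 lines)

For a surjective linear map `ρ` from 3-space to the plane at least two vertices `v` of `Ico` have
`ρ v` interior to `ρ Ico`.

Proof. Let `d ≠ 0` span `ker ρ` and let `v` be one of the twelve points with `v · d` greatest.
Claim: `ρ v` is interior to `ρ Ico`. If not, there is a nonzero functional `λ` on the plane with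
`λ (ρ z) <= λ (ρ v)` for `z ∈ Ico` (supporting hyperplane, `ρ Ico` is convex with nonempty
interior, or `geometric_hahn_banach_open_point` for its interior and closure argument), so
`m · z <= m · v` for all twelve points `z`, where `m ≠ 0`, `m · d = 0`. So `m` and `d` both lie in
the cell `C_v = {p : p · z <= p · v for the twelve points z}`; but two nonzero elements of `C_v`
have positive inner product (`cell_pos`), contradiction. The same holds for `-d` and `-v`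
(`-v · (-d)` is greatest), and `v ≠ -v`.

`cell_pos`: by the sign changes and cyclic permutation of coordinates (symmetries of the set of
twelve points) let `v = (0, 1, φ)`. For `p = (a, b, c)` in the cell: `b, c >= 0`
(points `(0, ±1, ±φ)`), `|a| + (φ - 1) b <= φ c` (points `(±1, ±φ, 0)`),
`φ |a| <= b + (φ - 1) c` (points `(±φ, 0, ±1)`). With `φ - 1 = 1/φ` one gets
`|a| <= (b + c/φ)/φ`, `b <= φ^2 c`, and `c > 0` for `p ≠ 0`. For two such vectors
`b b' + c c' - |a a'| >= b b' (1 - φ^-2) + c c' (1 - φ^-4) - φ^-3 (b c' + b' c)`, and with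
`b = β c`, `b' = β' c'`, `0 <= β, β' <= φ^2` this is `c c'` times a bilinear function whose
values at the corners are `0.854`, `0.236`, `0.236`, `3.85`, all positive.
-/

set_option autoImplicit false

open Set Module

namespace Pool.Agent.H77.IC

/-- The twelve points. -/
private def APt : Set (Fin 3 → ℝ) := {v : Fin 3 → ℝ | ∃ s t : ℝ, (s = 1 ∨ s = -1) ∧ (t = 1 ∨ t = -1) ∧
    (v = ![0, s, t * Real.goldenRatio] ∨ v = ![s, t * Real.goldenRatio, 0] ∨
      v = ![t * Real.goldenRatio, 0, s])}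

private noncomputable def sg (b : Bool) : ℝ := if b then 1 else -1

private theorem sg_or (b : Bool) : sg b = 1 ∨ sg b = -1 := by
  cases b
  · right
    rfl
  · left
    rfl

private noncomputable def fpt (x : Bool × Bool × Fin 3) : Fin 3 → ℝ :=
  (![![0, sg x.1, sg x.2.1 * Real.goldenRatio], ![sg x.1, sg x.2.1 * Real.goldenRatio, 0],
    ![sg x.2.1 * Real.goldenRatio, 0, sg x.1]] : Fin 3 → Fin 3 → ℝ) x.2.2

private theorem apt_range : APt ⊆ Set.range fpt := by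
  rintro v ⟨s, t, hs, ht, h⟩
  obtain ⟨b, rfl⟩ : ∃ b, sg b = s := by
    rcases hs with rfl | rfl
    · exact ⟨true, rfl⟩
    · exact ⟨false, rfl⟩
  obtain ⟨c, rfl⟩ : ∃ b, sg b = t := by
    rcases ht with rfl | rfl
    · exact ⟨true, rfl⟩
    · exact ⟨false, rfl⟩
  rcases h with rfl | rfl | rfl
  · exact ⟨(b, c, 0), rfl⟩
  · exact ⟨(b, c, 1), rfl⟩
  · exact ⟨(b, c, 2), rfl⟩

private theorem ext_apt : Ico.extremePoints ℝ = APt := by
  have hfin : APt.Finite := (Set.finite_range fpt).subset apt_range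
  refine Set.eq_of_subset_of_ncard_le extremePoints_convexHull_subset ?_ hfin
  rw [ico_card]
  refine (Set.ncard_le_ncard apt_range (Set.finite_range fpt)).trans ?_
  rw [← Set.image_univ]
  refine (Set.ncard_image_le Set.finite_univ).trans ?_
  rw [Set.ncard_univ, Nat.card_eq_fintype_card]
  simp

private theorem phi_lo' : (1.618 : ℝ) < Real.goldenRatio := by
  have h1 := Real.goldenRatio_sq
  have h2 := Real.goldenRatio_pos
  nlinarith

private theorem phi_hi' : Real.goldenRatio < (1.6181 : ℝ) := by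
  have h1 := Real.goldenRatio_sq
  have h2 := Real.goldenRatio_pos
  nlinarith

private theorem core_c {a b c : ℝ} (hb : 0 ≤ b) (hc : 0 ≤ c)
    (h1 : |a| + Real.goldenRatio * b ≤ b + Real.goldenRatio * c)
    (h2 : Real.goldenRatio * |a| + c ≤ b + Real.goldenRatio * c)
    (hne : ¬ (a = 0 ∧ b = 0 ∧ c = 0)) :
    0 < c ∧ b ≤ 2.6183 * c ∧ |a| ≤ 0.6181 * b + 0.3821 * c := by
  have hp1 := phi_lo'
  have hp2 := phi_hi'
  have ha := abs_nonneg a
  have e1 : (0.618 : ℝ) * b ≤ (Real.goldenRatio - 1) * b :=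
    mul_le_mul_of_nonneg_right (by linarith) hb
  have e2 : Real.goldenRatio * c ≤ 1.6181 * c := mul_le_mul_of_nonneg_right hp2.le hc
  have e3 : (1.618 : ℝ) * |a| ≤ Real.goldenRatio * |a| := mul_le_mul_of_nonneg_right hp1.le ha
  have hb' : b ≤ 2.6183 * c := by linarith
  have ha' : |a| ≤ 0.6181 * b + 0.3821 * c := by linarith
  refine ⟨?_, hb', ha'⟩
  rcases hc.eq_or_lt with h | h
  · exfalso
    rw [← h] at hb' ha'
    have hb0 : b = 0 := by linarith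
    rw [hb0] at ha'
    have ha0 : |a| = 0 := by linarith
    exact hne ⟨abs_eq_zero.1 ha0, hb0, h.symm⟩
  · exact h

private theorem core_pos {a b c a' b' c' : ℝ} (hb : 0 ≤ b) (hc : 0 < c)
    (hbc : b ≤ 2.6183 * c) (ha : |a| ≤ 0.6181 * b + 0.3821 * c) (hb' : 0 ≤ b') (hc' : 0 < c')
    (hbc' : b' ≤ 2.6183 * c') (ha' : |a'| ≤ 0.6181 * b' + 0.3821 * c') :
    0 < a * a' + b * b' + c * c' := by
  have h1 : -(|a| * |a'|) ≤ a * a' := by
    rw [← abs_mul]
    exact neg_abs_le _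
  have h2 : |a| * |a'| ≤ (0.6181 * b + 0.3821 * c) * (0.6181 * b' + 0.3821 * c') :=
    mul_le_mul ha ha' (abs_nonneg _) (by positivity)
  have h3 := mul_nonneg hb hb'
  have h4 := mul_nonneg (sub_nonneg.2 hbc) (sub_nonneg.2 hbc')
  have h5 := mul_nonneg hb (sub_nonneg.2 hbc')
  have h6 := mul_nonneg (sub_nonneg.2 hbc) hb'
  have h7 := mul_pos hc hc'
  nlinarith

/-- the cell inequalities, the role of the coordinates being given by `i, j, k` -/
private theorem cell_ineq {p v : Fin 3 → ℝ} {s t a b c : ℝ} (hs : s = 1 ∨ s = -1)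
    (ht : t = 1 ∨ t = -1) (hv : p ⬝ᵥ v = s * b + t * Real.goldenRatio * c)
    (h0 : ∀ s' t' : ℝ, (s' = 1 ∨ s' = -1) → (t' = 1 ∨ t' = -1) →
      s' * b + t' * Real.goldenRatio * c ≤ p ⬝ᵥ v ∧
      s' * a + t' * Real.goldenRatio * b ≤ p ⬝ᵥ v ∧
      t' * Real.goldenRatio * a + s' * c ≤ p ⬝ᵥ v) :
    0 ≤ s * b ∧ 0 ≤ t * c ∧
      |a| + Real.goldenRatio * (s * b) ≤ s * b + Real.goldenRatio * (t * c) ∧
      Real.goldenRatio * |a| + t * c ≤ s * b + Real.goldenRatio * (t * c) := by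
  rw [hv] at h0
  have hp := Real.goldenRatio_pos
  have hneg : ∀ r : ℝ, (r = 1 ∨ r = -1) → (-r = 1 ∨ -r = -1) := by
    rintro r (rfl | rfl)
    · exact Or.inr rfl
    · exact Or.inl (neg_neg 1)
  obtain ⟨σ, hσ, hσa⟩ : ∃ σ : ℝ, (σ = 1 ∨ σ = -1) ∧ |a| = σ * a := by
    rcases abs_choice a with h | h
    · exact ⟨1, Or.inl rfl, by rw [h, one_mul]⟩
    · exact ⟨-1, Or.inr rfl, by rw [h]; ring⟩
  have e1 := (h0 (-s) t (hneg s hs) ht).1
  have e2 := (h0 s (-t) hs (hneg t ht)).1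
  have e3 := (h0 σ s hσ hs).2.1
  have e4 := (h0 t σ ht hσ).2.2
  rw [hσa]
  refine ⟨by linarith, ?_, by linarith, by linarith⟩
  have e5 : 0 ≤ Real.goldenRatio * (t * c) := by linarith
  exact nonneg_of_mul_nonneg_right e5 hp

/-- Nonzero vectors in the cell of a vertex have positive inner product. -/
theorem cell_pos {v p q : Fin 3 → ℝ} (hv : v ∈ Ico.extremePoints ℝ) (hp : p ≠ 0) (hq : q ≠ 0)
    (hp' : ∀ z ∈ Ico.extremePoints ℝ, p ⬝ᵥ z ≤ p ⬝ᵥ v)
    (hq' : ∀ z ∈ Ico.extremePoints ℝ, q ⬝ᵥ z ≤ q ⬝ᵥ v) : 0 < p ⬝ᵥ q := by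
  rw [ext_apt] at hv hp' hq'
  have hss : ∀ r : ℝ, (r = 1 ∨ r = -1) → r * r = 1 := by
    rintro r (rfl | rfl) <;> norm_num
  have hdot : ∀ x z : Fin 3 → ℝ, x ⬝ᵥ z = x 0 * z 0 + x 1 * z 1 + x 2 * z 2 := by
    intro x z
    simp [dotProduct, Fin.sum_univ_three]
  have hm0 : ∀ s' t' : ℝ, (s' = 1 ∨ s' = -1) → (t' = 1 ∨ t' = -1) →
      ![0, s', t' * Real.goldenRatio] ∈ APt := fun s' t' h1 h2 => ⟨s', t', h1, h2, Or.inl rfl⟩
  have hm1 : ∀ s' t' : ℝ, (s' = 1 ∨ s' = -1) → (t' = 1 ∨ t' = -1) →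
      ![s', t' * Real.goldenRatio, 0] ∈ APt := fun s' t' h1 h2 =>
    ⟨s', t', h1, h2, Or.inr (Or.inl rfl)⟩
  have hm2 : ∀ s' t' : ℝ, (s' = 1 ∨ s' = -1) → (t' = 1 ∨ t' = -1) →
      ![t' * Real.goldenRatio, 0, s'] ∈ APt := fun s' t' h1 h2 =>
    ⟨s', t', h1, h2, Or.inr (Or.inr rfl)⟩
  have d0 : ∀ (x : Fin 3 → ℝ) (s' t' : ℝ), x ⬝ᵥ ![0, s', t' * Real.goldenRatio] =
      s' * x 1 + t' * Real.goldenRatio * x 2 := by
    intro x s' t'
    rw [hdot]
    change x 0 * 0 + x 1 * s' + x 2 * (t' * Real.goldenRatio) = _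
    ring
  have d1 : ∀ (x : Fin 3 → ℝ) (s' t' : ℝ), x ⬝ᵥ ![s', t' * Real.goldenRatio, 0] =
      s' * x 0 + t' * Real.goldenRatio * x 1 := by
    intro x s' t'
    rw [hdot]
    change x 0 * s' + x 1 * (t' * Real.goldenRatio) + x 2 * 0 = _
    ring
  have d2 : ∀ (x : Fin 3 → ℝ) (s' t' : ℝ), x ⬝ᵥ ![t' * Real.goldenRatio, 0, s'] =
      t' * Real.goldenRatio * x 0 + s' * x 2 := by
    intro x s' t'
    rw [hdot]
    change x 0 * (t' * Real.goldenRatio) + x 1 * 0 + x 2 * s' = _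
    ring
  have hnz : ∀ x : Fin 3 → ℝ, x ≠ 0 → ¬ (x 0 = 0 ∧ x 1 = 0 ∧ x 2 = 0) := by
    intro x hx h
    apply hx
    funext i
    fin_cases i
    · exact h.1
    · exact h.2.1
    · exact h.2.2
  have hsz : ∀ r z : ℝ, (r = 1 ∨ r = -1) → r * z = 0 → z = 0 := by
    rintro r z (rfl | rfl) h <;> linarith
  obtain ⟨s, t, hs, ht, hv⟩ := hv
  have key : ∀ a b c a' b' c' : ℝ, ∀ (P : p ⬝ᵥ v = s * b + t * Real.goldenRatio * c)
      (Q : q ⬝ᵥ v = s * b' + t * Real.goldenRatio * c')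
      (hP : ∀ s' t' : ℝ, (s' = 1 ∨ s' = -1) → (t' = 1 ∨ t' = -1) →
        s' * b + t' * Real.goldenRatio * c ≤ p ⬝ᵥ v ∧
        s' * a + t' * Real.goldenRatio * b ≤ p ⬝ᵥ v ∧
        t' * Real.goldenRatio * a + s' * c ≤ p ⬝ᵥ v)
      (hQ : ∀ s' t' : ℝ, (s' = 1 ∨ s' = -1) → (t' = 1 ∨ t' = -1) →
        s' * b' + t' * Real.goldenRatio * c' ≤ q ⬝ᵥ v ∧
        s' * a' + t' * Real.goldenRatio * b' ≤ q ⬝ᵥ v ∧
        t' * Real.goldenRatio * a' + s' * c' ≤ q ⬝ᵥ v)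
      (_ : ¬ (a = 0 ∧ b = 0 ∧ c = 0)) (_ : ¬ (a' = 0 ∧ b' = 0 ∧ c' = 0)),
      0 < a * a' + b * b' + c * c' := by
    intro a b c a' b' c' P Q hP hQ hn hn'
    obtain ⟨i1, i2, i3, i4⟩ := cell_ineq hs ht P hP
    obtain ⟨j1, j2, j3, j4⟩ := cell_ineq hs ht Q hQ
    obtain ⟨c1, c2, c3⟩ := core_c i1 i2 i3 i4 (fun h => hn ⟨h.1, hsz s b hs h.2.1, hsz t c ht h.2.2⟩)
    obtain ⟨e1, e2, e3⟩ := core_c j1 j2 j3 j4
      (fun h => hn' ⟨h.1, hsz s b' hs h.2.1, hsz t c' ht h.2.2⟩)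
    have h := core_pos i1 c1 c2 c3 j1 e1 e2 e3
    have h1 := hss s hs
    have h2 := hss t ht
    have h3 : a * a' + s * b * (s * b') + t * c * (t * c') = a * a' + b * b' + c * c' := by
      linear_combination (b * b') * h1 + (c * c') * h2
    rwa [h3] at h
  have H0 : ∀ (x : Fin 3 → ℝ), (∀ z ∈ APt, x ⬝ᵥ z ≤ x ⬝ᵥ v) → ∀ s' t' : ℝ, (s' = 1 ∨ s' = -1) →
      (t' = 1 ∨ t' = -1) → s' * x 1 + t' * Real.goldenRatio * x 2 ≤ x ⬝ᵥ v := by
    intro x hx s' t' h1 h2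
    rw [← d0]
    exact hx _ (hm0 s' t' h1 h2)
  have H1 : ∀ (x : Fin 3 → ℝ), (∀ z ∈ APt, x ⬝ᵥ z ≤ x ⬝ᵥ v) → ∀ s' t' : ℝ, (s' = 1 ∨ s' = -1) →
      (t' = 1 ∨ t' = -1) → s' * x 0 + t' * Real.goldenRatio * x 1 ≤ x ⬝ᵥ v := by
    intro x hx s' t' h1 h2
    rw [← d1]
    exact hx _ (hm1 s' t' h1 h2)
  have H2 : ∀ (x : Fin 3 → ℝ), (∀ z ∈ APt, x ⬝ᵥ z ≤ x ⬝ᵥ v) → ∀ s' t' : ℝ, (s' = 1 ∨ s' = -1) →
      (t' = 1 ∨ t' = -1) → t' * Real.goldenRatio * x 0 + s' * x 2 ≤ x ⬝ᵥ v := by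
    intro x hx s' t' h1 h2
    rw [← d2]
    exact hx _ (hm2 s' t' h1 h2)
  have hnz1 : ∀ x : Fin 3 → ℝ, x ≠ 0 → ¬ (x 2 = 0 ∧ x 0 = 0 ∧ x 1 = 0) :=
    fun x hx h => hnz x hx ⟨h.2.1, h.2.2, h.1⟩
  have hnz2 : ∀ x : Fin 3 → ℝ, x ≠ 0 → ¬ (x 1 = 0 ∧ x 2 = 0 ∧ x 0 = 0) :=
    fun x hx h => hnz x hx ⟨h.2.2, h.1, h.2.1⟩
  rw [hdot p q]
  rcases hv with rfl | rfl | rfl
  · exact key (p 0) (p 1) (p 2) (q 0) (q 1) (q 2) (d0 p s t) (d0 q s t)
      (fun s' t' h1 h2 => ⟨H0 p hp' s' t' h1 h2, H1 p hp' s' t' h1 h2, H2 p hp' s' t' h1 h2⟩)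
      (fun s' t' h1 h2 => ⟨H0 q hq' s' t' h1 h2, H1 q hq' s' t' h1 h2, H2 q hq' s' t' h1 h2⟩)
      (hnz p hp) (hnz q hq)
  · have h := key (p 2) (p 0) (p 1) (q 2) (q 0) (q 1) (d1 p s t) (d1 q s t)
      (fun s' t' h1 h2 => ⟨H1 p hp' s' t' h1 h2,
        (add_comm _ _).trans_le (H2 p hp' s' t' h1 h2),
        (add_comm _ _).trans_le (H0 p hp' s' t' h1 h2)⟩)
      (fun s' t' h1 h2 => ⟨H1 q hq' s' t' h1 h2,
        (add_comm _ _).trans_le (H2 q hq' s' t' h1 h2),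
        (add_comm _ _).trans_le (H0 q hq' s' t' h1 h2)⟩)
      (hnz1 p hp) (hnz1 q hq)
    linarith
  · have h := key (p 1) (p 2) (p 0) (q 1) (q 2) (q 0) ((d2 p s t).trans (add_comm _ _))
      ((d2 q s t).trans (add_comm _ _))
      (fun s' t' h1 h2 => ⟨(add_comm _ _).trans_le (H2 p hp' s' t' h1 h2),
        H0 p hp' s' t' h1 h2,
        (add_comm _ _).trans_le (H1 p hp' s' t' h1 h2)⟩)
      (fun s' t' h1 h2 => ⟨(add_comm _ _).trans_le (H2 q hq' s' t' h1 h2),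
        H0 q hq' s' t' h1 h2,
        (add_comm _ _).trans_le (H1 q hq' s' t' h1 h2)⟩)
      (hnz2 p hp) (hnz2 q hq)
    linarith

/-- The interior of the image of the icosahedron is not empty. -/
private theorem ico_interior : (interior Ico).Nonempty := by
  have hconv : Convex ℝ Ico := convex_convexHull ℝ _
  rw [hconv.interior_nonempty_iff_affineSpan_eq_top]
  have hA : APt ⊆ (affineSpan ℝ Ico : Set (Fin 3 → ℝ)) :=
    (subset_convexHull ℝ _).trans (subset_affineSpan ℝ _)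
  have hphi := Real.goldenRatio_pos
  have hdir : (affineSpan ℝ Ico).direction = ⊤ := by
    rw [eq_top_iff]
    have hd : ∀ x ∈ APt, ∀ y ∈ APt, x - y ∈ (affineSpan ℝ Ico).direction := by
      intro x hx y hy
      have := AffineSubspace.vsub_mem_direction (hA hx) (hA hy)
      rwa [vsub_eq_sub] at this
    have e1 : (![0, 1, 0] : Fin 3 → ℝ) ∈ (affineSpan ℝ Ico).direction := by
      have h := hd ![0, 1, 1 * Real.goldenRatio] ⟨1, 1, Or.inl rfl, Or.inl rfl, Or.inl rfl⟩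
        ![0, -1, 1 * Real.goldenRatio] ⟨-1, 1, Or.inr rfl, Or.inl rfl, Or.inl rfl⟩
      have h2 := Submodule.smul_mem _ (1 / 2 : ℝ) h
      convert h2 using 1
      funext i
      fin_cases i <;> simp
      norm_num
    have e0 : (![1, 0, 0] : Fin 3 → ℝ) ∈ (affineSpan ℝ Ico).direction := by
      have h := hd ![1, 1 * Real.goldenRatio, 0]
        ⟨1, 1, Or.inl rfl, Or.inl rfl, Or.inr (Or.inl rfl)⟩
        ![-1, 1 * Real.goldenRatio, 0] ⟨-1, 1, Or.inr rfl, Or.inl rfl, Or.inr (Or.inl rfl)⟩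
      have h2 := Submodule.smul_mem _ (1 / 2 : ℝ) h
      convert h2 using 1
      funext i
      fin_cases i <;> simp
      norm_num
    have e2 : (![0, 0, 1] : Fin 3 → ℝ) ∈ (affineSpan ℝ Ico).direction := by
      have h := hd ![1 * Real.goldenRatio, 0, 1]
        ⟨1, 1, Or.inl rfl, Or.inl rfl, Or.inr (Or.inr rfl)⟩
        ![1 * Real.goldenRatio, 0, -1] ⟨-1, 1, Or.inr rfl, Or.inl rfl, Or.inr (Or.inr rfl)⟩
      have h2 := Submodule.smul_mem _ (1 / 2 : ℝ) h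
      convert h2 using 1
      funext i
      fin_cases i <;> simp
      norm_num
    intro x _
    have hx : x = x 0 • (![1, 0, 0] : Fin 3 → ℝ) + x 1 • (![0, 1, 0] : Fin 3 → ℝ) +
        x 2 • (![0, 0, 1] : Fin 3 → ℝ) := by
      funext i
      fin_cases i <;> simp
    rw [hx]
    exact Submodule.add_mem _ (Submodule.add_mem _ (Submodule.smul_mem _ _ e0)
      (Submodule.smul_mem _ _ e1)) (Submodule.smul_mem _ _ e2)
  have hne : (affineSpan ℝ Ico : Set (Fin 3 → ℝ)).Nonempty :=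
    ⟨_, hA ⟨1, 1, Or.inl rfl, Or.inl rfl, Or.inl rfl⟩⟩
  exact (AffineSubspace.direction_eq_top_iff_of_nonempty hne).1 hdir

/-- A vertex which is greatest in the direction of the kernel is mapped to the interior. -/
private theorem max_inner (ρ : (Fin 3 → ℝ) →ₗ[ℝ] (Fin 2 → ℝ)) (hρ : Function.Surjective ρ)
    {d v : Fin 3 → ℝ} (hd : d ≠ 0) (hρd : ρ d = 0) (hv : v ∈ Ico.extremePoints ℝ)
    (hmax : ∀ z ∈ Ico.extremePoints ℝ, d ⬝ᵥ z ≤ d ⬝ᵥ v) : ρ v ∈ interior (ρ '' Ico) := by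
  by_contra hni
  have hopen : IsOpenMap ρ := by
    have := LinearMap.isOpenMap_of_finiteDimensional ρ hρ
    exact this
  have hconv : Convex ℝ (ρ '' Ico) := (convex_convexHull ℝ _).linear_image ρ
  have hne : (interior (ρ '' Ico)).Nonempty :=
    (ico_interior.image ρ).mono (hopen.image_interior_subset Ico)
  obtain ⟨f, hf⟩ := geometric_hahn_banach_open_point hconv.interior isOpen_interior hni
  have hle : ∀ z ∈ Ico, f (ρ z) ≤ f (ρ v) := by
    intro z hz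
    have h1 : ρ z ∈ closure (interior (ρ '' Ico)) := by
      rw [hconv.closure_interior_eq_closure_of_nonempty_interior hne]
      exact subset_closure (Set.mem_image_of_mem ρ hz)
    have h2 : IsClosed {y : Fin 2 → ℝ | f y ≤ f (ρ v)} :=
      isClosed_le f.continuous continuous_const
    exact closure_minimal (fun y hy => (hf y hy).le) h2 h1
  let g : (Fin 3 → ℝ) →ₗ[ℝ] ℝ := f.toLinearMap ∘ₗ ρ
  let m : Fin 3 → ℝ := fun i => g (Pi.single i 1)
  have hm : ∀ x, m ⬝ᵥ x = f (ρ x) := by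
    intro x
    have h := LinearMap.pi_apply_eq_sum_univ g x
    have h2 : g x = f (ρ x) := rfl
    rw [← h2, h, dotProduct]
    refine Finset.sum_congr rfl (fun i _ => ?_)
    change g (Pi.single i 1) * x i = _
    rw [smul_eq_mul, mul_comm]
    congr 2
    funext j
    simp [Pi.single_apply, eq_comm]
  have hmne : m ≠ 0 := by
    intro h0
    obtain ⟨y, hy⟩ := hne
    have h1 := hf y hy
    obtain ⟨z, rfl⟩ := hρ y
    rw [← hm, ← hm, h0] at h1
    simp at h1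
  have hpos := cell_pos hv hmne hd
    (fun z hz => by
      rw [hm, hm]
      exact hle z hz.1) hmax
  rw [hm, hρd, map_zero] at hpos
  exact lt_irrefl _ hpos

theorem ico_shadow (ρ : (Fin 3 → ℝ) →ₗ[ℝ] (Fin 2 → ℝ)) (hρ : Function.Surjective ρ) :
    2 ≤ {v | v ∈ Ico.extremePoints ℝ ∧ ρ v ∈ interior (ρ '' Ico)}.ncard := by
  have hfin : (Ico.extremePoints ℝ).Finite := by
    rw [ext_apt]
    exact (Set.finite_range fpt).subset apt_range
  have hne : (Ico.extremePoints ℝ).Nonempty := by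
    rw [ext_apt]
    exact ⟨_, 1, 1, Or.inl rfl, Or.inl rfl, Or.inl rfl⟩
  obtain ⟨d, hd0, hd⟩ : ∃ d : Fin 3 → ℝ, d ≠ 0 ∧ ρ d = 0 := by
    by_contra hcon
    push Not at hcon
    have hinj : Function.Injective ρ := by
      rw [injective_iff_map_eq_zero]
      intro a ha
      by_contra hne
      exact hcon a hne ha
    have h := LinearMap.finrank_le_finrank_of_injective hinj
    simp at h
  have hmax : ∀ e : Fin 3 → ℝ, ∃ v ∈ Ico.extremePoints ℝ,
      ∀ z ∈ Ico.extremePoints ℝ, e ⬝ᵥ z ≤ e ⬝ᵥ v := by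
    intro e
    obtain ⟨v, hv, h⟩ := Set.exists_max_image (Ico.extremePoints ℝ) (fun z => e ⬝ᵥ z) hfin hne
    exact ⟨v, hv, h⟩
  obtain ⟨v, hv, hvm⟩ := hmax d
  obtain ⟨w, hw, hwm⟩ := hmax (-d)
  have hnd : -d ≠ 0 := neg_ne_zero.2 hd0
  have hvw : v ≠ w := by
    rintro rfl
    have h := cell_pos hv hd0 hnd hvm hwm
    have h2 := cell_pos hv hd0 hd0 hvm hvm
    rw [dotProduct_neg] at h
    linarith
  have h1 := max_inner ρ hρ hd0 hd hv hvm
  have h2 := max_inner ρ hρ hnd (by rw [map_neg, hd, neg_zero]) hw hwm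
  have hsub : ({v, w} : Set (Fin 3 → ℝ)) ⊆
      {v | v ∈ Ico.extremePoints ℝ ∧ ρ v ∈ interior (ρ '' Ico)} := by
    rintro x (rfl | rfl)
    · exact ⟨hv, h1⟩
    · exact ⟨hw, h2⟩
  have h3 := Set.ncard_le_ncard hsub (hfin.subset (fun x hx => hx.1))
  rwa [Set.ncard_pair hvw] at h3

end Pool.Agent.H77.IC
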