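import Mathlib
import Pool.Agent.H77.IC.Defs
import Pool.Agent.H77.IC.IcoShadow

/-!
# Affinely regular icosahedra (module RegShadow, about 80 lines)

`F = A '' Ico` with `A` affine and injective, `π '' F` with nonempty interior. Then
`π ∘ A = ρ + const` with `ρ = π ∘ A.linear` surjective onto the plane (its range contains a ball
around a point after translation). `x = A v` is a vertex of `F` iff `v` is one of `Ico`
(`AffineMap` injective; only one direction is needed) and `π (A v)` is interior to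
`π '' F = (ρ '' Ico) + const` iff `ρ v` is interior to `ρ '' Ico` (translation is a
homeomorphism). `A` is injective, so `ico_shadow` gives two elements of `inner π F`.
-/

set_option autoImplicit false

open Set Module

namespace Pool.Agent.H77.IC

private theorem ext_affine_image (A : (Fin 3 → ℝ) →ᵃ[ℝ] E4) (hA : Function.Injective A)
    (K : Set (Fin 3 → ℝ)) : (A '' K).extremePoints ℝ = A '' (K.extremePoints ℝ) := by
  ext x
  constructor
  · rintro ⟨⟨u, hu, rfl⟩, hx⟩
    refine ⟨u, ⟨hu, fun u1 h1 u2 h2 hseg => ?_⟩, rfl⟩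
    have hs : A u ∈ openSegment ℝ (A u1) (A u2) := by
      rw [← image_openSegment]
      exact ⟨u, hseg, rfl⟩
    exact hA (hx ⟨u1, h1, rfl⟩ ⟨u2, h2, rfl⟩ hs)
  · rintro ⟨u, ⟨hu, hx⟩, rfl⟩
    refine ⟨⟨u, hu, rfl⟩, ?_⟩
    rintro _ ⟨u1, h1, rfl⟩ _ ⟨u2, h2, rfl⟩ hseg
    rw [← image_openSegment] at hseg
    obtain ⟨w, hw, hwu⟩ := hseg
    have := hA hwu
    subst this
    rw [hx h1 h2 hw]

theorem reg_shadow {F : Set E4} (hF : IsRegIco F) (π : E4 →ₗ[ℝ] (Fin 2 → ℝ))
    (hπ : (interior (π '' F)).Nonempty) : 2 ≤ (inner π F).ncard := by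
  obtain ⟨A, hA, rfl⟩ := hF
  set ρ : (Fin 3 → ℝ) →ₗ[ℝ] (Fin 2 → ℝ) := π ∘ₗ A.linear with hρdef
  have hdec : ∀ v, π (A v) = ρ v + π (A 0) := by
    intro v
    have h1 : A v = A.linear v + A 0 := by
      have := congrFun (AffineMap.decomp A) v
      simpa using this
    rw [h1, map_add]
    rfl
  have himg : π '' (A '' Ico) = (Homeomorph.addRight (π (A 0))) '' (ρ '' Ico) := by
    rw [image_image, image_image]
    refine image_congr fun v _ => ?_
    rw [hdec v]
    rfl
  have hint : interior (π '' (A '' Ico))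
      = (Homeomorph.addRight (π (A 0))) '' interior (ρ '' Ico) := by
    rw [himg, Homeomorph.image_interior]
  have hsurj : Function.Surjective ρ := by
    rw [hint] at hπ
    have hne : (interior (ρ '' Ico)).Nonempty := by
      obtain ⟨_, y, hy, _⟩ := hπ
      exact ⟨y, hy⟩
    have hne2 : (interior ((LinearMap.range ρ : Submodule ℝ (Fin 2 → ℝ)) :
        Set (Fin 2 → ℝ))).Nonempty := by
      refine hne.mono (interior_mono ?_)
      rintro _ ⟨v, _, rfl⟩
      exact LinearMap.mem_range_self ρ v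
    exact LinearMap.range_eq_top.1 (Submodule.eq_top_of_nonempty_interior' _ hne2)
  have hset : inner π (A '' Ico)
      = A '' {v | v ∈ Ico.extremePoints ℝ ∧ ρ v ∈ interior (ρ '' Ico)} := by
    ext x
    simp only [inner, mem_setOf_eq, ext_affine_image A hA Ico]
    constructor
    · rintro ⟨⟨v, hv, rfl⟩, hx⟩
      refine ⟨v, ⟨hv, ?_⟩, rfl⟩
      rw [hint, hdec v] at hx
      obtain ⟨w, hw, hwe⟩ := hx
      have : w = ρ v := by
        have h2 : w + π (A 0) = ρ v + π (A 0) := hwe
        exact add_right_cancel h2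
      rwa [this] at hw
    · rintro ⟨v, ⟨hv, hx⟩, rfl⟩
      refine ⟨⟨v, hv, rfl⟩, ?_⟩
      rw [hint, hdec v]
      exact ⟨ρ v, hx, rfl⟩
  rw [hset, ncard_image_of_injective _ hA]
  exact ico_shadow ρ hsurj

end Pool.Agent.H77.IC
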