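import Mathlib
import Pool.Agent.H77.IC.Defs
import Pool.Agent.H77.IC.Facet

/-!
# The shadow of the polytope has at least three vertices (module ShadowQ, about 110 lines)

`P = convexHull S` with nonempty interior, `π` surjective. `π '' P = convexHull (π '' S)` has
nonempty interior in the plane (a surjective linear map is open), so it is a compact convex set
with at least three extreme points: it is the convex hull of its (finitely many) extreme points
and the hull of two points is contained in a line, which has empty interior. Each extreme point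
`e` of `π '' P` is `π x` for a vertex `x` of `P`: `P ∩ π ⁻¹' {e}` is a nonempty compact convex
extreme subset of `P`, take an extreme point of it. And an extreme point `e` is not interior.
-/

set_option autoImplicit false

open Set Module

namespace Pool.Agent.H77.IC

/-- an extreme point of a planar set is not interior -/
private theorem ext_not_interior {K : Set (Fin 2 → ℝ)} {e : Fin 2 → ℝ}
    (he : e ∈ K.extremePoints ℝ) : e ∉ interior K := by
  intro hi
  have hcont : Continuous (fun r : ℝ => e + r • (fun _ => (1 : ℝ) : Fin 2 → ℝ)) := by fun_prop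
  have hmem : {r : ℝ | e + r • (fun _ => (1 : ℝ) : Fin 2 → ℝ) ∈ interior K} ∈ nhds (0 : ℝ) := by
    apply (isOpen_interior.preimage hcont).mem_nhds
    simpa using hi
  obtain ⟨ε, hε, hball⟩ := Metric.mem_nhds_iff.1 hmem
  have h1 : ε / 2 ∈ Metric.ball (0 : ℝ) ε := by
    simp [abs_of_pos hε]; linarith
  have h2 : -(ε / 2) ∈ Metric.ball (0 : ℝ) ε := by
    simp [abs_of_pos hε]; linarith
  have h3 := interior_subset (hball h1)
  have h4 := interior_subset (hball h2)
  have h5 : e ∈ openSegment ℝ (e + (ε / 2) • (fun _ => (1 : ℝ) : Fin 2 → ℝ))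
      (e + (-(ε / 2)) • (fun _ => (1 : ℝ) : Fin 2 → ℝ)) := by
    refine ⟨1 / 2, 1 / 2, by norm_num, by norm_num, by norm_num, ?_⟩
    ext k
    simp
    ring
  have h6 := he.2 h3 h4 h5
  have h7 := congrFun h6 0
  simp at h7
  linarith

/-- a segment in the plane has empty interior -/
private theorem hull_pair (a b : Fin 2 → ℝ) :
    interior (convexHull ℝ ({a, b} : Set (Fin 2 → ℝ))) = ∅ := by
  by_contra h
  have hne : (interior (convexHull ℝ ({a, b} : Set (Fin 2 → ℝ)))).Nonempty :=
    nonempty_iff_ne_empty.2 h
  have h1 := isOpen_interior.affineSpan_eq_top hne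
  have h2 : affineSpan ℝ (convexHull ℝ ({a, b} : Set (Fin 2 → ℝ))) = ⊤ :=
    top_le_iff.1 (h1 ▸ affineSpan_mono ℝ interior_subset)
  rw [affineSpan_convexHull] at h2
  have h3 : finrank ℝ (affineSpan ℝ ({a, b} : Set (Fin 2 → ℝ))).direction = 2 := by
    rw [h2, AffineSubspace.direction_top, finrank_top, Module.finrank_fin_fun]
  rw [direction_affineSpan, vectorSpan_pair] at h3
  have h4 := finrank_span_le_card (R := ℝ) ({a -ᵥ b} : Set (Fin 2 → ℝ))
  rw [h3, Set.toFinset_singleton, Finset.card_singleton] at h4
  omega

theorem shadow_three (S : Finset E4) (hS : (interior (convexHull ℝ (S : Set E4))).Nonempty)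
    (π : E4 →ₗ[ℝ] (Fin 2 → ℝ)) (hπ : Function.Surjective π) :
    (inner π (convexHull ℝ (S : Set E4))).ncard + 3 ≤
      ((convexHull ℝ (S : Set E4)).extremePoints ℝ).ncard := by
  set P := convexHull ℝ (S : Set E4) with hP
  set V := P.extremePoints ℝ with hV
  have hVf : V.Finite := ext_finite S
  have hPc : IsCompact P := S.finite_toSet.isCompact_convexHull ℝ
  have hinV : inner π P ⊆ V := fun x hx => hx.1
  set O := V \ inner π P with hO
  have hsplit : (inner π P).ncard + O.ncard = V.ncard := by
    rw [hO, add_comm]
    exact Set.ncard_sdiff_add_ncard_of_subset hinV hVf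
  have hOf : O.Finite := hVf.subset sdiff_subset
  by_contra hcon
  have hO2 : O.ncard ≤ 2 := by omega
  set K := π '' P with hK
  have hKc : IsCompact K := hPc.image (LinearMap.continuous_of_finiteDimensional π)
  have hKconv : Convex ℝ K := (convex_convexHull ℝ _).linear_image π
  have hKint : (interior K).Nonempty := by
    obtain ⟨x, hx⟩ := hS
    have hopen : IsOpenMap π := π.isOpenMap_of_finiteDimensional hπ
    exact ⟨π x, interior_maximal (image_mono interior_subset) (hopen _ isOpen_interior)
      ⟨x, hx, rfl⟩⟩
  have hext : K.extremePoints ℝ ⊆ π '' O := by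
    intro e he
    have hs := surjOn_extremePoints_image
      (LinearMap.toContinuousLinearMap π).toContinuousAffineMap hPc
    have he' : e ∈ ((LinearMap.toContinuousLinearMap π).toContinuousAffineMap '' P).extremePoints
        ℝ := he
    obtain ⟨x, hx, hxe⟩ := hs he'
    have hxe' : π x = e := hxe
    refine ⟨x, ⟨hx, ?_⟩, hxe'⟩
    rintro ⟨-, hxi⟩
    rw [hxe'] at hxi
    exact ext_not_interior he hxi
  have hKhull : K ⊆ convexHull ℝ (π '' O) := by
    have h1 : closure (convexHull ℝ (K.extremePoints ℝ)) = K :=
      closure_convexHull_extremePoints hKc hKconv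
    rw [← h1]
    exact closure_minimal (convexHull_mono hext) ((hOf.image π).isClosed_convexHull ℝ)
  obtain ⟨a, b, hab⟩ : ∃ a b : Fin 2 → ℝ, π '' O ⊆ {a, b} := by
    have h2 : (π '' O).ncard ≤ 2 := (Set.ncard_image_le hOf).trans hO2
    have h3f : (π '' O).Finite := hOf.image π
    rcases Nat.lt_or_ge (π '' O).ncard 2 with h | h
    · rcases Nat.lt_or_ge (π '' O).ncard 1 with h' | h'
      · have h0 : (π '' O).ncard = 0 := by omega
        rw [Set.ncard_eq_zero h3f] at h0
        exact ⟨0, 0, by rw [h0]; exact empty_subset _⟩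
      · have h1 : (π '' O).ncard = 1 := by omega
        obtain ⟨a, ha⟩ := Set.ncard_eq_one.1 h1
        exact ⟨a, a, by rw [ha]; simp⟩
    · have h2' : (π '' O).ncard = 2 := le_antisymm h2 h
      obtain ⟨a, b, -, hab⟩ := Set.ncard_eq_two.1 h2'
      exact ⟨a, b, hab.subset⟩
  have h5 : interior K ⊆ interior (convexHull ℝ ({a, b} : Set (Fin 2 → ℝ))) :=
    interior_mono (hKhull.trans (convexHull_mono hab))
  rw [hull_pair] at h5
  obtain ⟨x, hx⟩ := hKint
  exact h5 hx

end Pool.Agent.H77.IC
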