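import Mathlib
import Pool.Agent.H77.IC.Defs
import Pool.Agent.H77.IC.CoreA
import Pool.Agent.H77.IC.Det
import Pool.Agent.H77.IC.Facet

/-!
# At most two facets (module TwoShadow, about 110 lines)

For a surjective linear map `π` to the plane and a point `x` there are at most two facets
`F ∋ x` with `π x` interior to `π F`.

Proof. Suppose three distinct ones `F_0, F_1, F_2` (use `Set.two_lt_ncard_iff` or
`Finset.two_lt_card`, finiteness from `facet_finite`). `F_j` has a core point `c_j`
(`facet_core`). As `π x` is interior to `π F_j` there is `ε > 0` with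
`π x + ε (π x - π c_j) = π w`, `w ∈ F_j`; then `z_j = (c_j ε + w)/(1+ε)` is a core point of `F_j`
(`core_combo`) with `π z_j = π x`. Let `a_j, M_j` be the functional of `F_j` (`facet_eq`). Then
`a_j z_j = M_j = a_j x` and `a_j z_k < M_j` for `j ≠ k`, since equality would give `z_k ∈ F_j`
and `F_k = F_j` by `eq_of_core`. Put `d_j = z_j - x ∈ D = ker π`, `finrank D = 2`. Apply
`dep_two` and `no_three`.
-/

set_option autoImplicit false

open Set Module

namespace Pool.Agent.H77.IC

/-- a core point with prescribed image interior to the image -/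
private theorem core_over {F : Set E4} (hF : Convex ℝ F) {c : E4} (hc : Core F c)
    (π : E4 →ₗ[ℝ] (Fin 2 → ℝ)) (x : E4) (hx : π x ∈ interior (π '' F)) :
    ∃ z, Core F z ∧ π z = π x := by
  have hcont : Continuous (fun r : ℝ => π x + r • (π x - π c)) := by fun_prop
  have hmem : {r : ℝ | π x + r • (π x - π c) ∈ interior (π '' F)} ∈ nhds (0 : ℝ) := by
    apply (isOpen_interior.preimage hcont).mem_nhds
    simpa using hx
  obtain ⟨ε, hε, hball⟩ := Metric.mem_nhds_iff.1 hmem
  have h1 : ε / 2 ∈ Metric.ball (0 : ℝ) ε := by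
    simp [abs_of_pos hε]; linarith
  obtain ⟨w, hw, hπw⟩ := interior_subset (hball h1)
  have hpos : 0 < 1 + ε / 2 := by positivity
  refine ⟨(1 - 1 / (1 + ε / 2)) • c + (1 / (1 + ε / 2)) • w, core_combo hF hc hw (by positivity)
    (by rw [div_lt_one hpos]; linarith), ?_⟩
  rw [map_add, map_smul, map_smul, hπw]
  ext k
  simp only [Pi.add_apply, Pi.smul_apply, Pi.sub_apply, smul_eq_mul]
  field_simp
  ring

theorem two_shadow (S : Finset E4) (π : E4 →ₗ[ℝ] (Fin 2 → ℝ)) (hπ : Function.Surjective π)
    (x : E4) :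
    {F : Set E4 | IsFacet (convexHull ℝ (S : Set E4)) F ∧ x ∈ F ∧
      π x ∈ interior (π '' F)}.ncard ≤ 2 := by
  by_contra hcon
  push Not at hcon
  have hfin : {F : Set E4 | IsFacet (convexHull ℝ (S : Set E4)) F ∧ x ∈ F ∧
      π x ∈ interior (π '' F)}.Finite :=
    (facet_finite S).subset (fun F hF => hF.1)
  obtain ⟨F₀, F₁, F₂, h0, h1, h2, h01, h02, h12⟩ := (Set.two_lt_ncard_iff hfin).1 hcon
  let F : Fin 3 → Set E4 := ![F₀, F₁, F₂]
  have hF : ∀ i, F i ∈ {F : Set E4 | IsFacet (convexHull ℝ (S : Set E4)) F ∧ x ∈ F ∧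
      π x ∈ interior (π '' F)} := by
    intro i
    fin_cases i
    · exact h0
    · exact h1
    · exact h2
  have hinj : ∀ i j, i ≠ j → F i ≠ F j := by
    intro i j hij
    fin_cases i <;> fin_cases j
    · exact absurd rfl hij
    · exact h01
    · exact h02
    · exact h01.symm
    · exact absurd rfl hij
    · exact h12
    · exact h02.symm
    · exact h12.symm
    · exact absurd rfl hij
  have hcore : ∀ i, ∃ z, Core (F i) z ∧ π z = π x := by
    intro i
    obtain ⟨hfac, hx, hxi⟩ := hF i
    obtain ⟨c, hc⟩ := facet_core S hfac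
    exact core_over (hfac.1.convex (convex_convexHull ℝ _)) hc π x hxi
  choose z hz hπz using hcore
  choose hne a M haM hFa using fun i => facet_eq (hF i).1
  have hsub : ∀ i, F i ⊆ convexHull ℝ (S : Set E4) := fun i => (hF i).1.1.subset
  have hzF : ∀ i, z i ∈ F i := fun i => (hz i).1
  have haz : ∀ i, a i (z i) = M i := by
    intro i
    have h := hzF i
    rw [hFa i] at h
    exact h.2
  have hax : ∀ i, a i x = M i := by
    intro i
    have h := (hF i).2.1
    rw [hFa i] at h
    exact h.2
  have hneg : ∀ i j, i ≠ j → a i (z j) < M i := by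
    intro i j hij
    refine lt_of_le_of_ne (haM i _ (hsub j (hzF j))) ?_
    intro he
    have hmem : z j ∈ F i := by
      rw [hFa i]
      exact ⟨hsub j (hzF j), he⟩
    exact hinj j i (Ne.symm hij) (eq_of_core (hF i).1 (hF j).1 (hz j) hmem)
  have hrank : finrank ℝ (LinearMap.ker π) = 2 := by
    have h := LinearMap.finrank_range_add_finrank_ker π
    rw [LinearMap.range_eq_top.2 hπ, finrank_top, finrank_euclideanSpace,
      Fintype.card_fin, Module.finrank_fin_fun] at h
    omega
  obtain ⟨c, hc0, hdep⟩ := dep_two (LinearMap.ker π) hrank (fun i => (a i : E4 →ₗ[ℝ] ℝ))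
  refine no_three (fun i => (a i : E4 →ₗ[ℝ] ℝ)) (fun j => z j - x) c hc0 ?_ ?_ ?_
  · intro j
    exact hdep (z j - x) (by simp [hπz j])
  · intro i
    simp only [ContinuousLinearMap.coe_coe, map_sub, haz i, hax i, sub_self]
  · intro i j hij
    simp only [ContinuousLinearMap.coe_coe, map_sub, hax i]
    linarith [hneg i j hij]

end Pool.Agent.H77.IC
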