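import Mathlib
import Pool.Agent.H77.IC.Defs
import Pool.Agent.H77.IC.Facet
import Pool.Agent.H77.IC.TwoShadow
import Pool.Agent.H77.IC.ShadowQ

/-!
# The shadow inequality (module Shadow, about 80 lines, counting)

The pairs (facet `F`, vertex `x ∈ inner π F`) number at most `2 #(inner π P) <= 2 (f_0 - 3)`.

The second coordinate of such a pair lies in `inner π P` (`ext_face`, `interior_mono`), and each
`x` has at most two facets by `two_shadow` (a subset of the set counted there; everything is
finite by `facet_finite`, `ext_finite`). Write the set of pairs as a finite union over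
`x ∈ inner π P` or use `Finset.card_le_mul_card_image`. Then `shadow_three`.
-/

set_option autoImplicit false

open Set Module

namespace Pool.Agent.H77.IC

private theorem inner_sub {P F : Set E4} (hF : IsExposed ℝ P F) (π : E4 →ₗ[ℝ] (Fin 2 → ℝ)) :
    inner π F ⊆ inner π P := by
  rintro x ⟨hx, hx'⟩
  rw [ext_face hF] at hx
  exact ⟨hx.2, interior_mono (image_mono hF.subset) hx'⟩

private theorem inner_finite (S : Finset E4) (π : E4 →ₗ[ℝ] (Fin 2 → ℝ)) :
    (inner π (convexHull ℝ (S : Set E4))).Finite :=
  (ext_finite S).subset fun _ h => h.1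

private theorem pairs_finite (S : Finset E4) (π : E4 →ₗ[ℝ] (Fin 2 → ℝ)) :
    {p : Set E4 × E4 | IsFacet (convexHull ℝ (S : Set E4)) p.1 ∧ p.2 ∈ inner π p.1}.Finite :=
  ((facet_finite S).prod (inner_finite S π)).subset
    fun _ h => ⟨h.1, inner_sub h.1.1 π h.2⟩

theorem shadow_pairs (S : Finset E4) (hS : (interior (convexHull ℝ (S : Set E4))).Nonempty)
    (π : E4 →ₗ[ℝ] (Fin 2 → ℝ)) (hπ : Function.Surjective π) :
    {p : Set E4 × E4 | IsFacet (convexHull ℝ (S : Set E4)) p.1 ∧ p.2 ∈ inner π p.1}.Finite ∧
    {p : Set E4 × E4 | IsFacet (convexHull ℝ (S : Set E4)) p.1 ∧ p.2 ∈ inner π p.1}.ncard + 6 ≤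
      2 * ((convexHull ℝ (S : Set E4)).extremePoints ℝ).ncard := by
  classical
  have hfin := pairs_finite S π
  refine ⟨hfin, ?_⟩
  have h3 := shadow_three S hS π hπ
  have hI := inner_finite S π
  have hmain : hfin.toFinset.card ≤ 2 * hI.toFinset.card := by
    refine Finset.card_le_mul_card_image_of_maps_to (f := Prod.snd) (t := hI.toFinset) ?_ 2 ?_
    · intro p hp
      rw [Set.Finite.mem_toFinset] at hp ⊢
      exact inner_sub hp.1.1 π hp.2
    · intro x _
      have hA : {F : Set E4 | IsFacet (convexHull ℝ (S : Set E4)) F ∧ x ∈ F ∧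
          π x ∈ interior (π '' F)}.Finite := (facet_finite S).subset fun _ h => h.1
      refine le_trans ?_ (two_shadow S π hπ x)
      rw [Set.ncard_eq_toFinset_card _ hA]
      refine Finset.card_le_card_of_injOn Prod.fst ?_ ?_
      · intro p hp
        rw [Finset.mem_coe, Finset.mem_filter, Set.Finite.mem_toFinset] at hp
        rw [Finset.mem_coe, Set.Finite.mem_toFinset]
        obtain ⟨⟨h1, h2⟩, rfl⟩ := hp
        exact ⟨h1, h2.1.1, h2.2⟩
      · intro p hp q hq hpq
        rw [Finset.mem_coe, Finset.mem_filter] at hp hq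
        exact Prod.ext hpq (hp.2.trans hq.2.symm)
  rw [Set.ncard_eq_toFinset_card _ hfin]
  rw [Set.ncard_eq_toFinset_card _ hI] at h3
  omega

/-- Consequence in the form used later: if `k` facets have at least two inner vertices then
`k + 3 <= f_0` (the set of pairs contains two pairs for each of these facets). -/
theorem shadow_facets (S : Finset E4) (hS : (interior (convexHull ℝ (S : Set E4))).Nonempty)
    (π : E4 →ₗ[ℝ] (Fin 2 → ℝ)) (hπ : Function.Surjective π) :
    {F : Set E4 | IsFacet (convexHull ℝ (S : Set E4)) F ∧ 2 ≤ (inner π F).ncard}.ncard + 3 ≤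
      ((convexHull ℝ (S : Set E4)).extremePoints ℝ).ncard := by
  classical
  obtain ⟨hfin, hle⟩ := shadow_pairs S hS π hπ
  have hK : {F : Set E4 | IsFacet (convexHull ℝ (S : Set E4)) F ∧
      2 ≤ (inner π F).ncard}.Finite := (facet_finite S).subset fun _ h => h.1
  have hmain : 2 * hK.toFinset.card ≤ hfin.toFinset.card := by
    refine le_trans ?_ (Finset.card_filter_le hfin.toFinset
      (fun p => p.1 ∈ hK.toFinset))
    refine Finset.mul_card_image_le_card_of_maps_to (f := Prod.fst) ?_ 2 ?_
    · intro p hp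
      exact (Finset.mem_filter.1 hp).2
    · intro F hF
      have hF' := hF
      rw [Set.Finite.mem_toFinset] at hF'
      have hFI : (inner π F).Finite := (inner_finite S π).subset (inner_sub hF'.1.1 π)
      refine le_trans hF'.2 ?_
      rw [Set.ncard_eq_toFinset_card _ hFI]
      refine Finset.card_le_card_of_injOn (fun x => (F, x)) ?_ ?_
      · intro x hx
        rw [Finset.mem_coe, Set.Finite.mem_toFinset] at hx
        rw [Finset.mem_coe, Finset.mem_filter, Finset.mem_filter, Set.Finite.mem_toFinset]
        exact ⟨⟨⟨hF'.1, hx⟩, hF⟩, rfl⟩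
      · intro x _ y _ hxy
        exact congrArg Prod.snd hxy
  rw [Set.ncard_eq_toFinset_card _ hfin] at hle
  rw [Set.ncard_eq_toFinset_card _ hK]
  omega

end Pool.Agent.H77.IC
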