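import Mathlib
import Pool.Agent.H77.IC.Defs
import Pool.Agent.H77.IC.Facet
import Pool.Agent.H77.IC.Expose
import Pool.Agent.H77.IC.Tilt
import Pool.Agent.H77.IC.Transfer
import Pool.Agent.H77.IC.Sep

set_option autoImplicit false

open Set Module

/-!
# Every edge lies in three facets (module Valence, about 130 lines)

`F` a facet, `y ∈ nb F x`; `G1, G2, z1, z2` from `IsIco.edge`. `G_i` is the triangle
`x, y, z_i` (`face_hull_ext` with `ext_face`), its direction has rank 2 since the three vertices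
are not collinear (`not_proportional`). `ridge` gives facets `F_i ≠ F` containing `G_i`.
`F_1 ≠ F_2`: otherwise `G' = F ∩ F_1` is an exposed face of `F` (the functional of `F_1`
restricted to `F`, `exposed_of_max`) containing `x, y, z1, z2`, so all vertices of `F`, so
`F ⊆ F_1`, `F = F_1` (`facet_unique`). Finally `y ∈ nb F_i x` by `edge_trans`.
-/

namespace Pool.Agent.H77.IC

/-- A face of a facet with three vertices has direction of rank two. -/
theorem tri_rank (S : Finset E4) {F G : Set E4} {x y z : E4}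
    (hF : IsFacet (convexHull ℝ (S : Set E4)) F)
    (hG : IsExposed ℝ F G) (hGe : G ∩ F.extremePoints ℝ = {x, y, z})
    (hyx : y ≠ x) (hzx : z ≠ x) (hyz : y ≠ z) :
    finrank ℝ (affineSpan ℝ G).direction = 2 := by
  have hGP : IsExposed ℝ (convexHull ℝ (S : Set E4)) G :=
    Pool.Agent.H27.Content.face_trans S hF.1 hG
  have hext : G.extremePoints ℝ = {x, y, z} := by
    rw [ext_face hG, hGe]
  have hsub : ∀ w ∈ ({x, y, z} : Set E4), w ∈ (convexHull ℝ (S : Set E4)).extremePoints ℝ := by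
    intro w hw
    rw [← hGe] at hw
    have h1 := hw.2
    rw [ext_face hF.1] at h1
    exact h1.2
  have hx : x ∈ (convexHull ℝ (S : Set E4)).extremePoints ℝ := hsub x (by simp)
  have hy : y ∈ (convexHull ℝ (S : Set E4)).extremePoints ℝ := hsub y (by simp)
  have hz : z ∈ (convexHull ℝ (S : Set E4)).extremePoints ℝ := hsub z (by simp)
  rw [face_hull_ext S hGP, hext, affineSpan_convexHull, direction_affineSpan,
    vectorSpan_eq_span_vsub_set_right ℝ (show x ∈ ({x, y, z} : Set E4) by simp)]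
  have h1 : (fun w : E4 => w -ᵥ x) '' ({x, y, z} : Set E4) = insert 0 {y - x, z - x} := by
    rw [image_insert_eq, image_insert_eq, image_singleton]
    simp
  rw [h1, Submodule.span_insert_zero]
  have hli : LinearIndependent ℝ ![y - x, z - x] := by
    rw [LinearIndependent.pair_iff' (sub_ne_zero.2 hyx)]
    intro a ha
    exact not_proportional (convex_convexHull ℝ (S : Set E4)) hx hz hy hzx hyx hyz.symm a ha.symm
  have h2 := finrank_span_eq_card hli
  have h3 : Set.range ![y - x, z - x] = {y - x, z - x} := by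
    rw [Matrix.range_cons, Matrix.range_cons, Matrix.range_empty, union_empty]
    rfl
  rw [h3] at h2
  rw [h2]
  simp

theorem three_facets (S : Finset E4) (hS : (interior (convexHull ℝ (S : Set E4))).Nonempty)
    {F : Set E4} (hF : IsFacet (convexHull ℝ (S : Set E4)) F) (hI : IsIco F) {x y : E4}
    (hy : y ∈ nb F x) :
    3 ≤ {F' : Set E4 | IsFacet (convexHull ℝ (S : Set E4)) F' ∧ y ∈ nb F' x}.ncard := by
  obtain ⟨z1, hz1, z2, hz2, h12, h1x, h1y, h2x, h2y, ⟨G1, hG1, hG1e⟩, ⟨G2, hG2, hG2e⟩, hlast⟩ :=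
    hI.edge hy
  have hyx : y ≠ x := hy.1
  have hr1 := tri_rank S hF hG1 hG1e hyx h1x h1y.symm
  have hr2 := tri_rank S hF hG2 hG2e hyx h2x h2y.symm
  have hm : ∀ {G : Set E4} {z w : E4}, G ∩ F.extremePoints ℝ = {x, y, z} →
      w ∈ ({x, y, z} : Set E4) → w ∈ G := by
    intro G z w h hw
    rw [← h] at hw
    exact hw.1
  obtain ⟨F1, hF1, hne1, hs1⟩ := ridge S hS hF hG1 ⟨x, hm hG1e (by simp)⟩ hr1
  obtain ⟨F2, hF2, hne2, hs2⟩ := ridge S hS hF hG2 ⟨x, hm hG2e (by simp)⟩ hr2
  have hx1 : x ∈ F1 := hs1 (hm hG1e (by simp))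
  have hy1 : y ∈ F1 := hs1 (hm hG1e (by simp))
  have hx2 : x ∈ F2 := hs2 (hm hG2e (by simp))
  have hy2 : y ∈ F2 := hs2 (hm hG2e (by simp))
  have hne12 : F1 ≠ F2 := by
    rintro rfl
    obtain ⟨-, a, M, hM, hFe⟩ := facet_eq hF1
    have hex : IsExposed ℝ F {w ∈ F | a w = M} :=
      Pool.Agent.H27.Content.exposed_of_max a M fun w hw => hM w (hF.1.subset hw)
    have hin : ∀ w ∈ F, w ∈ F1 → w ∈ {w ∈ F | a w = M} := by
      intro w hw hw1
      rw [hFe] at hw1
      exact ⟨hw, hw1.2⟩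
    have hxF : x ∈ F := hy.2.1.1
    have hyF : y ∈ F := hy.2.2.1.1
    have hall := hlast _ hex (hin x hxF hx1) (hin y hyF hy1)
      (hin z1 hz1.1 (hs1 (hm hG1e (by simp)))) (hin z2 hz2.1 (hs2 (hm hG2e (by simp))))
    apply hne1
    refine (facet_unique hF hF1 ?_).symm
    have hconv : Convex ℝ F1 := hF1.1.convex (convex_convexHull ℝ _)
    rw [face_hull_ext S hF.1]
    refine convexHull_min ?_ hconv
    intro w hw
    have h5 := hall hw
    rw [hFe]
    exact ⟨hF.1.subset h5.1, h5.2⟩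
  have hfin : {F' : Set E4 | IsFacet (convexHull ℝ (S : Set E4)) F' ∧ y ∈ nb F' x}.Finite :=
    (facet_finite S).subset fun _ h => h.1
  have hsub : ({F, F1, F2} : Set (Set E4)) ⊆
      {F' : Set E4 | IsFacet (convexHull ℝ (S : Set E4)) F' ∧ y ∈ nb F' x} := by
    rintro F' (rfl | rfl | rfl)
    · exact ⟨hF, hy⟩
    · exact ⟨hF1, edge_trans S hF hF1 hy hx1 hy1⟩
    · exact ⟨hF2, edge_trans S hF hF2 hy hx2 hy2⟩
  have hc : ({F, F1, F2} : Set (Set E4)).ncard = 3 :=
    Set.ncard_eq_three.2 ⟨F, F1, F2, hne1.symm, hne2.symm, hne12, rfl⟩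
  rw [← hc]
  exact Set.ncard_le_ncard hsub hfin

end Pool.Agent.H77.IC
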