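import Mathlib
import Pool.Agent.H77.IC.Defs
import Pool.Agent.H77.IC.Facet
import Pool.Agent.H77.IC.Sweep
import Pool.Agent.H77.IC.Valence
import Pool.Agent.H77.IC.Tilt
import Pool.Agent.H77.IC.Transfer

/-!
# Twelve facets at every vertex (module Twelve, about 120 lines, counting)

`x` a vertex of `P`, `N` the number of facets containing `x`, `A = sum #(nb F x) >= 5 N`
(`IsIco.five`, `ext_face`), `D = #Y`. `three_facets` gives `3 D <= A` (double counting of the
pairs `y ∈ nb F x`), `sweep` gives `A + 4 <= 2 D + 2 N`. So `A + 4 <= (2/3) A + 2 N`,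
`A/3 + 4 <= 2 N`, `5 N / 3 + 4 <= 2 N`, `N >= 12`. There is a facet at `x` by `vertex_in_facet`.
`ico_le`: `12 f_3 = sum_F #(vertices of F) = sum_x N_x >= 12 f_0` (`IsIco.card`).
-/

set_option autoImplicit false

open Set Module

namespace Pool.Agent.H77.IC

private theorem mem_ext {P F : Set E4} (hF : IsExposed ℝ P F) {x : E4}
    (hx : x ∈ P.extremePoints ℝ) (hxF : x ∈ F) : x ∈ F.extremePoints ℝ := by
  rw [ext_face hF]
  exact ⟨hxF, hx⟩

private theorem ext_sub {P F : Set E4} (hF : IsExposed ℝ P F) {x : E4}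
    (hx : x ∈ F.extremePoints ℝ) : x ∈ F ∧ x ∈ P.extremePoints ℝ := by
  rw [ext_face hF] at hx
  exact hx

theorem ico_twelve (S : Finset E4) (hS : (interior (convexHull ℝ (S : Set E4))).Nonempty)
    (hI : ∀ F, IsFacet (convexHull ℝ (S : Set E4)) F → IsIco F) {x : E4}
    (hx : x ∈ (convexHull ℝ (S : Set E4)).extremePoints ℝ) :
    12 ≤ {F : Set E4 | IsFacet (convexHull ℝ (S : Set E4)) F ∧ x ∈ F}.ncard := by
  classical
  set P := convexHull ℝ (S : Set E4) with hP
  have hfin : {F : Set E4 | IsFacet P F ∧ x ∈ F}.Finite :=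
    (facet_finite S).subset fun F hF => hF.1
  set FF : Finset (Set E4) := hfin.toFinset with hFFd
  have hFF : ∀ F, F ∈ FF ↔ IsFacet P F ∧ x ∈ F := fun F => by
    rw [hFFd, Set.Finite.mem_toFinset]
    rfl
  set Y : Finset E4 := (ext_finite S).toFinset.filter (fun y => ∃ F ∈ FF, y ∈ nb F x) with hYd
  have hnbP : ∀ F ∈ FF, ∀ y ∈ nb F x, y ∈ P.extremePoints ℝ := fun F hF y hy =>
    (ext_sub ((hFF F).1 hF).1.1 hy.2.2.1).2
  have hY : ∀ y, y ∈ Y ↔ ∃ F ∈ FF, y ∈ nb F x := fun y => by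
    rw [hYd, Finset.mem_filter, Set.Finite.mem_toFinset]
    constructor
    · exact fun h => h.2
    · rintro ⟨F, hF, hy⟩
      exact ⟨hnbP F hF y hy, F, hF, hy⟩
  have h5 : ∀ F ∈ FF, 5 ≤ (nb F x).ncard := fun F hF =>
    (hI F ((hFF F).1 hF).1).five (mem_ext ((hFF F).1 hF).1.1 hx ((hFF F).1 hF).2)
  have hne : FF.Nonempty := by
    obtain ⟨F, hF, hxF⟩ := vertex_in_facet S hS hx
    exact ⟨F, (hFF F).2 ⟨hF, hxF⟩⟩
  have hsw := sweep S hx FF hFF hne (fun F hF => by have := h5 F hF; omega) Y hY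
  -- the sum as a count of pairs
  have hcard : ∀ F ∈ FF, (nb F x).ncard = (Y.filter (fun y => y ∈ nb F x)).card := by
    intro F hF
    rw [← Set.ncard_coe_finset]
    congr 1
    ext y
    simp only [Finset.coe_filter, Set.mem_ofPred_eq]
    exact ⟨fun h => ⟨(hY y).2 ⟨F, hF, h⟩, h⟩, fun h => h.2⟩
  have hA5 : 5 * FF.card ≤ ∑ F ∈ FF, (nb F x).ncard := by
    have := Finset.card_nsmul_le_sum FF (fun F => (nb F x).ncard) 5 h5
    simpa [mul_comm] using this
  have hdc : ∑ F ∈ FF, (Y.filter (fun y => y ∈ nb F x)).card =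
      ∑ y ∈ Y, (FF.filter (fun F => y ∈ nb F x)).card :=
    Finset.sum_card_bipartiteAbove_eq_sum_card_bipartiteBelow (fun F y => y ∈ nb F x)
  have h3 : ∀ y ∈ Y, 3 ≤ (FF.filter (fun F => y ∈ nb F x)).card := by
    intro y hy
    obtain ⟨F, hF, hyF⟩ := (hY y).1 hy
    have h := three_facets S hS ((hFF F).1 hF).1 (hI F ((hFF F).1 hF).1) hyF
    rw [← Set.ncard_coe_finset]
    convert h using 2
    ext F'
    simp only [Finset.coe_filter, Set.mem_ofPred_eq, hFF]
    exact ⟨fun h => ⟨h.1.1, h.2⟩, fun h => ⟨⟨h.1, (ext_sub h.1.1 h.2.2.1).1⟩, h.2⟩⟩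
  have h3s : 3 * Y.card ≤ ∑ F ∈ FF, (nb F x).ncard := by
    rw [Finset.sum_congr rfl hcard, hdc]
    have := Finset.card_nsmul_le_sum Y (fun y => (FF.filter (fun F => y ∈ nb F x)).card) 3 h3
    simpa [mul_comm] using this
  have hN : FF.card = {F : Set E4 | IsFacet P F ∧ x ∈ F}.ncard := by
    rw [hFFd, ← Set.ncard_coe_finset, Set.Finite.coe_toFinset]
  omega

theorem ico_le (S : Finset E4) (hS : (interior (convexHull ℝ (S : Set E4))).Nonempty)
    (hI : ∀ F, IsFacet (convexHull ℝ (S : Set E4)) F → IsIco F) :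
    ((convexHull ℝ (S : Set E4)).extremePoints ℝ).ncard ≤
      {F : Set E4 | IsFacet (convexHull ℝ (S : Set E4)) F}.ncard := by
  classical
  set P := convexHull ℝ (S : Set E4) with hP
  set FF : Finset (Set E4) := (facet_finite S).toFinset with hFFd
  set Pe : Finset E4 := (ext_finite S).toFinset with hPed
  have hFF : ∀ F, F ∈ FF ↔ IsFacet P F := fun F => by
    rw [hFFd, Set.Finite.mem_toFinset]
    rfl
  have hPe : ∀ y, y ∈ Pe ↔ y ∈ P.extremePoints ℝ := fun y => by
    rw [hPed, Set.Finite.mem_toFinset]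
  have hdc : ∑ F ∈ FF, (Pe.filter (fun y => y ∈ F)).card =
      ∑ y ∈ Pe, (FF.filter (fun F => y ∈ F)).card :=
    Finset.sum_card_bipartiteAbove_eq_sum_card_bipartiteBelow (fun (F : Set E4) y => y ∈ F)
  have h12 : ∀ F ∈ FF, (Pe.filter (fun y => y ∈ F)).card = 12 := by
    intro F hF
    rw [← (hI F ((hFF F).1 hF)).card, ← Set.ncard_coe_finset]
    congr 1
    ext y
    simp only [Finset.coe_filter, Set.mem_ofPred_eq, hPe]
    exact ⟨fun h => mem_ext ((hFF F).1 hF).1 h.1 h.2, fun h =>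
      ⟨(ext_sub ((hFF F).1 hF).1 h).2, (ext_sub ((hFF F).1 hF).1 h).1⟩⟩
  have h12' : ∀ y ∈ Pe, 12 ≤ (FF.filter (fun F => y ∈ F)).card := by
    intro y hy
    have h := ico_twelve S hS hI ((hPe y).1 hy)
    rw [← Set.ncard_coe_finset]
    convert h using 2
    ext F
    simp only [Finset.coe_filter, Set.mem_ofPred_eq, hFF]
    exact Iff.rfl
  have h1 : ∑ F ∈ FF, (Pe.filter (fun y => y ∈ F)).card = FF.card * 12 := by
    rw [Finset.sum_congr rfl h12, Finset.sum_const, smul_eq_mul]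
  have h2 : 12 * Pe.card ≤ ∑ y ∈ Pe, (FF.filter (fun F => y ∈ F)).card := by
    have := Finset.card_nsmul_le_sum Pe (fun y => (FF.filter (fun F => y ∈ F)).card) 12 h12'
    simpa [mul_comm] using this
  have hN : FF.card = {F : Set E4 | IsFacet P F}.ncard := by
    rw [hFFd, ← Set.ncard_coe_finset, Set.Finite.coe_toFinset]
  have hM : Pe.card = (P.extremePoints ℝ).ncard := by
    rw [hPed, ← Set.ncard_coe_finset, Set.Finite.coe_toFinset]
  omega

end Pool.Agent.H77.IC
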