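import Mathlib
import Pool.Agent.H77.IC.Defs
import Pool.Agent.H77.IC.Facet
import Pool.Agent.H77.IC.Shadow
import Pool.Agent.H77.IC.Twelve
import Pool.Agent.H77.IC.RegShadow
import Pool.Agent.H77.IC.Generic
import Pool.Agent.H77.IC.Polygon

/-!
# Assembly
-/

set_option autoImplicit false

open Set Module

namespace Pool.Agent.H77.IC

/-- counting: a finite set of facets splits according to a property -/
theorem split_ncard {α : Type*} (A : Set α) (hA : A.Finite) (p : α → Prop) :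
    A.ncard = {F | F ∈ A ∧ p F}.ncard + {F | F ∈ A ∧ ¬ p F}.ncard := by
  classical
  have h1 : {F | F ∈ A ∧ p F}.Finite := hA.subset fun x hx => hx.1
  have h2 : {F | F ∈ A ∧ ¬ p F}.Finite := hA.subset fun x hx => hx.1
  rw [← Set.ncard_union_eq _ h1 h2]
  · congr 1
    ext x
    simp only [mem_union, mem_ofPred_eq]
    tauto
  · rw [Set.disjoint_left]
    rintro x ⟨_, h⟩ ⟨_, h'⟩
    exact h' h

theorem generic_facets (S : Finset E4) :
    ∃ π : E4 →ₗ[ℝ] (Fin 2 → ℝ), Function.Surjective π ∧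
      ∀ F, IsFacet (convexHull ℝ (S : Set E4)) F → (interior (π '' F)).Nonempty ∧
        (F.extremePoints ℝ).ncard ≤ (inner π F).ncard + ((π '' F).extremePoints ℝ).ncard := by
  obtain ⟨π, hs, hπ⟩ := exists_generic_poly S
  refine ⟨π, hs, fun F hF => ?_⟩
  have h3 : 3 ≤ (F.extremePoints ℝ).ncard := le_trans (by norm_num) (facet_four S hF)
  have hsub : F.extremePoints ℝ ⊆ (convexHull ℝ (S : Set E4)).extremePoints ℝ := by
    rw [ext_face hF.1]; exact inter_subset_right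
  have hg : ∀ x ∈ F.extremePoints ℝ, ∀ y ∈ F.extremePoints ℝ, ∀ z ∈ F.extremePoints ℝ,
      x ≠ y → x ≠ z → y ≠ z → LinearIndependent ℝ ![π (y - x), π (z - x)] :=
    fun x hx y hy z hz => hπ x (hsub hx) y (hsub hy) z (hsub hz)
  exact ⟨shadow_body S hF.1 h3 π hg, shadow_ncard S hF.1 h3 π hg⟩

theorem reg_le (S : Finset E4) (hS : (interior (convexHull ℝ (S : Set E4))).Nonempty) :
    {F : Set E4 | IsFacet (convexHull ℝ (S : Set E4)) F ∧ IsRegIco F}.ncard + 3 ≤
      ((convexHull ℝ (S : Set E4)).extremePoints ℝ).ncard := by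
  obtain ⟨π, hs, hπ⟩ := generic_facets S
  have h := shadow_facets S hS π hs
  have hfin : {F : Set E4 | IsFacet (convexHull ℝ (S : Set E4)) F ∧
      2 ≤ (inner π F).ncard}.Finite := (facet_finite S).subset fun x hx => hx.1
  have hle : {F : Set E4 | IsFacet (convexHull ℝ (S : Set E4)) F ∧ IsRegIco F}.ncard ≤
      {F : Set E4 | IsFacet (convexHull ℝ (S : Set E4)) F ∧ 2 ≤ (inner π F).ncard}.ncard := by
    apply Set.ncard_le_ncard _ hfin
    rintro F ⟨hF, hR⟩
    exact ⟨hF, reg_shadow hR π (hπ F hF).1⟩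
  omega

theorem few_inner (S : Finset E4) (hS : (interior (convexHull ℝ (S : Set E4))).Nonempty)
    (hI : ∀ F, IsFacet (convexHull ℝ (S : Set E4)) F → IsIco F)
    (π : E4 →ₗ[ℝ] (Fin 2 → ℝ)) (hπ : Function.Surjective π) :
    3 ≤ {F : Set E4 | IsFacet (convexHull ℝ (S : Set E4)) F ∧ (inner π F).ncard ≤ 1}.ncard := by
  have h := shadow_facets S hS π hπ
  have h2 := ico_le S hS hI
  have h3 := split_ncard _ (facet_finite S) (fun F => 2 ≤ (inner π F).ncard)
  have h4 : {F : Set E4 | F ∈ {F : Set E4 | IsFacet (convexHull ℝ (S : Set E4)) F} ∧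
      ¬ 2 ≤ (inner π F).ncard} =
      {F : Set E4 | IsFacet (convexHull ℝ (S : Set E4)) F ∧ (inner π F).ncard ≤ 1} := by
    ext F
    simp only [mem_ofPred_eq, not_le]
    constructor <;> rintro ⟨h, h'⟩ <;> exact ⟨h, by omega⟩
  rw [h4] at h3
  simp only [mem_ofPred_eq] at h3
  omega

theorem main (S : Finset E4) (hS : (interior (convexHull ℝ (S : Set E4))).Nonempty) :
    (∀ π : E4 →ₗ[ℝ] (Fin 2 → ℝ), Function.Surjective π →
      {p : Set E4 × E4 | IsFacet (convexHull ℝ (S : Set E4)) p.1 ∧ p.2 ∈ inner π p.1}.Finite ∧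
      {p : Set E4 × E4 | IsFacet (convexHull ℝ (S : Set E4)) p.1 ∧
        p.2 ∈ inner π p.1}.ncard + 6 ≤
        2 * ((convexHull ℝ (S : Set E4)).extremePoints ℝ).ncard) ∧
    {F : Set E4 | IsFacet (convexHull ℝ (S : Set E4)) F ∧ IsRegIco F}.ncard + 3 ≤
      ((convexHull ℝ (S : Set E4)).extremePoints ℝ).ncard ∧
    ((∀ F, IsFacet (convexHull ℝ (S : Set E4)) F → IsIco F) →
      (∀ x ∈ (convexHull ℝ (S : Set E4)).extremePoints ℝ,
        12 ≤ {F : Set E4 | IsFacet (convexHull ℝ (S : Set E4)) F ∧ x ∈ F}.ncard) ∧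
      ((convexHull ℝ (S : Set E4)).extremePoints ℝ).ncard ≤
        {F : Set E4 | IsFacet (convexHull ℝ (S : Set E4)) F}.ncard ∧
      (∀ π : E4 →ₗ[ℝ] (Fin 2 → ℝ), Function.Surjective π →
        3 ≤ {F : Set E4 | IsFacet (convexHull ℝ (S : Set E4)) F ∧
          (inner π F).ncard ≤ 1}.ncard) ∧
      (∃ π : E4 →ₗ[ℝ] (Fin 2 → ℝ), 3 ≤ {F : Set E4 |
        IsFacet (convexHull ℝ (S : Set E4)) F ∧ 11 ≤ ((π '' F).extremePoints ℝ).ncard}.ncard) ∧
      3 ≤ {F : Set E4 | IsFacet (convexHull ℝ (S : Set E4)) F ∧ ¬ IsRegIco F}.ncard) := by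
  refine ⟨fun π hπ => shadow_pairs S hS π hπ, reg_le S hS, fun hI => ?_⟩
  have hle := ico_le S hS hI
  refine ⟨fun x hx => ico_twelve S hS hI hx, hle, fun π hπ => few_inner S hS hI π hπ, ?_, ?_⟩
  · obtain ⟨π, hs, hπ⟩ := generic_facets S
    refine ⟨π, (few_inner S hS hI π hs).trans ?_⟩
    apply Set.ncard_le_ncard
    · rintro F ⟨hF, h1⟩
      refine ⟨hF, ?_⟩
      have h2 := (hπ F hF).2
      rw [(hI F hF).card] at h2
      omega
    · exact (facet_finite S).subset fun x hx => hx.1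
  · have h1 := reg_le S hS
    have h3 := split_ncard _ (facet_finite S) (fun F => IsRegIco F)
    simp only [mem_ofPred_eq] at h3
    omega

end Pool.Agent.H77.IC
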